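import Pool.Agent.Helper878_bk.Rec

/-!
# The main argument with a free vertex
-/

set_option autoImplicit false
set_option linter.unusedSectionVars false

namespace Pool.Agent.Helper878_bk

open Finset Pool.Agent.Helper878_mm Pool.Agent.Helper878_bs Pool.Agent.Helper878_bj
open Pool.Agent.Helper878_dcs (Assign)
open scoped Classical

variable {ι : Type} [DecidableEq ι] [Fintype ι]
variable {W : Finset ℕ} {σ : ι → ℕ → Fin 3} {A : ℕ → ℕ → Prop}

/-- there is a free vertex -/
def Fr (W : Finset ℕ) (o : ι → Finset ℕ) : Prop := ∃ e ∈ W, ∀ j, e ∉ o j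

/-- a relaxed solution with a free vertex and the minimum number of bad indices -/
structure MinF (W : Finset ℕ) (σ : ι → ℕ → Fin 3) (A : ℕ → ℕ → Prop) (o : ι → Finset ℕ) :
    Prop where
  rel : Rel W σ o
  fr : Fr W o
  min : ∀ o', Rel W σ o' → Fr W o' → (Vb W σ A o).card ≤ (Vb W σ A o').card

theorem exists_minF (hR : ∃ o, Rel W σ o ∧ Fr W o) : ∃ o, MinF W σ A o := by
  have hex : ∃ n, ∃ o, Rel W σ o ∧ Fr W o ∧ (Vb W σ A o).card = n := by
    obtain ⟨o, ho, hf⟩ := hR
    exact ⟨_, o, ho, hf, rfl⟩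
  obtain ⟨o, h1, h2, h3⟩ := Nat.find_spec hex
  exact ⟨o, h1, h2, fun o' h' h'' => by rw [h3]; exact Nat.find_min' hex ⟨o', h', h'', rfl⟩⟩

/-- changing one bad index and possibly other good ones is impossible -/
theorem MinF.no_imp {o : ι → Finset ℕ} (h : MinF W σ A o) {i : ι} (hi : i ∈ Vb W σ A o)
    {o' : ι → Finset ℕ} (hr : Rel W σ o') (hf : Fr W o') (hg : Good W σ A i (o' i))
    (hk : ∀ k, k ∉ Vb W σ A o → Good W σ A k (o' k)) : False := by
  have h1 : Vb W σ A o' ⊆ (Vb W σ A o).erase i := by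
    intro k hk'
    rw [mem_Vb] at hk'
    refine mem_erase.2 ⟨fun he => hk' (he ▸ hg), ?_⟩
    by_contra hn
    exact hk' (hk k hn)
  have h2 := card_le_card h1
  have h3 := h.min o' hr hf
  rw [card_erase_of_mem hi] at h2
  have h4 := card_pos.2 ⟨i, hi⟩
  omega

/-- an option in a set of three vertices leaves one of them -/
theorem left_over {i : ι} {p : Finset ℕ} (hg : Good W σ A i p) {x y f : ℕ} (h1 : x ≠ y)
    (h2 : x ≠ f) (h3 : y ≠ f) : (x ∉ p ∨ y ∉ p) ∨ f ∉ p := by
  by_contra hn
  push Not at hn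
  have hs : ({x, y, f} : Finset ℕ) ⊆ p := by
    intro v hv
    simp only [mem_insert, mem_singleton] at hv
    rcases hv with rfl | rfl | rfl
    · exact hn.1.1
    · exact hn.1.2
    · exact hn.2
  have hc := card_le_card hs
  rw [card_eq_three.2 ⟨x, y, f, h1, h2, h3, rfl⟩] at hc
  have hp : p.card ≤ 2 := by
    rcases hg with ⟨c, _, _, h⟩ | ⟨a, _, b, _, _, _, _, h⟩
    · rw [h]; simp
    · rw [h]; exact card_le_two
  omega

/-- a free vertex is not adjacent to one of the two vertices of a bad index -/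
theorem MinF.free {o : ι → Finset ℕ} (hm : MinF W σ A o) (hN : HN W σ A) {i : ι}
    (hi : i ∈ Vb W σ A o) {x y : ℕ} (hxy : SP W σ i (o i) x y) {f : ℕ} (hf : f ∈ W)
    (hfo : ∀ j, f ∉ o j) : ¬ A x f ∨ ¬ A y f := by
  by_contra hn
  push Not at hn
  obtain ⟨p, hp, hg⟩ := serve hN.sym hxy hf hn.1 hn.2
  have hxf : x ≠ f := fun h => hfo i (h ▸ hxy.ma)
  have hyf : y ≠ f := fun h => hfo i (h ▸ hxy.mb)
  refine hm.no_imp hi (rel_update hm.rel hg ?_) ?_ ?_ ?_
  · intro v hv
    have := hp hv
    simp only [mem_insert, mem_singleton] at this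
    rcases this with rfl | rfl | rfl
    · exact Or.inl hxy.ma
    · exact Or.inl hxy.mb
    · exact Or.inr hfo
  · have key : ∀ v, v ∈ W → (v ∈ o i ∨ ∀ j, v ∉ o j) → v ∉ p → Fr W (Function.update o i p) := by
      intro v hvW hv hvp
      refine ⟨v, hvW, fun l hl => ?_⟩
      by_cases e : l = i
      · rw [e, Function.update_self] at hl
        exact hvp hl
      · rw [Function.update_of_ne e] at hl
        rcases hv with hv | hv
        · exact disjoint_left.1 (hm.rel.dis i l (fun h => e h.symm)) hv hl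
        · exact hv l hl
    rcases left_over hg hxy.ne hxf hyf with (h | h) | h
    · exact key x hxy.ha (Or.inl hxy.ma) h
    · exact key y hxy.hb (Or.inl hxy.mb) h
    · exact key f hf (Or.inr hfo) h
  · rw [Function.update_self]; exact hg
  · intro k hk
    have hki : k ≠ i := fun e => hk (e ▸ hi)
    rw [Function.update_of_ne hki]
    by_contra hn'
    exact hk (mem_Vb.2 hn')

/-- The main argument. -/
theorem main_free (hN : HN W σ A) (hR : ∃ o, Rel W σ o ∧ Fr W o)
    (hT : ∀ e ∈ W, Test W σ A e) :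
    ∃ o : ι → Finset ℕ, (∀ i, Good W σ A i (o i)) ∧ (∀ i j, i ≠ j → Disjoint (o i) (o j)) ∧
      Fr W o := by
  obtain ⟨o, hm⟩ := exists_minF (A := A) hR
  by_cases hV : (Vb W σ A o).Nonempty
  swap
  · refine ⟨o, fun i => ?_, hm.rel.dis, hm.fr⟩
    by_contra hi
    exact hV ⟨i, mem_Vb.2 hi⟩
  obtain ⟨i, hi⟩ := hV
  obtain ⟨e, heW, heo⟩ := hm.fr
  have heP : e ∈ Pe W σ e := mem_Pe.2 ⟨heW, fun l => rfl⟩
  -- a bad index is inside the classes
  have hbadx : ∀ j ∈ Vb W σ A o, ∃ a b, SP W σ j (o j) a b ∧ a ∈ De W σ e ∧ b ∈ De W σ e ∧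
      ((a ∈ Pe W σ e ∧ b ∈ Qe W σ e) ∨ (a ∈ Qe W σ e ∧ b ∈ Pe W σ e)) := by
    intro j hjV
    obtain ⟨a', b', hj', hnab⟩ := hN.ctx.bad (hm.rel.opt j) (mem_Vb.1 hjV)
    have hab := hN.opp a' hj'.ha b' hj'.hb hj'.ne hnab
    have hba : ∀ l, σ l a' = fl (σ l b') := fun l => by rw [hab l, fl_fl]
    refine ⟨a', b', hj', ?_⟩
    rcases hm.free hN hjV hj' heW heo with h4 | h4
    · have hne : a' ≠ e := fun h => heo j (h ▸ hj'.ma)
      have h5 := hN.opp a' hj'.ha e heW hne h4
      have ha : a' ∈ Qe W σ e := mem_Qe.2 ⟨hj'.ha, fun l => by rw [h5 l, fl_fl]⟩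
      have hb := (De_opp (Qe_sub ha) hj'.hb hab).2.2 ha
      exact ⟨Qe_sub ha, Pe_sub hb, Or.inr ⟨ha, hb⟩⟩
    · have hne : b' ≠ e := fun h => heo j (h ▸ hj'.mb)
      have h5 := hN.opp b' hj'.hb e heW hne h4
      have hb : b' ∈ Qe W σ e := mem_Qe.2 ⟨hj'.hb, fun l => by rw [h5 l, fl_fl]⟩
      have ha := (De_opp (Qe_sub hb) hj'.ha hba).2.2 hb
      exact ⟨Pe_sub ha, Qe_sub hb, Or.inl ⟨ha, hb⟩⟩
  obtain ⟨x, y, hxy, hxD, hyD, -⟩ := hbadx i hi
  have hbade : ∀ j ∈ Vb W σ A o, σ j e ≠ 0 := by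
    intro j hj h0
    obtain ⟨a, b, h1, h2, _⟩ := hbadx j hj
    have h3 := De_zero h2 h0
    rw [h1.h1] at h3
    exact absurd h3 (by decide)
  have hbad : ∀ j ∈ Vb W σ A o, T2 W σ e o j := by
    intro j hj
    obtain ⟨a, b, h1, _, _, h2 | h2⟩ := hbadx j hj
    · exact ⟨hbade j hj, a, h2.1, b, h2.2, h1.hs⟩
    · exact ⟨hbade j hj, b, h2.2, a, h2.1, by rw [h1.hs, pair_comm]⟩
  -- free vertices are in the classes
  have hfree : ∀ f ∈ W, (∀ j, f ∉ o j) → f ∈ De W σ e := by
    intro f hf hfo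
    rcases hm.free hN hi hxy hf hfo with h1 | h1
    · have hne : x ≠ f := fun h => hfo i (h ▸ hxy.ma)
      exact (De_opp hxD hf (hN.opp x hxy.ha f hf hne h1)).1
    · have hne : y ≠ f := fun h => hfo i (h ▸ hxy.mb)
      exact (De_opp hyD hf (hN.opp y hxy.hb f hf hne h1)).1
  -- a double exchange
  have hexch : ∀ j, j ∉ Vb W σ A o → ∀ s : Finset ℕ, Good W σ A j s →
      (∀ v ∈ s, v ∈ o j ∨ v = e) → ∀ c ∈ o j, c ∉ s → c ∉ De W σ e → False := by
    intro j hjV s hgj hs c hc hcs hcD
    have hij : i ≠ j := fun h => hjV (h ▸ hi)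
    have hcW : c ∈ W := opt_sub (hm.rel.opt j) hc
    obtain ⟨p, hp, hgi⟩ := serve hN.sym hxy hcW (out_adj hN hxD hcW hcD)
      (out_adj hN hyD hcW hcD)
    have hr1 : Rel W σ (Function.update o j s) := by
      refine rel_update hm.rel hgj ?_
      intro v hv
      rcases hs v hv with h | rfl
      · exact Or.inl h
      · exact Or.inr heo
    have hr2 : Rel W σ (Function.update (Function.update o j s) i p) := by
      refine rel_update hr1 hgi ?_
      intro v hv
      have := hp hv
      simp only [mem_insert, mem_singleton] at this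
      rw [Function.update_of_ne hij]
      rcases this with rfl | rfl | rfl
      · exact Or.inl hxy.ma
      · exact Or.inl hxy.mb
      · right
        intro l hl
        by_cases hlj : l = j
        · subst hlj
          rw [Function.update_self] at hl
          exact hcs hl
        · rw [Function.update_of_ne hlj] at hl
          exact disjoint_left.1 (hm.rel.dis l j hlj) hl hc
    have hfr : Fr W (Function.update (Function.update o j s) i p) := by
      have key : ∀ v, v ∈ W → v ∉ p → v ∉ s → (v ∈ o i ∨ v ∈ o j) →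
          Fr W (Function.update (Function.update o j s) i p) := by
        intro v hvW hvp hvs hv
        refine ⟨v, hvW, fun l hl => ?_⟩
        by_cases h1 : l = i
        · rw [h1, Function.update_self] at hl
          exact hvp hl
        · rw [Function.update_of_ne h1] at hl
          by_cases h2 : l = j
          · rw [h2, Function.update_self] at hl
            exact hvs hl
          · rw [Function.update_of_ne h2] at hl
            rcases hv with hv | hv
            · exact disjoint_left.1 (hm.rel.dis i l (fun h => h1 h.symm)) hv hl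
            · exact disjoint_left.1 (hm.rel.dis j l (fun h => h2 h.symm)) hv hl
      have hout : ∀ v ∈ o i, v ∉ s := by
        intro v hv hvs
        rcases hs v hvs with h | h
        · exact disjoint_left.1 (hm.rel.dis i j hij) hv h
        · exact heo i (h ▸ hv)
      have hxc : x ≠ c := fun h => disjoint_left.1 (hm.rel.dis i j hij) hxy.ma (h ▸ hc)
      have hyc : y ≠ c := fun h => disjoint_left.1 (hm.rel.dis i j hij) hxy.mb (h ▸ hc)
      rcases left_over hgi hxy.ne hxc hyc with (h | h) | h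
      · exact key x hxy.ha h (hout x hxy.ma) (Or.inl hxy.ma)
      · exact key y hxy.hb h (hout y hxy.mb) (Or.inl hxy.mb)
      · exact key c hcW h hcs (Or.inr hc)
    refine hm.no_imp hi hr2 hfr (by rw [Function.update_self]; exact hgi) ?_
    intro k hk
    have hki : k ≠ i := fun h => hk (h ▸ hi)
    rw [Function.update_of_ne hki]
    by_cases hkj : k = j
    · rw [hkj, Function.update_self]; exact hgj
    · rw [Function.update_of_ne hkj]
      by_contra hn'
      exact hk (mem_Vb.2 hn')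
  suffices hty : ∀ j, Ty W σ e o j by
    obtain ⟨o', h1, h2, h3⟩ := recombine2 hN (hbade i hi) hm.rel.dis hty hfree (hT e heW)
    refine ⟨o', h1, h2, ?_⟩
    by_contra hno
    unfold Fr at hno
    push Not at hno
    have h4 : W ⊆ univ.biUnion o' := by
      intro w hw
      obtain ⟨j, hj⟩ := hno w hw
      exact mem_biUnion.2 ⟨j, mem_univ _, hj⟩
    have h5 : (univ.biUnion o).card = ∑ i, (o i).card :=
      card_biUnion fun i _ j _ hij => hm.rel.dis i j hij
    have h6 : univ.biUnion o ⊆ W.erase e := by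
      intro v hv
      obtain ⟨j, _, hj⟩ := mem_biUnion.1 hv
      exact mem_erase.2 ⟨fun h => heo j (h ▸ hj), opt_sub (hm.rel.opt j) hj⟩
    have h7 := card_le_card h4
    have h8 : (univ.biUnion o').card ≤ ∑ i, (o' i).card := card_biUnion_le
    have h9 : ∑ i, (o' i).card ≤ ∑ i, (o i).card := sum_le_sum fun i _ => h3 i
    have h10 := card_le_card h6
    rw [card_erase_of_mem heW] at h10
    have h11 := card_pos.2 ⟨e, heW⟩
    omega
  intro j
  by_cases hjV : j ∈ Vb W σ A o
  · exact Or.inr (Or.inl (hbad j hjV))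
  by_cases he0 : σ j e = 0
  · -- a vertex in the classes
    have hge : Good W σ A j {e} := Or.inl ⟨e, heW, he0, rfl⟩
    have hD : ∀ c ∈ o j, c ∈ De W σ e := by
      intro c hc
      by_contra hcD
      refine hexch j hjV {e} hge (fun v hv => Or.inr (mem_singleton.1 hv)) c hc ?_ hcD
      rw [mem_singleton]
      exact fun h => heo j (h ▸ hc)
    rcases hm.rel.opt j with ⟨c, hc, h1, h2⟩ | ⟨a, ha, b, hb, h1, h2, h3⟩
    · rcases mem_De.1 (hD c (by rw [h2]; simp)) with h4 | h4
      · exact Or.inr (Or.inr (Or.inl (Or.inr ⟨he0, c, h4, h2⟩)))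
      · exact Or.inr (Or.inr (Or.inr (Or.inr ⟨he0, c, h4, h2⟩)))
    · have h4 := De_zero (hD a (by rw [h3]; simp)) he0
      rw [h1] at h4
      exact absurd h4 (by decide)
  rcases hm.rel.opt j with ⟨c, hc, h1, h2⟩ | ⟨a, ha, b, hb, h1, h2, h3⟩
  · exact Or.inl ⟨he0, c, hc, fun h => De_ne h he0 h1, h1, h2⟩
  have hj : SP W σ j (o j) a b := ⟨ha, hb, h1, h2, h3⟩
  have ha0 : σ j a ≠ 0 := by rw [h1]; decide
  have hb0 : σ j b ≠ 0 := by rw [h2]; decide
  have hab : σ j a ≠ σ j b := by rw [h1, h2]; decide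
  by_cases haD : a ∈ De W σ e
  · by_cases hbD : b ∈ De W σ e
    · refine Or.inr (Or.inl ⟨he0, ?_⟩)
      rcases mem_De.1 haD with haP | haQ
      · rcases mem_De.1 hbD with hbP | hbQ
        · exact absurd (((mem_Pe.1 haP).2 j).trans ((mem_Pe.1 hbP).2 j).symm) hab
        · exact ⟨a, haP, b, hbQ, h3⟩
      · rcases mem_De.1 hbD with hbP | hbQ
        · exact ⟨b, hbP, a, haQ, by rw [h3, pair_comm]⟩
        · exact absurd (((mem_Qe.1 haQ).2 j).trans ((mem_Qe.1 hbQ).2 j).symm) hab
    · rcases mem_De.1 haD with haP | haQ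
      · exact Or.inr (Or.inr (Or.inl (Or.inl ⟨he0, a, haP, b, hb, hbD, hb0, hab, h3⟩)))
      · exact Or.inr (Or.inr (Or.inr (Or.inl ⟨he0, a, haQ, b, hb, hbD, hb0, hab, h3⟩)))
  · by_cases hbD : b ∈ De W σ e
    · rcases mem_De.1 hbD with hbP | hbQ
      · exact Or.inr (Or.inr (Or.inl (Or.inl ⟨he0, b, hbP, a, ha, haD, ha0,
          fun h => hab h.symm, by rw [h3, pair_comm]⟩)))
      · exact Or.inr (Or.inr (Or.inr (Or.inl ⟨he0, b, hbQ, a, ha, haD, ha0,
          fun h => hab h.symm, by rw [h3, pair_comm]⟩)))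
    · exfalso
      by_cases h4 : σ j e = 1
      · refine hexch j hjV {e, b} (good_pair hN.sym heW hb he0 hb0 (by rw [h4, h2]; decide)
          (out_adj hN (Pe_sub heP) hb hbD)) ?_ a hj.ma ?_ haD
        · intro v hv
          simp only [mem_insert, mem_singleton] at hv
          rcases hv with rfl | rfl
          · exact Or.inr rfl
          · exact Or.inl hj.mb
        · simp only [mem_insert, mem_singleton, not_or]
          exact ⟨fun h => heo j (h ▸ hj.ma), hj.ne⟩
      · refine hexch j hjV {e, a} (good_pair hN.sym heW ha he0 ha0 (by rw [h1]; exact h4)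
          (out_adj hN (Pe_sub heP) ha haD)) ?_ b hj.mb ?_ hbD
        · intro v hv
          simp only [mem_insert, mem_singleton] at hv
          rcases hv with rfl | rfl
          · exact Or.inr rfl
          · exact Or.inl hj.ma
        · simp only [mem_insert, mem_singleton, not_or]
          exact ⟨fun h => heo j (h ▸ hj.mb), hj.ne.symm⟩

end Pool.Agent.Helper878_bk
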