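import Pool.Agent.Helper878_bk.Top

/-!
# The outer search
-/

set_option autoImplicit false
set_option linter.unusedSectionVars false

namespace Pool.Agent.Helper878_bk

open Finset Pool.Agent.NPC Pool.Agent.H671R2.SF Pool.Agent.Helper878_dcs Pool.Agent.Helper878_mm
open Pool.Agent.Helper878_bs Pool.Agent.Helper878_bg Pool.Agent.Helper878_bh
open Pool.Agent.Helper878_bj
open scoped Classical

variable {E : List (ℕ × ℕ)} {V : Finset ℕ} {U W : List ℕ} {J K : List (List ℕ)}

theorem mns_empty {Z : List ℕ} : Z ∈ mns K ∅ ↔ Z ∈ K := by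
  rw [mem_mns]
  exact ⟨fun h => h.1, fun h => ⟨h, notMem_empty Z⟩⟩

theorem nearY_sound (t : ℕ) (h : LCtx E V W J) : ∀ (m : ℕ) (U : List ℕ) (K : List (List ℕ)),
    U.Nodup → nearY t m (E, ((U, K), (W, J))) = true →
    ∃ S ⊆ U.toFinset, ∃ T : Finset (List ℕ), (∀ Z ∈ T, Z ∈ K) ∧ S.card + T.card ≤ m ∧
      Ok E (U.toFinset \ S) (mns K T) ∧ ∃ e ∈ U.toFinset \ S, e ∈ W ∧
        Feas (GG E) (rm e W).toFinset (Zf J) := by
  have leaf : ∀ (m : ℕ) (U : List ℕ) (K : List (List ℕ)), U.Nodup →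
      (okU E U K && topY t (E, (U, (W, J)))) = true →
      ∃ S ⊆ U.toFinset, ∃ T : Finset (List ℕ), (∀ Z ∈ T, Z ∈ K) ∧ S.card + T.card ≤ m ∧
        Ok E (U.toFinset \ S) (mns K T) ∧ ∃ e ∈ U.toFinset \ S, e ∈ W ∧
          Feas (GG E) (rm e W).toFinset (Zf J) := by
    intro m U K hU hr
    rw [Bool.and_eq_true, okU_iff] at hr
    obtain ⟨e, he, heW, hF⟩ := topY_sound hU t W J h hr.2
    refine ⟨∅, empty_subset _, ∅, by simp, by simp, ?_, e, ?_, heW, hF⟩
    · exact Ok.mono (by rw [sdiff_empty]) (fun Z hZ => mns_empty.1 hZ) hr.1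
    · rw [sdiff_empty, List.mem_toFinset]; exact he
  intro m
  induction m with
  | zero =>
    intro U K hU hr
    exact leaf 0 U K hU hr
  | succ m ih =>
    intro U K hU hr
    unfold nearY at hr
    dsimp only at hr
    rw [Bool.or_eq_true, Bool.or_eq_true, List.any_eq_true, List.any_eq_true] at hr
    rcases hr with hr | ⟨a, ha, hr⟩ | ⟨Z, hZ, hr⟩
    · exact leaf (m + 1) U K hU hr
    · obtain ⟨S, hS, T, hT, hc, hk, e, he, heW, hF⟩ := ih _ _ (nodup_rm hU) hr
      have hset : U.toFinset \ insert a S = (rm a U).toFinset \ S := by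
        ext x
        rw [mem_sdiff, mem_sdiff, mem_insert, List.mem_toFinset, List.mem_toFinset, mem_rm]
        tauto
      refine ⟨insert a S, ?_, T, hT, ?_, by rw [hset]; exact hk, e, by rw [hset]; exact he,
        heW, hF⟩
      · refine insert_subset (List.mem_toFinset.2 ha) fun x hx => ?_
        exact List.mem_toFinset.2 (mem_rm.1 (List.mem_toFinset.1 (hS hx))).1
      · have := card_insert_le a S
        omega
    · obtain ⟨S, hS, T, hT, hc, hk, e, he, heW, hF⟩ := ih _ _ hU hr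
      refine ⟨S, hS, insert Z T, ?_, ?_, ?_, e, he, heW, hF⟩
      · intro Y hY
        rcases mem_insert.1 hY with rfl | hY
        · exact hZ
        · exact (mem_rmZ.1 (hT Y hY)).1
      · have := card_insert_le Z T
        omega
      · refine Ok.mono (Subset.refl _) ?_ hk
        intro Y hY
        rw [mem_mns, mem_insert, not_or] at hY
        exact mem_mns.2 ⟨mem_rmZ.2 ⟨hY.1, hY.2.1⟩, hY.2.2⟩

theorem nearY_complete (t : ℕ) (h : LCtx E V W J) {e : ℕ} (heW : e ∈ W)
    (hF : Feas (GG E) (rm e W).toFinset (Zf J)) :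
    ∀ (m : ℕ) (U : List ℕ) (K : List (List ℕ)) (S : Finset ℕ) (T : Finset (List ℕ)),
    U.Nodup → S ⊆ U.toFinset → (∀ Z ∈ T, Z ∈ K) → S.card + T.card ≤ m →
    Ok E (U.toFinset \ S) (mns K T) → e ∈ U.toFinset \ S →
    (W.toFinset \ (U.toFinset \ S)).card + (J.toFinset \ (mns K T).toFinset).card ≤ t →
    nearY t m (E, ((U, K), (W, J))) = true := by
  have leaf : ∀ (U : List ℕ) (K : List (List ℕ)), U.Nodup → Ok E (U.toFinset \ ∅) (mns K ∅) →
      e ∈ U.toFinset \ ∅ →
      (W.toFinset \ (U.toFinset \ ∅)).card + (J.toFinset \ (mns K ∅).toFinset).card ≤ t →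
      (okU E U K && topY t (E, (U, (W, J)))) = true := by
    intro U K hU hk he hc
    rw [sdiff_empty] at hk he hc
    have hk' : Ok E U.toFinset K := Ok.mono (Subset.refl _) (fun Z hZ => mns_empty.2 hZ) hk
    rw [Bool.and_eq_true, okU_iff]
    refine ⟨hk', topY_complete hU t (J.toFinset \ (mns K ∅).toFinset) W J h ?_ hc ?_ e
      (List.mem_toFinset.1 he) heW hF⟩
    · intro Z hZ
      exact List.mem_toFinset.1 (mem_sdiff.1 hZ).1
    · refine Ok.mono inter_subset_right (fun Z hZ => ?_) hk'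
      rw [mem_mns, mem_sdiff, not_and, not_not, List.mem_toFinset, List.mem_toFinset,
        mns_empty] at hZ
      exact hZ.2 hZ.1
  intro m
  induction m with
  | zero =>
    intro U K S T hU hS hT hc hk he hb
    have h1 : S = ∅ := card_eq_zero.1 (by omega)
    have h2 : T = ∅ := card_eq_zero.1 (by omega)
    subst h1 h2
    exact leaf U K hU hk he hb
  | succ m ih =>
    intro U K S T hU hS hT hc hk he hb
    unfold nearY
    dsimp only
    rw [Bool.or_eq_true, Bool.or_eq_true, List.any_eq_true, List.any_eq_true]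
    by_cases hne : S.Nonempty
    · obtain ⟨s, hs⟩ := hne
      have hset : (rm s U).toFinset \ S.erase s = U.toFinset \ S := by
        ext x
        rw [mem_sdiff, mem_sdiff, mem_erase, List.mem_toFinset, List.mem_toFinset, mem_rm]
        constructor
        · rintro ⟨⟨h1, h2⟩, h3⟩
          exact ⟨h1, fun h4 => h3 ⟨h2, h4⟩⟩
        · rintro ⟨h1, h2⟩
          exact ⟨⟨h1, fun h3 => h2 (h3 ▸ hs)⟩, fun h3 => h2 h3.2⟩
      refine Or.inr (Or.inl ⟨s, List.mem_toFinset.1 (hS hs), ih (rm s U) K (S.erase s) T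
        (nodup_rm hU) ?_ hT ?_ (by rw [hset]; exact hk) (by rw [hset]; exact he)
        (by rw [hset]; exact hb)⟩)
      · intro x hx
        rw [mem_erase] at hx
        exact List.mem_toFinset.2 (mem_rm.2 ⟨List.mem_toFinset.1 (hS hx.2), hx.1⟩)
      · have := card_erase_of_mem hs
        have := card_pos.2 ⟨s, hs⟩
        omega
    · rw [not_nonempty_iff_eq_empty] at hne
      subst hne
      by_cases hne : T.Nonempty
      · obtain ⟨Z, hZ⟩ := hne
        have hmem : ∀ Y, Y ∈ mns (rmZ Z K) (T.erase Z) ↔ Y ∈ mns K T := by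
          intro Y
          rw [mem_mns, mem_mns, mem_rmZ, mem_erase]
          constructor
          · rintro ⟨⟨h1, h2⟩, h3⟩
            exact ⟨h1, fun h4 => h3 ⟨h2, h4⟩⟩
          · rintro ⟨h1, h2⟩
            exact ⟨⟨h1, fun h3 => h2 (h3 ▸ hZ)⟩, fun h3 => h2 h3.2⟩
        have hset : (mns (rmZ Z K) (T.erase Z)).toFinset = (mns K T).toFinset := by
          ext Y
          rw [List.mem_toFinset, List.mem_toFinset, hmem]
        refine Or.inr (Or.inr ⟨Z, hT Z hZ, ih U (rmZ Z K) ∅ (T.erase Z) hU (empty_subset _) ?_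
          ?_ ?_ he (by rw [hset]; exact hb)⟩)
        · intro Y hY
          rw [mem_erase] at hY
          exact mem_rmZ.2 ⟨hT Y hY.2, hY.1⟩
        · have := card_erase_of_mem hZ
          have := card_pos.2 ⟨Z, hZ⟩
          omega
        · exact Ok.mono (Subset.refl _) (fun Y hY => (hmem Y).1 hY) hk
      · rw [not_nonempty_iff_eq_empty] at hne
        subst hne
        exact Or.inl (leaf U K hU hk he hb)

/-- the search at the start -/
theorem nearY_iff (t : ℕ) (h : LCtx E V W J) :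
    nearY t t (E, ((W, J), (W, J))) = true ↔ ∃ S ⊆ W.toFinset, ∃ T : Finset (List ℕ),
      (∀ Z ∈ T, Z ∈ J) ∧ S.card + T.card ≤ t ∧ Ok E (W.toFinset \ S) (mns J T) ∧
      ∃ e ∈ W.toFinset \ S, Feas (GG E) (rm e W).toFinset (Zf J) := by
  constructor
  · intro hr
    obtain ⟨S, hS, T, hT, hc, hk, e, he, _, hF⟩ := nearY_sound t h t W J h.hWn hr
    exact ⟨S, hS, T, hT, hc, hk, e, he, hF⟩
  · rintro ⟨S, hS, T, hT, hc, hk, e, he, hF⟩
    refine nearY_complete t h (List.mem_toFinset.1 (mem_sdiff.1 he).1) hF t W J S T h.hWn hS hT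
      hc hk he ?_
    have h1 : W.toFinset \ (W.toFinset \ S) ⊆ S := by
      intro x hx
      rw [mem_sdiff, mem_sdiff, not_and, not_not] at hx
      exact hx.2 hx.1
    have h2 : J.toFinset \ (mns J T).toFinset ⊆ T := by
      intro x hx
      rw [mem_sdiff, List.mem_toFinset, List.mem_toFinset, mem_mns, not_and, not_not] at hx
      exact hx.2 hx.1
    have h3 := card_le_card h1
    have h4 := card_le_card h2
    omega

end Pool.Agent.Helper878_bk
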