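import Pool.Agent.Helper878_bk.Ex
import Pool.Agent.Helper878_bk.Near

/-!
# The search for inputs without exceptional directions
-/

set_option autoImplicit false
set_option linter.unusedSectionVars false

namespace Pool.Agent.Helper878_bk

open Finset Pool.Agent.NPC Pool.Agent.H671R2.SF Pool.Agent.Helper878_dcs Pool.Agent.Helper878_mm
open Pool.Agent.Helper878_bs Pool.Agent.Helper878_bg Pool.Agent.Helper878_bh
open Pool.Agent.Helper878_bj
open scoped Classical

/-- no exceptional direction appears if at most `a` vertices are deleted -/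
def robV : ℕ → S3 → Bool
  | 0, x => !exB x.1 x.2.1 x.2.2
  | a + 1, x => robV a x && x.2.1.all fun u => robV a (x.1, (rm u x.2.1, x.2.2))

/-- no exceptional direction appears if also at most `b` sets are ignored -/
def robS (a : ℕ) : ℕ → S3 → Bool
  | 0, x => robV a x
  | b + 1, x => robS a b x && x.2.2.all fun Z => robS a b (x.1, (x.2.1, rmZ Z x.2.2))

theorem poly_robV : ∀ a, Poly (robV a)
  | 0 => by
    have e : robV 0 = fun x : S3 => !exB x.1 x.2.1 x.2.2 := by
      funext x; rfl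
    rw [e]
    fun_prop
  | a + 1 => by
    have ih := poly_robV a
    have e : robV (a + 1) = fun x : S3 => robV a x &&
        x.2.1.all fun u => robV a (x.1, (rm u x.2.1, x.2.2)) := by
      funext x; rfl
    rw [e]
    generalize robV a = f at ih
    fun_prop

theorem poly_robS (a : ℕ) : ∀ b, Poly (robS a b)
  | 0 => by
    have h := poly_robV a
    have e : robS a 0 = fun x : S3 => robV a x := by
      funext x; rfl
    rw [e]
    exact h
  | b + 1 => by
    have ih := poly_robS a b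
    have e : robS a (b + 1) = fun x : S3 => robS a b x &&
        x.2.2.all fun Z => robS a b (x.1, (x.2.1, rmZ Z x.2.2)) := by
      funext x; rfl
    rw [e]
    generalize robS a b = f at ih
    fun_prop

def leafZ (E : List (ℕ × ℕ)) (U W : List ℕ) (J : List (List ℕ)) : Bool :=
  okU E (iw U W) J && (coreU E (iw U W) J && !exB E (iw U W) J)

section
variable {γ : Type} [TEnc γ] {E : γ → List (ℕ × ℕ)} {U W : γ → List ℕ} {J : γ → List (List ℕ)}

@[fun_prop]
theorem poly_leafZ (hE : Poly E) (hU : Poly U) (hW : Poly W) (hJ : Poly J) :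
    Poly (fun x => leafZ (E x) (U x) (W x) (J x)) := by
  unfold leafZ; fun_prop

end

/-- guess what happens to at most `m` terminal sets -/
def topZ : ℕ → S4 → Bool
  | 0, x => leafZ x.1 x.2.1 x.2.2.1 x.2.2.2
  | m + 1, x => leafZ x.1 x.2.1 x.2.2.1 x.2.2.2 ||
      x.2.2.2.any fun Z => x.2.2.1.any fun a => x.2.2.1.any fun b => x.2.2.1.any fun c =>
        !discB x.1 (a :: b :: c :: Z) &&
          topZ m (x.1, (x.2.1, (rm c (rm b (rm a x.2.2.1)), rmZ Z x.2.2.2)))

theorem poly_topZ : ∀ m, Poly (topZ m)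
  | 0 => by
    have e : topZ 0 = fun x : S4 => leafZ x.1 x.2.1 x.2.2.1 x.2.2.2 := by
      funext x; rfl
    rw [e]
    fun_prop
  | m + 1 => by
    have ih := poly_topZ m
    have e : topZ (m + 1) = fun x : S4 =>
      leafZ x.1 x.2.1 x.2.2.1 x.2.2.2 ||
      x.2.2.2.any fun Z => x.2.2.1.any fun a => x.2.2.1.any fun b => x.2.2.1.any fun c =>
        !discB x.1 (a :: b :: c :: Z) &&
          topZ m (x.1, (x.2.1, (rm c (rm b (rm a x.2.2.1)), rmZ Z x.2.2.2))) := by
      funext x; rfl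
    rw [e]
    generalize topZ m = f at ih
    fun_prop

/-- the decision at a node of the outer search -/
def nodeZ (t : ℕ) (x : S6) : Bool :=
  okU x.1 x.2.1.1 x.2.1.2 && (topY t (x.1, (x.2.1.1, x.2.2)) ||
    (robS (3 * t) t (x.1, (x.2.1.1, x.2.1.2)) && topZ t (x.1, (x.2.1.1, x.2.2))))

theorem poly_nodeZ (t : ℕ) : Poly (nodeZ t) := by
  have h1 := poly_topY t
  have h2 := poly_robS (3 * t) t
  have h3 := poly_topZ t
  unfold nodeZ
  generalize topY t = f1 at h1
  generalize robS (3 * t) t = f2 at h2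
  generalize topZ t = f3 at h3
  fun_prop

/-- the outer search -/
def nearZ (t : ℕ) : ℕ → S6 → Bool
  | 0, x => nodeZ t x
  | m + 1, x => nodeZ t x ||
      ((x.2.1.1.any fun a => nearZ t m (x.1, ((rm a x.2.1.1, x.2.1.2), x.2.2))) ||
      (x.2.1.2.any fun Z => nearZ t m (x.1, ((x.2.1.1, rmZ Z x.2.1.2), x.2.2))))

theorem poly_nearZ (t : ℕ) : ∀ m, Poly (nearZ t m)
  | 0 => by
    have h := poly_nodeZ t
    have e : nearZ t 0 = fun x : S6 => nodeZ t x := by
      funext x; rfl
    rw [e]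
    exact h
  | m + 1 => by
    have h := poly_nodeZ t
    have ih := poly_nearZ t m
    have e : nearZ t (m + 1) = fun x : S6 => nodeZ t x ||
      ((x.2.1.1.any fun a => nearZ t m (x.1, ((rm a x.2.1.1, x.2.1.2), x.2.2))) ||
      (x.2.1.2.any fun Z => nearZ t m (x.1, ((x.2.1.1, rmZ Z x.2.1.2), x.2.2)))) := by
      funext x; rfl
    rw [e]
    generalize nearZ t m = f at ih
    generalize nodeZ t = g at h
    fun_prop

variable {E : List (ℕ × ℕ)} {V : Finset ℕ} {U W : List ℕ} {J K : List (List ℕ)}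

theorem rmZ_toFinset (Z : List ℕ) : (rmZ Z K).toFinset = K.toFinset.erase Z := by
  ext x
  rw [List.mem_toFinset, mem_rmZ, mem_erase, List.mem_toFinset, and_comm]

theorem robV_iff : ∀ (a : ℕ) (U : List ℕ) (K : List (List ℕ)), LCtx E V U K →
    (robV a (E, (U, K)) = true ↔ ∀ U₁ ⊆ U.toFinset, (U.toFinset \ U₁).card ≤ a →
      ∀ e, ¬ ExF E U₁ K.toFinset e) := by
  intro a
  induction a with
  | zero =>
    intro U K h
    unfold robV
    dsimp only
    rw [Bool.not_eq_true', ← Bool.not_eq_true, exB_iff (LCtx.toLC h), not_exists]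
    constructor
    · intro h1 U₁ hU₁ hc
      have : U₁ = U.toFinset := by
        refine Subset.antisymm hU₁ ?_
        rw [← sdiff_eq_empty_iff_subset]
        exact card_eq_zero.1 (by omega)
      rw [this]
      exact h1
    · intro h1
      exact h1 _ (Subset.refl _) (by simp)
  | succ a ih =>
    intro U K h
    have hrm : ∀ u, LCtx E V (rm u U) K := fun u => LCtx.mono h (fun _ hw => (mem_rm.1 hw).1)
      (nodup_rm h.hWn) (fun _ hZ => hZ) h.hJn
    unfold robV
    dsimp only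
    rw [Bool.and_eq_true, ih U K h, List.all_eq_true]
    constructor
    · rintro ⟨h1, h2⟩ U₁ hU₁ hc
      by_cases hne : (U.toFinset \ U₁).Nonempty
      · obtain ⟨u, hu⟩ := hne
        rw [mem_sdiff, List.mem_toFinset] at hu
        refine (ih _ _ (hrm u)).1 (h2 u hu.1) U₁ ?_ ?_
        · rw [rm_toFinset]
          exact fun x hx => mem_erase.2 ⟨fun e => hu.2 (e ▸ hx), hU₁ hx⟩
        · have h3 : (rm u U).toFinset \ U₁ ⊆ (U.toFinset \ U₁).erase u := by
            intro x hx
            rw [rm_toFinset, mem_sdiff, mem_erase] at hx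
            exact mem_erase.2 ⟨hx.1.1, mem_sdiff.2 ⟨hx.1.2, hx.2⟩⟩
          have h4 := card_le_card h3
          rw [card_erase_of_mem (mem_sdiff.2 ⟨List.mem_toFinset.2 hu.1, hu.2⟩)] at h4
          omega
      · rw [not_nonempty_iff_eq_empty] at hne
        exact h1 U₁ hU₁ (by rw [hne]; simp)
    · intro h1
      refine ⟨fun U₁ hU₁ hc => h1 U₁ hU₁ (by omega), fun u hu => (ih _ _ (hrm u)).2 ?_⟩
      intro U₁ hU₁ hc
      rw [rm_toFinset] at hU₁ hc
      refine h1 U₁ (hU₁.trans (erase_subset _ _)) ?_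
      have h3 : U.toFinset \ U₁ ⊆ insert u (U.toFinset.erase u \ U₁) := by
        intro x hx
        rw [mem_sdiff] at hx
        by_cases e : x = u
        · rw [e]; exact mem_insert_self _ _
        · exact mem_insert_of_mem (mem_sdiff.2 ⟨mem_erase.2 ⟨e, hx.1⟩, hx.2⟩)
      have h4 := (card_le_card h3).trans (card_insert_le _ _)
      omega

/-- no exceptional direction appears -/
def CalmF (E : List (ℕ × ℕ)) (t : ℕ) (U : Finset ℕ) (K : Finset (List ℕ)) : Prop :=
  ∀ U₁ ⊆ U, (U \ U₁).card ≤ 3 * t → ∀ K₁ ⊆ K, (K \ K₁).card ≤ t → ∀ e, ¬ ExF E U₁ K₁ e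

theorem robS_iff (a : ℕ) : ∀ (b : ℕ) (U : List ℕ) (K : List (List ℕ)), LCtx E V U K →
    (robS a b (E, (U, K)) = true ↔ ∀ U₁ ⊆ U.toFinset, (U.toFinset \ U₁).card ≤ a →
      ∀ K₁ ⊆ K.toFinset, (K.toFinset \ K₁).card ≤ b → ∀ e, ¬ ExF E U₁ K₁ e) := by
  intro b
  induction b with
  | zero =>
    intro U K h
    unfold robS
    rw [robV_iff a U K h]
    constructor
    · intro h1 U₁ hU₁ hc K₁ hK₁ hc'
      have : K₁ = K.toFinset := by
        refine Subset.antisymm hK₁ ?_
        rw [← sdiff_eq_empty_iff_subset]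
        exact card_eq_zero.1 (by omega)
      rw [this]
      exact h1 U₁ hU₁ hc
    · intro h1 U₁ hU₁ hc
      exact h1 U₁ hU₁ hc _ (Subset.refl _) (by simp)
  | succ b ih =>
    intro U K h
    have hrm : ∀ Z, LCtx E V U (rmZ Z K) := fun Z => LCtx.mono h (fun _ hw => hw)
      h.hWn (fun _ hZ => (mem_rmZ.1 hZ).1) (nodup_rmZ h.hJn)
    unfold robS
    dsimp only
    rw [Bool.and_eq_true, ih U K h, List.all_eq_true]
    constructor
    · rintro ⟨h1, h2⟩ U₁ hU₁ hc K₁ hK₁ hc'
      by_cases hne : (K.toFinset \ K₁).Nonempty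
      · obtain ⟨Z, hZ⟩ := hne
        rw [mem_sdiff, List.mem_toFinset] at hZ
        refine (ih _ _ (hrm Z)).1 (h2 Z hZ.1) U₁ hU₁ hc K₁ ?_ ?_
        · rw [rmZ_toFinset]
          exact fun x hx => mem_erase.2 ⟨fun e => hZ.2 (e ▸ hx), hK₁ hx⟩
        · have h3 : (rmZ Z K).toFinset \ K₁ ⊆ (K.toFinset \ K₁).erase Z := by
            intro x hx
            rw [rmZ_toFinset, mem_sdiff, mem_erase] at hx
            exact mem_erase.2 ⟨hx.1.1, mem_sdiff.2 ⟨hx.1.2, hx.2⟩⟩
          have h4 := card_le_card h3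
          rw [card_erase_of_mem (mem_sdiff.2 ⟨List.mem_toFinset.2 hZ.1, hZ.2⟩)] at h4
          omega
      · rw [not_nonempty_iff_eq_empty] at hne
        exact h1 U₁ hU₁ hc K₁ hK₁ (by rw [hne]; simp)
    · intro h1
      refine ⟨fun U₁ hU₁ hc K₁ hK₁ hc' => h1 U₁ hU₁ hc K₁ hK₁ (by omega), fun Z hZ =>
        (ih _ _ (hrm Z)).2 ?_⟩
      intro U₁ hU₁ hc K₁ hK₁ hc'
      rw [rmZ_toFinset] at hK₁ hc'
      refine h1 U₁ hU₁ hc K₁ (hK₁.trans (erase_subset _ _)) ?_
      have h3 : K.toFinset \ K₁ ⊆ insert Z (K.toFinset.erase Z \ K₁) := by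
        intro x hx
        rw [mem_sdiff] at hx
        by_cases e : x = Z
        · rw [e]; exact mem_insert_self _ _
        · exact mem_insert_of_mem (mem_sdiff.2 ⟨mem_erase.2 ⟨e, hx.1⟩, hx.2⟩)
      have h4 := (card_le_card h3).trans (card_insert_le _ _)
      omega

theorem topZ_sound (hU : U.Nodup) : ∀ (m : ℕ) (W : List ℕ) (J : List (List ℕ)), LCtx E V W J →
    topZ m (E, (U, (W, J))) = true → Feas (GG E) W.toFinset (Zf J) := by
  have leaf : ∀ (W : List ℕ) (J : List (List ℕ)), LCtx E V W J → leafZ E U W J = true →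
      Feas (GG E) W.toFinset (Zf J) := by
    intro W J h hl
    unfold leafZ at hl
    have hlc := lctx_iw hU h
    rw [Bool.and_eq_true, Bool.and_eq_true, okU_iff, Bool.not_eq_true', ← Bool.not_eq_true,
      exB_iff (LCtx.toLC hlc)] at hl
    have htd := Ok.td hlc hl.1
    have hF := (coreT_iff htd (hn_of htd hl.1.2) hl.2.2).1 hl.2.1
    refine feas_mono ?_ hF
    rw [iw_toFinset]
    exact inter_subset_left
  intro m
  induction m with
  | zero =>
    intro W J h hr
    exact leaf W J h hr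
  | succ m ih =>
    intro W J h hr
    unfold topZ at hr
    dsimp only at hr
    rw [Bool.or_eq_true] at hr
    simp only [List.any_eq_true] at hr
    rcases hr with hr | ⟨Z, hZ, a, ha, b, hb, c, hc, hr⟩
    · exact leaf W J h hr
    · rw [Bool.and_eq_true, con3 h hZ ha hb hc] at hr
      refine feas_step (s := {a, b, c}) ?_ hr.1 (W' := rm c (rm b (rm a W))) ?_
        (ih _ _ (LCtx.mono h (fun w hw => (mem_rm.1 (mem_rm.1 (mem_rm.1 hw).1).1).1)
          (nodup_rm (nodup_rm (nodup_rm h.hWn))) (fun Z hZ => (mem_rmZ.1 hZ).1)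
          (nodup_rmZ h.hJn)) hr.2)
      · intro x hx
        simp only [mem_insert, mem_singleton] at hx
        rcases hx with rfl | rfl | rfl <;> exact List.mem_toFinset.2 (by assumption)
      · intro w hw
        rw [mem_rm, mem_rm, mem_rm] at hw
        refine ⟨hw.1.1.1, fun hx => ?_⟩
        simp only [mem_insert, mem_singleton] at hx
        rcases hx with hx | hx | hx
        · exact hw.1.1.2 hx
        · exact hw.1.2 hx
        · exact hw.2 hx

theorem topZ_complete (hU : U.Nodup) : ∀ (m : ℕ) (T : Finset (List ℕ)) (W : List ℕ)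
    (J : List (List ℕ)), LCtx E V W J → (∀ Z ∈ T, Z ∈ J) →
    (W.toFinset \ U.toFinset).card + T.card ≤ m → Ok E (W.toFinset ∩ U.toFinset) (mns J T) →
    (∀ U₁ ⊆ W.toFinset ∩ U.toFinset, ((W.toFinset ∩ U.toFinset) \ U₁).card ≤ 3 * m →
      ∀ K₁ ⊆ J.toFinset \ T, (J.toFinset \ K₁).card ≤ m → ∀ e, ¬ ExF E U₁ K₁ e) →
    Feas (GG E) W.toFinset (Zf J) → topZ m (E, (U, (W, J))) = true := by
  have leaf : ∀ (W : List ℕ) (J : List (List ℕ)) (T : Finset (List ℕ)), LCtx E V W J →
      (∀ Z ∈ T, Z ∈ J) → Ok E (W.toFinset ∩ U.toFinset) (mns J T) →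
      (∀ e, T = ∅ → ¬ ExF E (W.toFinset ∩ U.toFinset) J.toFinset e) →
      ∀ g : {Z // Z ∈ J} → Finset ℕ, (∀ i, g i ⊆ W.toFinset ∧
        Con (GG E) (i.1.toFinset ∪ g i)) → (∀ i j, i ≠ j → Disjoint (g i) (g j)) →
      (¬ ∃ i : {Z // Z ∈ J}, i.1 ∈ T ∨ ∃ s ∈ W.toFinset \ U.toFinset, s ∈ g i) →
      leafZ E U W J = true := by
    intro W J T h hT hk hx g hg hd hno
    push Not at hno
    have hT0 : T = ∅ := by
      rw [eq_empty_iff_forall_notMem]
      intro Z hZ
      exact (hno ⟨Z, hT Z hZ⟩).1 hZ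
    have hk' : Ok E (iw U W).toFinset J := by
      rw [iw_toFinset]
      exact Ok.mono (Subset.refl _) (fun Z hZ => mem_mns.2 ⟨hZ, (hno ⟨Z, hZ⟩).1⟩) hk
    have hlc := lctx_iw hU h
    have htd := Ok.td hlc hk'
    have hne : ¬ ∃ e, ExF E (iw U W).toFinset J.toFinset e := by
      rintro ⟨e, he⟩
      rw [iw_toFinset] at he
      exact hx e hT0 he
    unfold leafZ
    rw [Bool.and_eq_true, Bool.and_eq_true, okU_iff, Bool.not_eq_true', ← Bool.not_eq_true,
      exB_iff (LCtx.toLC hlc), coreT_iff htd (hn_of htd hk'.2) hne]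
    refine ⟨hk', ⟨g, fun i => ⟨fun x hx => ?_, (hg i).2⟩, hd⟩, hne⟩
    rw [iw_toFinset, mem_inter]
    refine ⟨(hg i).1 hx, ?_⟩
    by_contra hxU
    exact (hno i).2 x (mem_sdiff.2 ⟨(hg i).1 hx, hxU⟩) hx
  intro m
  induction m with
  | zero =>
    intro T W J h hT hc hk hx hF
    obtain ⟨g, hg, hd⟩ := hF
    have h1 : W.toFinset \ U.toFinset = ∅ := card_eq_zero.1 (by omega)
    have h2 : T = ∅ := card_eq_zero.1 (by omega)
    refine leaf W J T h hT hk (fun e hT0 => ?_) g hg hd ?_
    · refine hx _ (Subset.refl _) (by simp) J.toFinset ?_ (by simp) e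
      rw [hT0, sdiff_empty]
    · rintro ⟨i, hi | ⟨s, hs, _⟩⟩
      · rw [h2] at hi
        exact absurd hi (notMem_empty _)
      · rw [h1] at hs
        exact absurd hs (notMem_empty _)
  | succ m ih =>
    intro T W J h hT hc hk hx hF
    unfold topZ
    dsimp only
    rw [Bool.or_eq_true]
    simp only [List.any_eq_true]
    obtain ⟨g, hg, hd⟩ := shrink h hF
    by_cases hex : ∃ i : {Z // Z ∈ J}, i.1 ∈ T ∨ ∃ s ∈ W.toFinset \ U.toFinset, s ∈ g i
    swap
    · refine Or.inl (leaf W J T h hT hk (fun e hT0 => ?_) g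
        (fun i => ⟨(hg i).1, (hg i).2.1⟩) hd hex)
      refine hx _ (Subset.refl _) (by simp) J.toFinset ?_ (by simp) e
      rw [hT0, sdiff_empty]
    obtain ⟨i, hi⟩ := hex
    have hg3 : (g i).card ≤ 3 := by
      obtain ⟨_, _, a, b, c, _, _, _, hgi⟩ := hg i
      rw [hgi]
      exact card_le_three
    have hce : ((W.toFinset \ U.toFinset) \ g i).card + (T.erase i.1).card ≤ m := by
      have c1 : ((W.toFinset \ U.toFinset) \ g i).card ≤ (W.toFinset \ U.toFinset).card :=
        card_le_card sdiff_subset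
      have c2 : (T.erase i.1).card ≤ T.card := card_le_card (erase_subset _ _)
      rcases hi with hi | ⟨s, hsS, hsi⟩
      · have := card_erase_of_mem hi
        have := card_pos.2 ⟨i.1, hi⟩
        omega
      · have : ((W.toFinset \ U.toFinset) \ g i).card < (W.toFinset \ U.toFinset).card := by
          refine card_lt_card ⟨sdiff_subset, fun hsub => ?_⟩
          exact (mem_sdiff.1 (hsub hsS)).2 hsi
        omega
    have go : ∀ W' : List ℕ, W'.Nodup → (∀ w, w ∈ W' ↔ w ∈ W ∧ w ∉ g i) →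
        topZ m (E, (U, (W', rmZ i.1 J))) = true := by
      intro W' hn hW'
      have hset : W'.toFinset \ U.toFinset = (W.toFinset \ U.toFinset) \ g i := by
        ext x
        rw [mem_sdiff, mem_sdiff, mem_sdiff, List.mem_toFinset, List.mem_toFinset,
          List.mem_toFinset, hW']
        tauto
      have hsub : W'.toFinset ∩ U.toFinset ⊆ W.toFinset ∩ U.toFinset := by
        intro x hx
        rw [mem_inter, List.mem_toFinset, hW'] at hx
        exact mem_inter.2 ⟨List.mem_toFinset.2 hx.1.1, hx.2⟩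
      refine ih (T.erase i.1) W' (rmZ i.1 J) ?_ ?_ (by rw [hset]; exact hce) ?_ ?_ ?_
      · exact LCtx.mono h (fun w hw => ((hW' w).1 hw).1) hn (fun Z hZ => (mem_rmZ.1 hZ).1)
          (nodup_rmZ h.hJn)
      · intro Z hZ
        rw [mem_erase] at hZ
        exact mem_rmZ.2 ⟨hT Z hZ.2, hZ.1⟩
      · refine Ok.mono hsub ?_ hk
        intro Z hZ
        rw [mem_mns, mem_rmZ, mem_erase] at hZ
        exact mem_mns.2 ⟨hZ.1.1, fun hZT => hZ.2 ⟨hZ.1.2, hZT⟩⟩
      · intro U₁ hU₁ hc1 K₁ hK₁ hc2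
        refine hx U₁ (hU₁.trans hsub) ?_ K₁ ?_ ?_
        · have h3 : (W.toFinset ∩ U.toFinset) \ U₁ ⊆
              ((W'.toFinset ∩ U.toFinset) \ U₁) ∪ g i := by
            intro x hx'
            rw [mem_sdiff, mem_inter, List.mem_toFinset] at hx'
            by_cases e : x ∈ g i
            · exact mem_union_right _ e
            · exact mem_union_left _ (mem_sdiff.2 ⟨mem_inter.2 ⟨List.mem_toFinset.2
                ((hW' x).2 ⟨hx'.1.1, e⟩), hx'.1.2⟩, hx'.2⟩)
          have h4 := (card_le_card h3).trans (card_union_le _ _)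
          omega
        · intro Z hZ
          have h5 := hK₁ hZ
          rw [rmZ_toFinset, mem_sdiff, mem_erase, mem_erase] at h5
          exact mem_sdiff.2 ⟨h5.1.2, fun hZT => h5.2 ⟨h5.1.1, hZT⟩⟩
        · rw [rmZ_toFinset] at hc2
          have h3 : J.toFinset \ K₁ ⊆ insert i.1 (J.toFinset.erase i.1 \ K₁) := by
            intro x hx'
            rw [mem_sdiff] at hx'
            by_cases e : x = i.1
            · rw [e]; exact mem_insert_self _ _
            · exact mem_insert_of_mem (mem_sdiff.2 ⟨mem_erase.2 ⟨e, hx'.1⟩, hx'.2⟩)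
          have h4 := (card_le_card h3).trans (card_insert_le _ _)
          omega
      · have hm : ∀ j : {Z // Z ∈ rmZ i.1 J}, j.1 ∈ J := fun j => (mem_rmZ.1 j.2).1
        refine ⟨fun j => g ⟨j.1, hm j⟩, fun j => ⟨fun x hx => ?_, (hg ⟨j.1, hm j⟩).2.1⟩,
          fun j k hjk => hd _ _ fun he => hjk (Subtype.ext (Subtype.mk.inj he))⟩
        refine List.mem_toFinset.2 ((hW' x).2 ⟨List.mem_toFinset.1 ((hg ⟨j.1, hm j⟩).1 hx),
          fun hxi => ?_⟩)
        refine disjoint_left.1 (hd ⟨j.1, hm j⟩ i fun he => ?_) hx hxi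
        exact (mem_rmZ.1 j.2).2 (congrArg Subtype.val he)
    obtain ⟨-, hcon, a, b, c, ha, hb, hcW, hgi⟩ := hg i
    refine Or.inr ⟨i.1, i.2, a, ha, b, hb, c, hcW, ?_⟩
    rw [Bool.and_eq_true, con3 h i.2 ha hb hcW]
    rw [hgi] at hcon
    refine ⟨hcon, go _ (nodup_rm (nodup_rm (nodup_rm h.hWn))) fun w => ?_⟩
    rw [mem_rm, mem_rm, mem_rm, hgi]
    simp only [mem_insert, mem_singleton]
    tauto

end Pool.Agent.Helper878_bk
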