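import Pool.Agent.Helper878_bk.Final
import Pool.Agent.Helper878_bj.Cor

/-!
# Sufficient conditions for settled inputs
-/

set_option autoImplicit false
set_option linter.unusedSectionVars false

namespace Pool.Agent.Helper878_bk

open Finset Pool.Agent.NPC Pool.Agent.H671R2.SF Pool.Agent.Helper878_dcs Pool.Agent.Helper878_mm
open Pool.Agent.Helper878_bs Pool.Agent.Helper878_bg Pool.Agent.Helper878_bh
open Pool.Agent.Helper878_bj
open scoped Classical

variable {I : Inst}

/-- If every vertex of `U` alone makes more than `t` hard terminal sets outside `T` connected, then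
no vertex is exceptional. -/
theorem calm_of_joins {t : ℕ} {U : Finset {v // v ∈ I.1}} {T : Finset (List ℕ)}
    (h : ∀ e ∈ U, ∃ F : Finset (List ℕ), t < F.card ∧
      ∀ Z ∈ F, Hard I Z ∧ Z ∉ T ∧ Joins I Z e) : Calm t I U T := by
  intro U₁ hU₁ _ G _ hGT e he
  obtain ⟨F, hF, hF'⟩ := h e (hU₁ he.1)
  have hsub : F ⊆ G \ T := by
    intro Z hZ
    obtain ⟨h1, h2, h3⟩ := hF' Z hZ
    refine mem_sdiff.2 ⟨?_, h2⟩
    by_contra h4
    exact he.2.1 Z h1 h4 h3
  have := card_le_card hsub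
  omega

/-- An input is settled if of two nonadjacent nonterminals both or none alone make a hard terminal
set connected and every nonterminal alone makes some hard terminal set connected, in a graph
without independent triples. -/
theorem settled_of_joins (hw : WellFormed I) (hF : Free threeP1 (graph I.1 I.2.1))
    (h : ∀ Z, Hard I Z → ∀ a b : {v // v ∈ I.1}, (∀ Y ∈ I.2.2, a.1 ∉ Y) →
      (∀ Y ∈ I.2.2, b.1 ∉ Y) → a ≠ b → ¬ (graph I.1 I.2.1).Adj a b →
      (Joins I Z a ↔ Joins I Z b))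
    (h' : ∀ a : {v // v ∈ I.1}, (∀ Y ∈ I.2.2, a.1 ∉ Y) → ∃ Z, Hard I Z ∧ Joins I Z a) :
    UniformSettled 0 I := by
  set U : Finset {v // v ∈ I.1} := univ.filter fun v => ∀ Z ∈ I.2.2, v.1 ∉ Z with hU
  have hUm : ∀ v, v ∈ U ↔ v ∉ (∅ : Finset {v // v ∈ I.1}) ∧ ∀ Z ∈ I.2.2, v.1 ∉ Z := by
    intro v
    rw [hU, mem_filter]
    simp
  obtain ⟨S, U', T, h1, h2, h3⟩ := uniform_of_joins (t := 0) hw hF ∅ U ∅ (by simp) hUm
    fun Z hZ _ a ha b hb hne hab => h Z hZ a b ((hUm a).1 ha).2 ((hUm b).1 hb).2 hne hab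
  refine ⟨S, U', T, h1, h2, h3, Or.inr ?_⟩
  have hT : T = ∅ := card_eq_zero.1 (by omega)
  refine calm_of_joins fun e he => ?_
  obtain ⟨Z, hZ, hj⟩ := h' e ((h2 e).1 he).2
  refine ⟨{Z}, by simp, fun Y hY => ?_⟩
  rw [mem_singleton] at hY
  rw [hY]
  exact ⟨hZ, by rw [hT]; exact notMem_empty _, hj⟩

end Pool.Agent.Helper878_bk
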