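import Pool.Agent.Helper878_bj.Defs

/-!
# Uniform inputs with an unused nonterminal: definitions
-/

set_option autoImplicit false

namespace Pool.Agent.Helper878_bk

open Pool.Agent.Helper878_dcs Pool.Agent.Helper878_bh Pool.Agent.Helper878_bj

/-- The input has a solution which does not use the vertex `e`: there are pairwise disjoint vertex
sets avoiding `e`, the `i`-th one containing the `i`-th terminal set and inducing a connected
subgraph. -/
def SolvedWithout (I : Inst) (e : {v // v ∈ I.1}) : Prop :=
  ∃ S : Fin I.2.2.length → Set {v // v ∈ I.1},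
    (∀ i, vset I.1 (I.2.2.get i) ⊆ S i ∧ ((graph I.1 I.2.1).induce (S i)).Connected ∧
      e ∉ S i) ∧
    ∀ i j, i ≠ j → Disjoint (S i) (S j)

/-- There are a set `S` of vertices and a set `T` of terminal sets, at most `t` elements in all,
such that, for the set `U` of the nonterminals outside `S`: the sets `S` and `T` show that the input
is uniform (every hard terminal set `Z` outside `T` is compact and is seen by all of `U`, and any
two nonadjacent vertices of `U` behave alike with respect to `Z`), and some solution leaves a vertex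
of `U` unused. -/
def UniformSpare (t : ℕ) (I : Inst) : Prop :=
  ∃ (S U : Finset {v // v ∈ I.1}) (T : Finset (List ℕ)), S.card + T.card ≤ t ∧
    (∀ v, v ∈ U ↔ v ∉ S ∧ ∀ Z ∈ I.2.2, v.1 ∉ Z) ∧
    (∀ Z, Hard I Z → Z ∉ T → (Compact I Z ∧ Seen I U Z) ∧
      ∀ a ∈ U, ∀ b ∈ U, a ≠ b → ¬ (graph I.1 I.2.1).Adj a b → Alike I Z a b) ∧
    ∃ e ∈ U, SolvedWithout I e

end Pool.Agent.Helper878_bk
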