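import Pool.Agent.Helper878_bk.Defs

/-!
# Settled uniform inputs: definitions
-/

set_option autoImplicit false

namespace Pool.Agent.Helper878_bk

open Pool.Agent.Helper878_dcs Pool.Agent.Helper878_bh Pool.Agent.Helper878_bj

/-- The number of hard terminal sets outside `G`. -/
noncomputable def numHardOut (I : Inst) (G : Finset (List ℕ)) : ℕ :=
  Nat.card {Z : List ℕ // Hard I Z ∧ Z ∉ G}

/-- The vertices `a` and `b` are on the same side of the terminal set `Z`: none of them alone makes
`Z` connected, and they do not see different components of `Z`. -/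
def SameSide (I : Inst) (Z : List ℕ) (a b : {v // v ∈ I.1}) : Prop :=
  ¬ Joins I Z a ∧ ¬ Joins I Z b ∧ ¬ Apart I Z a b

/-- The vertex `e` of `U` is exceptional for `U` and the hard terminal sets outside `G`, `h` in
number: `e` alone makes none of them connected and, for the set `P` of the vertices of `U` on the
same side as `e` of all of them and the set `Q` of the vertices of `U` which are apart from `e` for
all of them, `Q` is nonempty, no vertex of `P` is adjacent to a vertex of `Q`, exactly `h` vertices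
of `U` are neither in `P` nor in `Q`, and at most `h` vertices are in `P` or in `Q`.  Moreover, there
are two vertices `a`, `b` of `U` such that for one of these terminal sets `a` is on the same side as
`e` and `b` is apart from `e`, and for another one `b` is on the same side as `e` and `a` is apart
from `e`. -/
def Exceptional (I : Inst) (U : Finset {v // v ∈ I.1}) (G : Finset (List ℕ))
    (e : {v // v ∈ I.1}) : Prop :=
  e ∈ U ∧ (∀ Z, Hard I Z → Z ∉ G → ¬ Joins I Z e) ∧
  ∃ P Q : Finset {v // v ∈ I.1},
    (∀ v, v ∈ P ↔ v ∈ U ∧ ∀ Z, Hard I Z → Z ∉ G → SameSide I Z e v) ∧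
    (∀ v, v ∈ Q ↔ v ∈ U ∧ ∀ Z, Hard I Z → Z ∉ G → Apart I Z e v) ∧
    Q.Nonempty ∧ (∀ u ∈ P, ∀ v ∈ Q, ¬ (graph I.1 I.2.1).Adj u v) ∧
    U.card = numHardOut I G + (P ∪ Q).card ∧ (P ∪ Q).card ≤ numHardOut I G ∧
    ∃ Z Y : List ℕ, (Hard I Z ∧ Z ∉ G) ∧ (Hard I Y ∧ Y ∉ G) ∧ ∃ a ∈ U, ∃ b ∈ U,
      SameSide I Z e a ∧ Apart I Z e b ∧ Apart I Y e a ∧ SameSide I Y e b

/-- No vertex is exceptional, also after deleting at most `3t` vertices of `U` and ignoring at most
`t` terminal sets besides those of `T`. -/
def Calm (t : ℕ) (I : Inst) (U : Finset {v // v ∈ I.1}) (T : Finset (List ℕ)) : Prop :=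
  ∀ U₁ ⊆ U, (U \ U₁).card ≤ 3 * t → ∀ G : Finset (List ℕ), T ⊆ G → (G \ T).card ≤ t →
    ∀ e, ¬ Exceptional I U₁ G e

/-- There are a set `S` of vertices and a set `T` of terminal sets, at most `t` elements in all,
such that, for the set `U` of the nonterminals outside `S`: the sets `S` and `T` show that the input
is uniform (every hard terminal set `Z` outside `T` is compact and is seen by all of `U`, and any
two nonadjacent vertices of `U` behave alike with respect to `Z`), and either some solution leaves a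
vertex of `U` unused, or `U` and `T` are calm. -/
def UniformSettled (t : ℕ) (I : Inst) : Prop :=
  ∃ (S U : Finset {v // v ∈ I.1}) (T : Finset (List ℕ)), S.card + T.card ≤ t ∧
    (∀ v, v ∈ U ↔ v ∉ S ∧ ∀ Z ∈ I.2.2, v.1 ∉ Z) ∧
    (∀ Z, Hard I Z → Z ∉ T → (Compact I Z ∧ Seen I U Z) ∧
      ∀ a ∈ U, ∀ b ∈ U, a ≠ b → ¬ (graph I.1 I.2.1).Adj a b → Alike I Z a b) ∧
    ((∃ e ∈ U, SolvedWithout I e) ∨ Calm t I U T)

end Pool.Agent.Helper878_bk
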