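import Pool.Agent.Helper878_bk.Abs
import Pool.Agent.Helper878_bj.TopU

/-!
# The test on lists
-/

set_option autoImplicit false
set_option linter.unusedSectionVars false

namespace Pool.Agent.Helper878_bk

open Finset Pool.Agent.NPC Pool.Agent.H671R2.SF Pool.Agent.Helper878_dcs Pool.Agent.Helper878_mm
open Pool.Agent.Helper878_bs Pool.Agent.Helper878_bg Pool.Agent.Helper878_bh
open Pool.Agent.Helper878_bj
open scoped Classical

/-- there is a solution with a free vertex -/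
def coreV (E : List (ℕ × ℕ)) (W : List ℕ) (J : List (List ℕ)) : Bool :=
  (W.any fun e => coreB E (rm e W) J) && W.all fun e => tstU E W J e

section
variable {γ : Type} [TEnc γ] {E : γ → List (ℕ × ℕ)} {W : γ → List ℕ} {J : γ → List (List ℕ)}

@[fun_prop]
theorem poly_coreV (hE : Poly E) (hW : Poly W) (hJ : Poly J) :
    Poly (fun x => coreV (E x) (W x) (J x)) := by
  unfold coreV; fun_prop

end

variable {E : List (ℕ × ℕ)} {V : Finset ℕ} {W : List ℕ} {J : List (List ℕ)}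

theorem rm_toFinset (a : ℕ) : (rm a W).toFinset = W.toFinset.erase a := by
  ext x
  rw [List.mem_toFinset, mem_rm, mem_erase, List.mem_toFinset, and_comm]

theorem td_rm (h : TD E V W J) (e : ℕ) : TD E V (rm e W) J where
  lc := LCtx.mono h.lc (fun _ hw => (mem_rm.1 hw).1) (nodup_rm h.lc.hWn) (fun _ hZ => hZ) h.lc.hJn
  nth := h.nth
  dom := fun Z hZ w hw => h.dom Z hZ w (mem_rm.1 hw).1

theorem isOpt_mono {ι : Type} {W W' : Finset ℕ} (hW : W' ⊆ W) {σ : ι → ℕ → Fin 3} {i : ι}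
    {s : Finset ℕ} (h : IsOpt W' σ i s) : IsOpt W σ i s := by
  rcases h with ⟨c, hc, h1, h2⟩ | ⟨a, ha, b, hb, h1, h2, h3⟩
  · exact Or.inl ⟨c, hW hc, h1, h2⟩
  · exact Or.inr ⟨a, hW ha, b, hW hb, h1, h2, h3⟩

theorem good_mono {ι : Type} {W W' : Finset ℕ} (hW : W' ⊆ W) {σ : ι → ℕ → Fin 3}
    {A : ℕ → ℕ → Prop} {i : ι} {s : Finset ℕ} (h : Good W' σ A i s) : Good W σ A i s := by
  rcases h with ⟨c, hc, h1, h2⟩ | ⟨a, ha, b, hb, h1, h2, h3⟩
  · exact Or.inl ⟨c, hW hc, h1, h2⟩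
  · exact Or.inr ⟨a, hW ha, b, hW hb, h1, h2, h3⟩

theorem good_erase {ι : Type} {W : Finset ℕ} {σ : ι → ℕ → Fin 3}
    {A : ℕ → ℕ → Prop} {i : ι} {s : Finset ℕ} {e : ℕ} (h : Good W σ A i s) (he : e ∉ s) :
    Good (W.erase e) σ A i s := by
  rcases h with ⟨c, hc, h1, rfl⟩ | ⟨a, ha, b, hb, h1, h2, h3, rfl⟩
  · exact Or.inl ⟨c, mem_erase.2 ⟨fun h => he (by rw [h]; simp), hc⟩, h1, rfl⟩
  · exact Or.inr ⟨a, mem_erase.2 ⟨fun h => he (by rw [h]; simp), ha⟩, b,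
      mem_erase.2 ⟨fun h => he (by rw [h]; simp), hb⟩, h1, h2, h3, rfl⟩

theorem feas_mono {W W' : Finset ℕ} (hW : W' ⊆ W) (h : Feas (GG E) W' (Zf J)) :
    Feas (GG E) W (Zf J) := by
  obtain ⟨g, hg, hd⟩ := h
  exact ⟨g, fun i => ⟨(hg i).1.trans hW, (hg i).2⟩, hd⟩

/-- correctness of the test -/
theorem coreV_iff (h : TD E V W J) (hN : HN W.toFinset (sgJ E J) (GG E).Adj) :
    coreV E W J = true ↔ ∃ e ∈ W, Feas (GG E) (rm e W).toFinset (Zf J) := by
  have hlc := h.toLC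
  unfold coreV
  rw [Bool.and_eq_true, List.any_eq_true, List.all_eq_true]
  constructor
  · rintro ⟨⟨e, he, h1⟩, h3⟩
    rw [coreB_iff (td_rm h e).toLC] at h1
    obtain ⟨o, h1, h2⟩ := h1
    have hsub : (rm e W).toFinset ⊆ W.toFinset := fun x hx =>
      List.mem_toFinset.2 (mem_rm.1 (List.mem_toFinset.1 hx)).1
    obtain ⟨o', g1, g2, e', he', g3⟩ := main_free hN ⟨o, ⟨fun i => isOpt_mono hsub (h1 i), h2⟩,
      e, List.mem_toFinset.2 he, fun j hj =>
        (mem_rm.1 (List.mem_toFinset.1 (opt_sub (h1 j) hj))).2 rfl⟩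
      fun e he => (tstU_iff hlc e).1 (h3 e (List.mem_toFinset.1 he))
    refine ⟨e', List.mem_toFinset.1 he', ?_⟩
    rw [(td_rm h e').feas_good]
    refine ⟨o', fun i => ?_, g2⟩
    show Good (rm e' W).toFinset (sgJ E J) (GG E).Adj i (o' i)
    rw [rm_toFinset]
    exact good_erase (g1 i) (g3 i)
  · rintro ⟨e, he, hF⟩
    rw [(td_rm h e).feas_good] at hF
    obtain ⟨o, h1, h2⟩ := hF
    have hsub : (rm e W).toFinset ⊆ W.toFinset := fun x hx =>
      List.mem_toFinset.2 (mem_rm.1 (List.mem_toFinset.1 hx)).1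
    refine ⟨⟨e, he, (coreB_iff (td_rm h e).toLC).2 ⟨o, fun i => (h1 i).isOpt, h2⟩⟩,
      fun f _ => (tstU_iff hlc f).2
      (test_of_good (fun a b hab => hab.symm) (fun i => good_mono hsub (h1 i)) h2 f)⟩

end Pool.Agent.Helper878_bk
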