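import Pool.Agent.Helper878_bk.Tight3
import Pool.Agent.Helper878_bk.Leaf

/-!
# The test for exceptional directions on lists
-/

set_option autoImplicit false
set_option linter.unusedSectionVars false

namespace Pool.Agent.Helper878_bk

open Finset Pool.Agent.NPC Pool.Agent.H671R2.SF Pool.Agent.Helper878_dcs Pool.Agent.Helper878_mm
open Pool.Agent.Helper878_bs Pool.Agent.Helper878_bg Pool.Agent.Helper878_bh
open Pool.Agent.Helper878_bj
open scoped Classical

/-- the vertices with the same or the opposite labels -/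
def dirL (E : List (ℕ × ℕ)) (W : List ℕ) (J : List (List ℕ)) (e : ℕ) : List ℕ :=
  W.filter fun w => smB E J e w || opB E J e w

/-- there is an exceptional direction -/
def exB (E : List (ℕ × ℕ)) (W : List ℕ) (J : List (List ℕ)) : Bool :=
  W.any fun e => (J.all fun Z => !zB E Z e) &&
    (decide (W.length = J.length + (dirL E W J e).length) &&
    (decide ((dirL E W J e).length ≤ J.length) &&
    ((W.any fun w => opB E J e w) &&
    ((W.all fun u => W.all fun v => !smB E J e u || (!opB E J e v || !adj E u v)) &&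
    (J.any fun Z => J.any fun Y => W.any fun a => W.any fun b => smB E [Z] e a &&
      (opB E [Z] e b && (opB E [Y] e a && smB E [Y] e b)))))))

section
variable {γ : Type} [TEnc γ] {E : γ → List (ℕ × ℕ)} {W : γ → List ℕ} {J : γ → List (List ℕ)}
  {u : γ → ℕ}

@[fun_prop]
theorem poly_dirL (hE : Poly E) (hW : Poly W) (hJ : Poly J) (hu : Poly u) :
    Poly (fun x => dirL (E x) (W x) (J x) (u x)) := by
  unfold dirL; fun_prop

@[fun_prop]
theorem poly_exB (hE : Poly E) (hW : Poly W) (hJ : Poly J) :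
    Poly (fun x => exB (E x) (W x) (J x)) := by
  unfold exB; fun_prop

end

/-- the vertices with the same labels -/
noncomputable def PF (E : List (ℕ × ℕ)) (U : Finset ℕ) (J : Finset (List ℕ)) (e : ℕ) : Finset ℕ :=
  U.filter fun w => ∀ Z ∈ J, sg3 E Z w = sg3 E Z e

/-- the vertices with the opposite labels -/
noncomputable def QF (E : List (ℕ × ℕ)) (U : Finset ℕ) (J : Finset (List ℕ)) (e : ℕ) : Finset ℕ :=
  U.filter fun w => ∀ Z ∈ J, sg3 E Z w = fl (sg3 E Z e)

/-- an exceptional direction -/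
structure ExF (E : List (ℕ × ℕ)) (U : Finset ℕ) (J : Finset (List ℕ)) (e : ℕ) : Prop where
  me : e ∈ U
  nz : ∀ Z ∈ J, sg3 E Z e ≠ 0
  card : U.card = J.card + (PF E U J e ∪ QF E U J e).card
  le : (PF E U J e ∪ QF E U J e).card ≤ J.card
  opp : (QF E U J e).Nonempty
  anti : ∀ u ∈ PF E U J e, ∀ v ∈ QF E U J e, ¬ (GG E).Adj u v
  blk : ∃ Z ∈ J, ∃ Y ∈ J, ∃ a ∈ U, ∃ b ∈ U, sg3 E Z a = sg3 E Z e ∧
    sg3 E Z b = fl (sg3 E Z e) ∧ sg3 E Y a = fl (sg3 E Y e) ∧ sg3 E Y b = sg3 E Y e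

variable {E : List (ℕ × ℕ)} {V : Finset ℕ} {W : List ℕ} {J : List (List ℕ)}

theorem PF_eq (e : ℕ) : PF E W.toFinset J.toFinset e = Pe W.toFinset (sgJ E J) e := by
  ext w
  rw [mem_Pe]
  unfold PF
  rw [mem_filter]
  refine and_congr_right fun _ => ?_
  constructor
  · intro h i
    exact h i.1 (List.mem_toFinset.2 i.2)
  · intro h Z hZ
    exact h ⟨Z, List.mem_toFinset.1 hZ⟩

theorem QF_eq (e : ℕ) : QF E W.toFinset J.toFinset e = Qe W.toFinset (sgJ E J) e := by
  ext w
  rw [mem_Qe]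
  unfold QF
  rw [mem_filter]
  refine and_congr_right fun _ => ?_
  constructor
  · intro h i
    exact h i.1 (List.mem_toFinset.2 i.2)
  · intro h Z hZ
    exact h ⟨Z, List.mem_toFinset.1 hZ⟩

theorem sm1 {Z : List ℕ} {e w : ℕ} : smB E [Z] e w = true ↔ sg3 E Z w = sg3 E Z e := by
  rw [sm_iff]
  constructor
  · intro h
    exact h ⟨Z, List.mem_singleton.2 rfl⟩
  · rintro h ⟨Y, hY⟩
    obtain rfl := List.mem_singleton.1 hY
    exact h

theorem op1 {Z : List ℕ} {e w : ℕ} : opB E [Z] e w = true ↔ sg3 E Z w = fl (sg3 E Z e) := by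
  rw [op_iff]
  constructor
  · intro h
    exact h ⟨Z, List.mem_singleton.2 rfl⟩
  · rintro h ⟨Y, hY⟩
    obtain rfl := List.mem_singleton.1 hY
    exact h

theorem exc_iff (h : LC W J) (e : ℕ) : (e ∈ W.toFinset ∧ Exc W.toFinset (sgJ E J) (GG E).Adj e) ↔
    ExF E W.toFinset J.toFinset e := by
  have hJ : J.toFinset.card = Fintype.card {Z // Z ∈ J} := by
    rw [card_J h.hJn, List.toFinset_card_of_nodup h.hJn]
  have hD : PF E W.toFinset J.toFinset e ∪ QF E W.toFinset J.toFinset e =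
      De W.toFinset (sgJ E J) e := by
    rw [PF_eq, QF_eq]; rfl
  constructor
  · rintro ⟨he, h1, h2, h3, h4, h5, i, j, a, ha, b, hb, h6⟩
    refine ⟨he, fun Z hZ => h1 ⟨Z, List.mem_toFinset.1 hZ⟩, ?_, ?_, ?_, ?_,
      i.1, List.mem_toFinset.2 i.2, j.1, List.mem_toFinset.2 j.2, a, ha, b, hb, h6⟩
    · rw [hD, hJ]; exact h2
    · rw [hD, hJ]; exact h3
    · rw [QF_eq]; exact h4
    · rw [PF_eq, QF_eq]; exact h5
  · rintro ⟨he, h1, h2, h3, h4, h5, Z, hZ, Y, hY, a, ha, b, hb, h6⟩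
    refine ⟨he, fun i => h1 i.1 (List.mem_toFinset.2 i.2), ?_, ?_, ?_, ?_,
      ⟨Z, List.mem_toFinset.1 hZ⟩, ⟨Y, List.mem_toFinset.1 hY⟩, a, ha, b, hb, h6⟩
    · rw [← hD, ← hJ]; exact h2
    · rw [← hD, ← hJ]; exact h3
    · rw [← QF_eq]; exact h4
    · rw [← PF_eq, ← QF_eq]; exact h5

theorem exB_iff (h : LC W J) : exB E W J = true ↔ ∃ e, ExF E W.toFinset J.toFinset e := by
  have hlen : ∀ e, (dirL E W J e).length = (De W.toFinset (sgJ E J) e).card := by
    intro e
    have hn : (dirL E W J e).Nodup := h.hWn.filter _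
    rw [← List.toFinset_card_of_nodup hn]
    congr 1
    ext w
    rw [List.mem_toFinset, mem_De]
    unfold dirL
    rw [List.mem_filter, Bool.or_eq_true]
    constructor
    · rintro ⟨hw, h1⟩
      rw [smB_iff hw, opB_iff hw] at h1
      exact h1
    · intro h1
      have hw : w ∈ W := by
        rcases h1 with h1 | h1
        · exact List.mem_toFinset.1 (mem_Pe.1 h1).1
        · exact List.mem_toFinset.1 (mem_Qe.1 h1).1
      exact ⟨hw, by rw [smB_iff hw, opB_iff hw]; exact h1⟩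
  have hWc : W.toFinset.card = W.length := List.toFinset_card_of_nodup h.hWn
  unfold exB
  rw [List.any_eq_true]
  refine exists_congr fun e => ?_
  rw [← exc_iff h e, List.mem_toFinset]
  refine and_congr_right fun he => ?_
  rw [Bool.and_eq_true, Bool.and_eq_true, Bool.and_eq_true, Bool.and_eq_true,
    Bool.and_eq_true, decide_eq_true_eq,
    decide_eq_true_eq, hlen, List.all_eq_true, List.any_eq_true, List.all_eq_true]
  have hblk : (J.any fun Z => J.any fun Y => W.any fun a => W.any fun b => smB E [Z] e a &&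
      (opB E [Z] e b && (opB E [Y] e a && smB E [Y] e b))) = true ↔
      ∃ i j : {Z // Z ∈ J}, ∃ a ∈ W.toFinset, ∃ b ∈ W.toFinset, sgJ E J i a = sgJ E J i e ∧
        sgJ E J i b = fl (sgJ E J i e) ∧ sgJ E J j a = fl (sgJ E J j e) ∧
        sgJ E J j b = sgJ E J j e := by
    simp only [List.any_eq_true, Bool.and_eq_true, sm1, op1]
    constructor
    · rintro ⟨Z, hZ, Y, hY, a, ha, b, hb, h6⟩
      exact ⟨⟨Z, hZ⟩, ⟨Y, hY⟩, a, List.mem_toFinset.2 ha, b, List.mem_toFinset.2 hb, h6⟩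
    · rintro ⟨i, j, a, ha, b, hb, h6⟩
      exact ⟨i.1, i.2, j.1, j.2, a, List.mem_toFinset.1 ha, b, List.mem_toFinset.1 hb, h6⟩
  rw [hblk]
  constructor
  · rintro ⟨h1, h2, h3, ⟨w, hw, h4⟩, h5, h6⟩
    refine ⟨fun i => ?_, ?_, ?_, ⟨w, (opB_iff hw).1 h4⟩, fun u hu v hv huv => ?_, h6⟩
    · intro h0
      have h6 := h1 i.1 i.2
      rw [Bool.not_eq_true', ← Bool.not_eq_true] at h6
      exact h6 (sg3_zero.1 h0)
    · rw [hWc, card_J h.hJn]; exact h2
    · rw [card_J h.hJn]; exact h3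
    · have hu' := List.mem_toFinset.1 (mem_Pe.1 hu).1
      have hv' := List.mem_toFinset.1 (mem_Qe.1 hv).1
      have h6 := h5 u hu'
      rw [List.all_eq_true] at h6
      have h7 := h6 v hv'
      rw [← smB_iff hu'] at hu
      rw [← opB_iff hv'] at hv
      rw [hu, hv, adj_iff.2 huv] at h7
      exact absurd h7 (by decide)
  · rintro ⟨h1, h2, h3, ⟨w, h4⟩, h5, h6⟩
    have hw := List.mem_toFinset.1 (mem_Qe.1 h4).1
    refine ⟨fun Z hZ => ?_, ?_, ?_, ⟨w, hw, (opB_iff hw).2 h4⟩, fun u hu => ?_, h6⟩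
    · rw [Bool.not_eq_true', ← Bool.not_eq_true]
      exact fun h0 => h1 ⟨Z, hZ⟩ (sg3_zero.2 h0)
    · rw [hWc, card_J h.hJn] at h2; exact h2
    · rw [card_J h.hJn] at h3; exact h3
    · rw [List.all_eq_true]
      intro v hv
      rw [Bool.or_eq_true, Bool.or_eq_true, Bool.not_eq_true', Bool.not_eq_true',
        Bool.not_eq_true', ← Bool.not_eq_true, ← Bool.not_eq_true, ← Bool.not_eq_true,
        smB_iff hu, opB_iff hv, adj_iff]
      by_cases h6 : u ∈ Pe W.toFinset (sgJ E J) e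
      · by_cases h7 : v ∈ Qe W.toFinset (sgJ E J) e
        · exact Or.inr (Or.inr (h5 u h6 v h7))
        · exact Or.inr (Or.inl h7)
      · exact Or.inl h6

/-- correctness of the test without exceptional directions -/
theorem coreT_iff (h : TD E V W J) (hN : HN W.toFinset (sgJ E J) (GG E).Adj)
    (hx : ¬ ∃ e, ExF E W.toFinset J.toFinset e) :
    coreU E W J = true ↔ Feas (GG E) W.toFinset (Zf J) := by
  have hlc := h.toLC
  rw [h.feas_good]
  unfold coreU Sol
  rw [Bool.and_eq_true, coreB_iff hlc, List.all_eq_true]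
  constructor
  · rintro ⟨⟨o, h1, h2⟩, h3⟩
    exact main_tight hN ⟨o, h1, h2⟩ (fun e he => (tstU_iff hlc e).1
      (h3 e (List.mem_toFinset.1 he))) fun e he hE => hx ⟨e, (exc_iff hlc e).1 ⟨he, hE⟩⟩
  · rintro ⟨o, h1, h2⟩
    exact ⟨⟨o, fun i => (h1 i).isOpt, h2⟩, fun e _ => (tstU_iff hlc e).2
      (test_of_good (fun a b hab => hab.symm) h1 h2 e)⟩

end Pool.Agent.Helper878_bk
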