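import Pool.Agent.Helper878_bk.Trans

/-!
# The whole algorithm for settled uniform inputs
-/

set_option autoImplicit false
set_option linter.unusedSectionVars false

namespace Pool.Agent.Helper878_bk

open Finset Pool.Agent.NPC Pool.Agent.H671R2.SF Pool.Agent.Helper878_dcs Pool.Agent.Helper878_mm
open Pool.Agent.Helper878_bs Pool.Agent.Helper878_bg Pool.Agent.Helper878_bh
open Pool.Agent.Helper878_bj
open scoped Classical

variable {I : Inst}

theorem dcs_of_without {e : {v // v ∈ I.1}} (h : SolvedWithout I e) : DCS I := by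
  obtain ⟨S, hS, hd⟩ := h
  exact ⟨S, fun i => ⟨(hS i).1, (hS i).2.1⟩, hd⟩

theorem ok_sdiff {E : List (ℕ × ℕ)} {U : Finset ℕ} {J : List (List ℕ)} {T : Finset (List ℕ)} :
    Ok E U (J.toFinset \ T).toList ↔ Ok E U (mns J T) := by
  have h : ∀ Z, Z ∈ (J.toFinset \ T).toList ↔ Z ∈ mns J T := fun Z => by
    rw [mem_toList, mem_sdiff, List.mem_toFinset, mem_mns]
  exact ⟨Helper878_bj.Ok.mono (Subset.refl _) fun Z hZ => (h Z).2 hZ,
    Helper878_bj.Ok.mono (Subset.refl _) fun Z hZ => (h Z).1 hZ⟩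

/-- the search at the start -/
theorem nearZ_start {E : List (ℕ × ℕ)} {V : Finset ℕ} {W : List ℕ} {J : List (List ℕ)} (t : ℕ)
    (h : LCtx E V W J) : nearZ t t (E, ((W, J), (W, J))) = true ↔
      ∃ S ⊆ W.toFinset, ∃ T ⊆ J.toFinset, S.card + T.card ≤ t ∧
        Ok E (W.toFinset \ S) (mns J T) ∧
        ((∃ e ∈ W.toFinset \ S, Feas (GG E) (rm e W).toFinset (Zf J)) ∨
          (CalmF E t (W.toFinset \ S) (J.toFinset \ T) ∧ Feas (GG E) W.toFinset (Zf J))) := by
  rw [nearZ_iff h t W J h.hWn (fun _ hu => hu) h.hJn (fun _ hZ => hZ) (by simp)]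
  unfold SpecP
  simp only [ok_sdiff]

theorem settled_iff (hw : WellFormed I) (hK : KP (GG I.2.1) I.1.toFinset) (t : ℕ) :
    (UniformSettled t I ∧ DCS I) ↔ nearZ t t (I.2.1, ((freeV I.1 I.2.2, hards I),
      (freeV I.1 I.2.2, hards I))) = true := by
  rw [nearZ_start t (lctxH hw hK)]
  have hdcs : DCS I ↔ Feas (GG I.2.1) (freeV I.1 I.2.2).toFinset (Zf (hards I)) := by
    rw [dcs_iff hw hK, feas_hard (lctx hw hK)]
    rfl
  unfold UniformSettled
  constructor
  · rintro ⟨⟨S, U, T, hS, hU, h, hset⟩, hD⟩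
    set S' : Finset ℕ := (S.map ⟨Subtype.val, Subtype.val_injective⟩) ∩
      (freeV I.1 I.2.2).toFinset with hS'
    have hUm : ∀ v : {v // v ∈ I.1}, v ∈ U ↔ v.1 ∈ (freeV I.1 I.2.2).toFinset \ S' := by
      intro v
      rw [hU, mem_sdiff, hS', mem_inter, List.mem_toFinset, mem_freeV, mem_map]
      constructor
      · rintro ⟨h1, h2⟩
        refine ⟨⟨v.2, h2⟩, fun h3 => h1 ?_⟩
        obtain ⟨s, hs, he⟩ := h3.1
        rw [← Subtype.ext (show s.1 = v.1 from he)]
        exact hs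
      · rintro ⟨h1, h2⟩
        exact ⟨fun h3 => h2 ⟨⟨v, h3, rfl⟩, h1⟩, h1.2⟩
    have hUf : ∀ v ∈ (freeV I.1 I.2.2).toFinset \ S', v ∈ freeV I.1 I.2.2 := fun v hv =>
      List.mem_toFinset.1 (mem_sdiff.1 hv).1
    have hok := (okI_iff hw hK hUm hUf).1 h
    have hTe : (hards I).toFinset \ (T ∩ (hards I).toFinset) = (hards I).toFinset \ T := by
      ext Z
      rw [mem_sdiff, mem_sdiff, mem_inter]
      tauto
    refine ⟨S', inter_subset_right, T ∩ (hards I).toFinset, inter_subset_right, ?_, ?_, ?_⟩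
    · have h1 : S'.card ≤ (S.map ⟨Subtype.val, Subtype.val_injective⟩).card :=
        card_le_card inter_subset_left
      have h2 := card_le_card (inter_subset_left (s₁ := T)
        (s₂ := (hards I).toFinset))
      rw [card_map] at h1
      omega
    · refine Helper878_bj.Ok.mono (Subset.refl _) (J := mns (hards I) T) (fun Z hZ => ?_) hok
      rw [mem_mns, mem_inter] at hZ
      exact mem_mns.2 ⟨hZ.1, fun hZT => hZ.2 ⟨hZT, List.mem_toFinset.2 hZ.1⟩⟩
    · rcases hset with ⟨e, he, hsol⟩ | hcalm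
      · have he' := (hUm e).1 he
        exact Or.inl ⟨e.1, he', (solved_iff' hw hK e (hUf e.1 he')).1 hsol⟩
      · rw [hTe]
        exact Or.inr ⟨(calm_iff hw hK t hUm hUf hok).1 hcalm, hdcs.1 hD⟩
  · rintro ⟨S, hS, T, _, hc, hk, hset⟩
    have hSV : ∀ s ∈ S, s ∈ I.1 := fun s hs => (mem_freeV.1 (List.mem_toFinset.1 (hS hs))).1
    have hUf : ∀ s ∈ (freeV I.1 I.2.2).toFinset \ S, s ∈ freeV I.1 I.2.2 := fun s hs =>
      List.mem_toFinset.1 (mem_sdiff.1 hs).1
    have hUV : ∀ s ∈ (freeV I.1 I.2.2).toFinset \ S, s ∈ I.1 := fun s hs =>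
      (mem_freeV.1 (hUf s hs)).1
    obtain ⟨S', h1, h2⟩ := exists_lift hSV
    obtain ⟨U', h3, h4⟩ := exists_lift hUV
    have hsd : ((∃ e ∈ U', SolvedWithout I e) ∨ Calm t I U' T) ∧ DCS I := by
      rcases hset with ⟨e, he, hF⟩ | ⟨hcalm, hF⟩
      · have hsol := (solved_iff' hw hK ⟨e, hUV e he⟩ (hUf e he)).2 hF
        exact ⟨Or.inl ⟨⟨e, hUV e he⟩, (h4 _).2 he, hsol⟩, dcs_of_without hsol⟩
      · exact ⟨Or.inr ((calm_iff hw hK t h4 hUf hk).2 hcalm), hdcs.2 hF⟩
    refine ⟨⟨S', U', T, by omega, fun v => ?_, (okI_iff hw hK h4 hUf).2 hk, hsd.1⟩, hsd.2⟩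
    rw [h4, h2, mem_sdiff, List.mem_toFinset, mem_freeV]
    constructor
    · rintro ⟨h5, h6⟩
      exact ⟨h6, h5.2⟩
    · rintro ⟨h5, h6⟩
      exact ⟨⟨v.2, h6⟩, h5⟩

/-- the algorithm -/
def solveZ (t : ℕ) (I : Inst) : Bool :=
  wfB I && kpB I.1 I.2.1 && nearZ t t (I.2.1, ((freeV I.1 I.2.2, hards I),
    (freeV I.1 I.2.2, hards I)))

theorem poly_solveZ (t : ℕ) : Poly (solveZ t) := by
  have h1 := poly_nearZ t t
  unfold solveZ wfB kpB nodupB hards
  generalize nearZ t t = f at h1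
  fun_prop

theorem solveZ_iff (t : ℕ) (I : Inst) : (WellFormed I ∧ Free twoP1P2 (graph I.1 I.2.1) ∧
    UniformSettled t I ∧ DCS I) ↔ solveZ t I = true := by
  unfold solveZ
  rw [Bool.and_eq_true, Bool.and_eq_true, wfB_iff, kpB_iff, free_iff, and_assoc]
  refine and_congr_right fun hw => and_congr_right fun hK => ?_
  exact settled_iff hw hK t

theorem mainZ (t : ℕ) : InPP (fun I : Inst => WellFormed I ∧
    Free twoP1P2 (graph I.1 I.2.1) ∧ UniformSettled t I ∧ DCS I) :=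
  inPP_of (poly_solveZ t) fun I => solveZ_iff t I

/-- If there are many nonterminals, or if some solution leaves a vertex unused, a solvable uniform
input is settled. -/
theorem settled_of_count {t : ℕ} (hw : WellFormed I) (hF : Free twoP1P2 (graph I.1 I.2.1))
    (hU : Uniform t I) (hn : 2 * numHard I + 1 + t ≤ numFree I) (hD : DCS I) :
    UniformSettled t I := by
  obtain ⟨S, U, T, h1, h2, h3, h4⟩ := spare_of_count hw hF hU hn hD
  exact ⟨S, U, T, h1, h2, h3, Or.inl h4⟩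

end Pool.Agent.Helper878_bk
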