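import Pool.Agent.Helper878_bk.Near
import Pool.Agent.Helper878_bh.Hard
import Pool.Agent.Helper878_bj.Main
import Pool.Agent.Helper878_bk.Defs

/-!
# Easy terminal sets, solutions without a given vertex, and counting
-/

set_option autoImplicit false
set_option linter.unusedSectionVars false

namespace Pool.Agent.Helper878_bk

open Finset Pool.Agent.NPC Pool.Agent.H671R2.SF Pool.Agent.Helper878_dcs Pool.Agent.Helper878_mm
open Pool.Agent.Helper878_bs Pool.Agent.Helper878_bg Pool.Agent.Helper878_bh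
open Pool.Agent.Helper878_bj
open scoped Classical

section
variable {E : List (ℕ × ℕ)} {U : Finset ℕ} {W : List ℕ} {J : List (List ℕ)}

/-- The easy terminal sets can be connected at the end, without `v`. -/
theorem feas_hard_rm (h : LCtx E U W J) (v : ℕ) : Feas (GG E) (rm v W).toFinset (Zf J) ↔
    Feas (GG E) (rm v W).toFinset (Zf (hardL E W J)) := by
  have hre : LCtx E U (rm v W) (hardL E W J) := LCtx.mono (LCtx.hard h)
    (fun w hw => (mem_rm.1 hw).1) (nodup_rm h.hWn) (fun Z hZ => hZ) (LCtx.hard h).hJn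
  constructor
  · rintro ⟨o, ho, hd⟩
    have hm : ∀ j : {Z // Z ∈ hardL E W J}, j.1 ∈ J := fun j => (mem_hardL.1 j.2).1
    exact ⟨fun j => o ⟨j.1, hm j⟩, fun j => ho ⟨j.1, hm j⟩, fun i j hij => hd _ _ fun he =>
      hij (Subtype.ext (Subtype.mk.inj he))⟩
  · intro hF
    obtain ⟨g, hg, hd⟩ := shrink hre hF
    set g' : {Z // Z ∈ J} → Finset ℕ := fun i =>
      if hi : i.1 ∈ hardL E W J then g ⟨i.1, hi⟩ else ∅ with hg'
    have e1 : ∀ (i : {Z // Z ∈ J}) (hi : i.1 ∈ hardL E W J), g' i = g ⟨i.1, hi⟩ := fun i hi => by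
      rw [hg']; exact dif_pos hi
    set H : Finset {Z // Z ∈ J} := univ.filter fun i => i.1 ∈ hardL E W J with hH
    set L : Finset {Z // Z ∈ J} := univ.filter fun i => ¬ i.1 ∈ hardL E W J with hL
    set R0 : Finset ℕ := insert v (H.biUnion g') with hR0
    have hHL : H.card + L.card = J.length := by
      have := card_filter_add_card_filter_not (s := (univ : Finset {Z // Z ∈ J}))
        (fun i => i.1 ∈ hardL E W J)
      rw [← hH, ← hL, card_univ, card_J h.hJn] at this
      exact this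
    have hR0c : R0.card ≤ H.card * 3 + 1 := by
      refine (card_insert_le _ _).trans (Nat.add_le_add_right ?_ 1)
      refine card_biUnion_le_card_mul _ _ _ fun i hi => ?_
      have hi' := (mem_filter.1 hi).2
      rw [e1 i hi']
      obtain ⟨_, _, a, b, c, _, _, _, hs⟩ := hg ⟨i.1, hi'⟩
      rw [hs]
      exact card_le_three
    obtain ⟨e, he1, he2⟩ := seq_choice L 1
      (fun i s => s ⊆ W.toFinset ∧ Con (GG E) (i.1.toFinset ∪ s)) R0 (by
        intro i hi R _ hRc
        have h5 : 1 ≤ L.card := card_pos.2 ⟨i, hi⟩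
        have hi' := (mem_filter.1 hi).2
        have hlen : 3 * J.length ≤ (joinL E W i.1).length := by
          by_contra hn
          exact hi' (mem_hardL.2 ⟨i.2, by omega⟩)
        have hnd : (joinL E W i.1).Nodup := h.hWn.filter _
        rw [← List.toFinset_card_of_nodup hnd] at hlen
        obtain ⟨v, hv, hvR⟩ : ∃ v ∈ (joinL E W i.1).toFinset, v ∉ R := by
          by_contra hno
          push Not at hno
          have h6 := card_le_card (s := (joinL E W i.1).toFinset) (t := R) hno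
          omega
        rw [List.mem_toFinset, mem_joinL h i.2] at hv
        exact ⟨{v}, disjoint_singleton_left.2 hvR, by simp,
          singleton_subset_iff.2 (List.mem_toFinset.2 hv.1), hv.2⟩)
    have hsub : H.biUnion g' ⊆ R0 := subset_insert _ _
    refine ⟨fun i => if i.1 ∈ hardL E W J then g' i else e i, fun i => ?_, fun i j hij => ?_⟩
    · by_cases hi : i.1 ∈ hardL E W J
      · dsimp only
        rw [if_pos hi, e1 i hi]
        exact ⟨(hg ⟨i.1, hi⟩).1, (hg ⟨i.1, hi⟩).2.1⟩
      · dsimp only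
        rw [if_neg hi]
        have h7 := he1 i (mem_filter.2 ⟨mem_univ _, hi⟩)
        refine ⟨fun x hx => ?_, h7.1.2⟩
        rw [List.mem_toFinset, mem_rm]
        refine ⟨List.mem_toFinset.1 (h7.1.1 hx), fun hxv => ?_⟩
        exact disjoint_left.1 h7.2.2 hx (by rw [hxv]; exact mem_insert_self _ _)
    · dsimp only
      by_cases hi : i.1 ∈ hardL E W J <;> by_cases hj : j.1 ∈ hardL E W J
      · rw [if_pos hi, if_pos hj, e1 i hi, e1 j hj]
        exact hd _ _ fun he => hij (Subtype.ext (Subtype.mk.inj he))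
      · rw [if_pos hi, if_neg hj]
        refine disjoint_of_subset_left ?_ (he1 j (mem_filter.2 ⟨mem_univ _, hj⟩)).2.2.symm
        exact (subset_biUnion_of_mem g' (mem_filter.2 ⟨mem_univ i, hi⟩)).trans hsub
      · rw [if_neg hi, if_pos hj]
        refine disjoint_of_subset_right ?_ (he1 i (mem_filter.2 ⟨mem_univ _, hi⟩)).2.2
        exact (subset_biUnion_of_mem g' (mem_filter.2 ⟨mem_univ j, hj⟩)).trans hsub
      · rw [if_neg hi, if_neg hj]
        exact he2 i (mem_filter.2 ⟨mem_univ _, hi⟩) j (mem_filter.2 ⟨mem_univ _, hj⟩) hij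

/-- With enough vertices some solution leaves a vertex unused. -/
theorem free_of_count (h : LCtx E U W J) {S : Finset ℕ} (hS : S ⊆ W.toFinset)
    {T : Finset (List ℕ)} (hk : Ok E (W.toFinset \ S) (mns J T))
    (hc : 2 * J.length + 1 + (S.card + T.card) ≤ W.length)
    (hF : Feas (GG E) W.toFinset (Zf J)) :
    ∃ e ∈ W.toFinset \ S, Feas (GG E) (rm e W).toFinset (Zf J) := by
  obtain ⟨g, hg, hd⟩ := shrink h hF
  set W' : List ℕ := W.filter fun w => !decide (w ∈ S) with hW'
  have hW'm : ∀ w, w ∈ W' ↔ w ∈ W ∧ w ∉ S := by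
    intro w
    rw [hW', List.mem_filter, Bool.not_eq_true', decide_eq_false_iff_not]
  have hW's : W'.toFinset = W.toFinset \ S := by
    ext x
    rw [List.mem_toFinset, hW'm, mem_sdiff, List.mem_toFinset]
  have hctx : LCtx E U W' (mns J T) := LCtx.mono h (fun w hw => ((hW'm w).1 hw).1)
    (h.hWn.filter _) (fun Z hZ => (mem_mns.1 hZ).1) (h.hJn.filter _)
  have htd : TD E U W' (mns J T) := Ok.td hctx (by rw [hW's]; exact hk)
  have hex : ∀ i : {Z // Z ∈ J}, ∃ s ⊆ g i, Con (GG E) (i.1.toFinset ∪ s) ∧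
      (s \ S).card ≤ 2 + if i.1 ∈ T then 1 else 0 := by
    intro i
    obtain ⟨h1, h2, a, b, c, ha, hb, hcc, hs⟩ := hg i
    have h3 : (g i).card ≤ 3 := by rw [hs]; exact card_le_three
    by_cases hi : i.1 ∈ T
    · refine ⟨g i, Subset.refl _, h2, ?_⟩
      rw [if_pos hi]
      exact (card_le_card sdiff_subset).trans h3
    · by_cases hdj : Disjoint (g i) S
      · have hsub : g i ⊆ W'.toFinset := by
          intro x hx
          rw [hW's]
          exact mem_sdiff.2 ⟨h1 hx, fun hxS => disjoint_left.1 hdj hx hxS⟩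
        have hmem : i.1 ∈ mns J T := mem_mns.2 ⟨i.2, hi⟩
        obtain ⟨s, hs1, hs2⟩ := htd.con_good hmem hsub h2
        refine ⟨s, hs1, (htd.good_con hmem hs2).2, ?_⟩
        rw [if_neg hi]
        refine (card_le_card sdiff_subset).trans ?_
        rcases hs2 with ⟨c, _, _, h⟩ | ⟨a, _, b, _, _, _, _, h⟩
        · rw [h]; simp
        · rw [h]; exact card_le_two
      · refine ⟨g i, Subset.refl _, h2, ?_⟩
        rw [if_neg hi]
        obtain ⟨x, hx, hxS⟩ := not_disjoint_iff.1 hdj
        have h4 : (g i \ S).card < (g i).card :=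
          card_lt_card ⟨sdiff_subset, fun hsub => (mem_sdiff.1 (hsub hx)).2 hxS⟩
        omega
  choose s hs1 hs2 hs3 using hex
  have hcount : (univ.biUnion fun i => s i \ S).card ≤ 2 * J.length + T.card := by
    refine card_biUnion_le.trans ((sum_le_sum fun i _ => hs3 i).trans ?_)
    rw [sum_add_distrib, sum_const, card_univ, card_J h.hJn, smul_eq_mul]
    have h5 : ∑ i : {Z // Z ∈ J}, (if i.1 ∈ T then 1 else 0) ≤ T.card := by
      rw [← card_filter]
      refine card_le_card_of_injOn (fun i => i.1) (fun i hi => (mem_filter.1 hi).2) ?_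
      intro i _ j _ hij
      exact Subtype.ext hij
    omega
  obtain ⟨e, he, hes⟩ : ∃ e ∈ W.toFinset \ S, ∀ i, e ∉ s i := by
    by_contra hno
    push Not at hno
    have h6 : W.toFinset \ S ⊆ univ.biUnion fun i => s i \ S := by
      intro x hx
      obtain ⟨i, hi⟩ := hno x hx
      exact mem_biUnion.2 ⟨i, mem_univ _, mem_sdiff.2 ⟨hi, (mem_sdiff.1 hx).2⟩⟩
    have h7 := card_le_card h6
    rw [card_sdiff_of_subset hS, List.toFinset_card_of_nodup h.hWn] at h7
    omega
  refine ⟨e, he, s, fun i => ⟨fun x hx => ?_, hs2 i⟩, fun i j hij =>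
    disjoint_of_subset_left (hs1 i) (disjoint_of_subset_right (hs1 j) (hd i j hij))⟩
  rw [List.mem_toFinset, mem_rm]
  exact ⟨List.mem_toFinset.1 ((hg i).1 (hs1 i hx)), fun hxe => hes i (hxe ▸ hx)⟩

end

section
variable {I : Inst}

theorem solved_iff (hw : WellFormed I) (hK : KP (GG I.2.1) I.1.toFinset) (e : {v // v ∈ I.1})
    (he : e.1 ∈ freeV I.1 I.2.2) : SolvedWithout I e ↔
      Feas (GG I.2.1) (rm e.1 (freeV I.1 I.2.2)).toFinset (Zf (discs I.2.1 I.2.2)) := by
  have hm : ∀ Z ∈ discs I.2.1 I.2.2, Z ∈ I.2.2 ∧ discB I.2.1 Z = true := fun Z hZ =>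
    List.mem_filter.1 hZ
  have hWU : ∀ v ∈ freeV I.1 I.2.2, v ∈ I.1 := fun v hv => (mem_freeV.1 hv).1
  constructor
  · rintro ⟨S, hS, hdis⟩
    have hidx : ∀ i : {Z // Z ∈ discs I.2.1 I.2.2}, ∃ m : Fin I.2.2.length, I.2.2.get m = i.1 :=
      fun i => List.get_of_mem (hm i.1 i.2).1
    choose m hm' using hidx
    have hmem : ∀ i (v : {v // v ∈ I.1}), v ∈ S (m i) ↔ v.1 ∈ i.1.toFinset ∪
        (freeV I.1 I.2.2).toFinset.filter (fun w => ∃ h : w ∈ I.1, (⟨w, h⟩ : {v // v ∈ I.1}) ∈
          S (m i)) := by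
      intro i v
      rw [Finset.mem_union, Finset.mem_filter, List.mem_toFinset, List.mem_toFinset, mem_freeV]
      constructor
      · intro hv
        by_cases hZ : ∃ Z ∈ I.2.2, v.1 ∈ Z
        · obtain ⟨Z, hZ, hvZ⟩ := hZ
          obtain ⟨j, rfl⟩ := List.get_of_mem hZ
          have hvj : v ∈ S j := (hS j).1 hvZ
          have : j = m i := by
            by_contra hne
            exact Set.disjoint_left.1 (hdis j (m i) hne) hvj hv
          left
          rw [← hm' i, ← this]
          exact hvZ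
        · push Not at hZ
          exact Or.inr ⟨⟨v.2, hZ⟩, v.2, hv⟩
      · rintro (h | ⟨_, _, h⟩)
        · refine (hS (m i)).1 ?_
          change v.1 ∈ I.2.2.get (m i)
          rw [hm' i]; exact h
        · exact h
    refine ⟨fun i => (freeV I.1 I.2.2).toFinset.filter (fun w => ∃ h : w ∈ I.1,
      (⟨w, h⟩ : {v // v ∈ I.1}) ∈ S (m i)), fun i => ⟨?_, ?_⟩, ?_⟩
    · intro w hw'
      obtain ⟨h1, h2, h3⟩ := Finset.mem_filter.1 hw'
      rw [List.mem_toFinset, mem_rm]
      refine ⟨List.mem_toFinset.1 h1, fun hwe => (hS (m i)).2.2 ?_⟩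
      have : (⟨w, h2⟩ : {v // v ∈ I.1}) = e := Subtype.ext hwe
      exact this ▸ h3
    · refine (con_iff ?_ (S := S (m i)) (hmem i)).2 (hS (m i)).2.1
      refine Finset.union_subset (toFinset_subset hw (hm i.1 i.2).1) ?_
      intro w hw'
      exact List.mem_toFinset.2 (hWU w (List.mem_toFinset.1 (Finset.mem_filter.1 hw').1))
    · intro i j hij
      rw [Finset.disjoint_left]
      intro w h1 h2
      obtain ⟨_, h3, h4⟩ := Finset.mem_filter.1 h1
      obtain ⟨_, _, h5⟩ := Finset.mem_filter.1 h2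
      have hne : m i ≠ m j := fun h => hij (Subtype.ext (by rw [← hm' i, ← hm' j, h]))
      exact Set.disjoint_left.1 (hdis _ _ hne) h4 h5
  · rintro ⟨o, ho, hdo⟩
    have hoW' : ∀ i, ∀ v ∈ o i, v ∈ freeV I.1 I.2.2 ∧ v ≠ e.1 := fun i v hv =>
      mem_rm.1 (List.mem_toFinset.1 ((ho i).1 hv))
    have hoW : ∀ i, ∀ v ∈ o i, v ∈ freeV I.1 I.2.2 := fun i v hv => (hoW' i v hv).1
    refine ⟨fun m => {v | v.1 ∈ I.2.2.get m ∨ ∃ h : I.2.2.get m ∈ discs I.2.1 I.2.2,
      v.1 ∈ o ⟨_, h⟩}, fun m => ⟨fun v hv => Or.inl hv, ?_, ?_⟩, ?_⟩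
    · have hmZ := List.get_mem I.2.2 m
      by_cases hd : I.2.2.get m ∈ discs I.2.1 I.2.2
      · refine (con_iff (T := (I.2.2.get m).toFinset ∪ o ⟨_, hd⟩) ?_ ?_).1 (ho ⟨_, hd⟩).2
        · refine Finset.union_subset (toFinset_subset hw hmZ) ?_
          intro w hw'
          exact List.mem_toFinset.2 (hWU w (hoW _ w hw'))
        · intro v
          rw [Finset.mem_union, List.mem_toFinset, Set.mem_ofPred_eq]
          exact or_congr_right ⟨fun ⟨_, h⟩ => h, fun h => ⟨hd, h⟩⟩
      · refine (con_iff (T := (I.2.2.get m).toFinset) (toFinset_subset hw hmZ) ?_).1 ?_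
        · intro v
          rw [List.mem_toFinset, Set.mem_ofPred_eq]
          exact ⟨fun h => h.resolve_right (fun ⟨h, _⟩ => hd h), Or.inl⟩
        · by_contra hc
          exact hd (List.mem_filter.2 ⟨hmZ, (disc_iff hK (toFinset_subset hw hmZ)
            (hw.2.2 _ hmZ).1).2 hc⟩)
    · rintro (h1 | ⟨h1, h2⟩)
      · exact (mem_freeV.1 he).2 _ (List.get_mem I.2.2 m) h1
      · exact (hoW' _ _ h2).2 rfl
    · intro i j hij
      rw [Set.disjoint_left]
      rintro v (h1 | ⟨h1, h1'⟩) (h2 | ⟨h2, h2'⟩)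
      · exact wf_disjoint hw i j hij v.1 h1 h2
      · exact (mem_freeV.1 (hoW _ _ h2')).2 _ (List.get_mem I.2.2 i) h1
      · exact (mem_freeV.1 (hoW _ _ h1')).2 _ (List.get_mem I.2.2 j) h2
      · refine Finset.disjoint_left.1 (hdo ⟨_, h1⟩ ⟨_, h2⟩ (fun h => hij ?_)) h1' h2'
        exact wf_get_inj hw i j (congrArg Subtype.val h)

end

end Pool.Agent.Helper878_bk
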