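import Pool.Agent.Helper878_bj.Abs

/-!
# Labels
-/

set_option autoImplicit false

namespace Pool.Agent.Helper878_bk

open Pool.Agent.Helper878_bj

set_option synthInstance.maxSize 100000 in
/-- the labels of an index which cannot be exchanged with a bad one -/
theorem stuck_labels : ∀ p q ai bi aj bj : Fin 3, p ≠ 0 → aj ≠ 0 → bj ≠ 0 → aj ≠ bj →
    ((p = ai ∧ p ≠ 0) ∨ (fl q = bj ∧ fl q ≠ 0)) →
    ((fl p = ai ∧ fl p ≠ 0) ∨ (q = bj ∧ q ≠ 0)) →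
    ((p = bi ∧ p ≠ 0) ∨ (fl q = aj ∧ fl q ≠ 0)) →
    ((fl p = bi ∧ fl p ≠ 0) ∨ (q = aj ∧ q ≠ 0)) →
    q ≠ 0 ∧ ai ≠ 0 ∧ bi ≠ 0 ∧ ai ≠ bi ∧ (p = ai ↔ q ≠ aj) := by
  decide

end Pool.Agent.Helper878_bk
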