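import Pool.Agent.Helper878_bk.Hard

/-!
# The whole algorithm
-/

set_option autoImplicit false
set_option linter.unusedSectionVars false

namespace Pool.Agent.Helper878_bk

open Finset Pool.Agent.NPC Pool.Agent.H671R2.SF Pool.Agent.Helper878_dcs Pool.Agent.Helper878_mm
open Pool.Agent.Helper878_bs Pool.Agent.Helper878_bg Pool.Agent.Helper878_bh
open Pool.Agent.Helper878_bj
open scoped Classical

variable {I : Inst}

theorem solved_iff' (hw : WellFormed I) (hK : KP (GG I.2.1) I.1.toFinset) (e : {v // v ∈ I.1})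
    (he : e.1 ∈ freeV I.1 I.2.2) : SolvedWithout I e ↔
      Feas (GG I.2.1) (rm e.1 (freeV I.1 I.2.2)).toFinset (Zf (hards I)) := by
  rw [solved_iff hw hK e he, feas_hard_rm (lctx hw hK)]
  rfl

theorem spare_iff (hw : WellFormed I) (hK : KP (GG I.2.1) I.1.toFinset) (t : ℕ) :
    UniformSpare t I ↔ nearY t t (I.2.1, ((freeV I.1 I.2.2, hards I),
      (freeV I.1 I.2.2, hards I))) = true := by
  rw [nearY_iff t (lctxH hw hK)]
  unfold UniformSpare
  constructor
  · rintro ⟨S, U, T, hS, hU, h, e, he, hsol⟩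
    have heU := (hU e).1 he
    have hef : e.1 ∈ freeV I.1 I.2.2 := mem_freeV.2 ⟨e.2, heU.2⟩
    refine ⟨(S.map ⟨Subtype.val, Subtype.val_injective⟩) ∩ (freeV I.1 I.2.2).toFinset,
      inter_subset_right, T ∩ (hards I).toFinset, fun Z hZ =>
      List.mem_toFinset.1 (mem_inter.1 hZ).2, ?_, ?_, e.1, ?_, (solved_iff' hw hK e hef).1 hsol⟩
    · have h1 := card_le_card (inter_subset_left
        (s₁ := S.map ⟨Subtype.val, Subtype.val_injective⟩) (s₂ := (freeV I.1 I.2.2).toFinset))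
      have h2 := card_le_card (inter_subset_left (s₁ := T)
        (s₂ := (hards I).toFinset))
      rw [card_map] at h1
      omega
    · refine Ok.mono (Subset.refl _) (J := mns (hards I) T) (fun Z hZ => ?_)
        ((okI_iff hw hK (fun v => ?_) (fun v hv => ?_)).1 h)
      · rw [mem_mns, mem_inter] at hZ
        exact mem_mns.2 ⟨hZ.1, fun hZT => hZ.2 ⟨hZT, List.mem_toFinset.2 hZ.1⟩⟩
      · rw [hU, mem_sdiff, mem_inter, List.mem_toFinset, mem_freeV, mem_map]
        constructor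
        · rintro ⟨h1, h2⟩
          refine ⟨⟨v.2, h2⟩, fun h3 => h1 ?_⟩
          obtain ⟨s, hs, he⟩ := h3.1
          rw [← Subtype.ext (show s.1 = v.1 from he)]
          exact hs
        · rintro ⟨h1, h2⟩
          exact ⟨fun h3 => h2 ⟨⟨v, h3, rfl⟩, h1⟩, h1.2⟩
      · exact List.mem_toFinset.1 (mem_sdiff.1 hv).1
    · rw [mem_sdiff, mem_inter, List.mem_toFinset, mem_map]
      refine ⟨hef, fun h3 => heU.1 ?_⟩
      obtain ⟨s, hs, he'⟩ := h3.1
      rw [← Subtype.ext (show s.1 = e.1 from he')]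
      exact hs
  · rintro ⟨S, hS, T, _, hc, hk, e, he, hF⟩
    have hSV : ∀ s ∈ S, s ∈ I.1 := fun s hs => (mem_freeV.1 (List.mem_toFinset.1 (hS hs))).1
    have hUV : ∀ s ∈ (freeV I.1 I.2.2).toFinset \ S, s ∈ I.1 := fun s hs =>
      (mem_freeV.1 (List.mem_toFinset.1 (mem_sdiff.1 hs).1)).1
    obtain ⟨S', h1, h2⟩ := exists_lift hSV
    obtain ⟨U', h3, h4⟩ := exists_lift hUV
    have hef := List.mem_toFinset.1 (mem_sdiff.1 he).1
    refine ⟨S', U', T, by omega, fun v => ?_, (okI_iff hw hK h4 fun s hs =>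
      List.mem_toFinset.1 (mem_sdiff.1 hs).1).2 hk, ⟨e, hUV e he⟩, (h4 _).2 he,
      (solved_iff' hw hK ⟨e, hUV e he⟩ hef).2 hF⟩
    rw [h4, h2, mem_sdiff, List.mem_toFinset, mem_freeV]
    constructor
    · rintro ⟨h5, h6⟩
      exact ⟨h6, h5.2⟩
    · rintro ⟨h5, h6⟩
      exact ⟨⟨v.2, h6⟩, h5⟩

/-- the algorithm -/
def solveY (t : ℕ) (I : Inst) : Bool :=
  wfB I && kpB I.1 I.2.1 && nearY t t (I.2.1, ((freeV I.1 I.2.2, hards I),
    (freeV I.1 I.2.2, hards I)))

theorem poly_solveY (t : ℕ) : Poly (solveY t) := by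
  have h1 := poly_nearY t t
  unfold solveY wfB kpB nodupB hards
  generalize nearY t t = f at h1
  fun_prop

theorem solveY_iff (t : ℕ) (I : Inst) : (WellFormed I ∧ Free twoP1P2 (graph I.1 I.2.1) ∧
    UniformSpare t I) ↔ solveY t I = true := by
  unfold solveY
  rw [Bool.and_eq_true, Bool.and_eq_true, wfB_iff, kpB_iff, free_iff, and_assoc]
  refine and_congr_right fun hw => and_congr_right fun hK => ?_
  exact spare_iff hw hK t

theorem mainY (t : ℕ) : InPP (fun I : Inst => WellFormed I ∧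
    Free twoP1P2 (graph I.1 I.2.1) ∧ UniformSpare t I) :=
  inPP_of (poly_solveY t) fun I => solveY_iff t I

/-- With enough nonterminals some solution leaves one unused. -/
theorem spare_of_count {t : ℕ} (hw : WellFormed I) (hF : Free twoP1P2 (graph I.1 I.2.1))
    (hU : Uniform t I) (hn : 2 * numHard I + 1 + t ≤ numFree I) (hD : DCS I) :
    UniformSpare t I := by
  have hK : KP (GG I.2.1) I.1.toFinset := free_iff.1 hF
  rw [spare_iff hw hK, nearY_iff t (lctxH hw hK)]
  rw [uniform_iff hw hK, nearU_iff t _ _ (lctx hw hK).hWn] at hU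
  obtain ⟨S, hS, T, hT, hc, hk⟩ := hU
  rw [numHard_eq hw hK, numFree_eq hw] at hn
  rw [dcs_iff hw hK, feas_hard (lctx hw hK)] at hD
  exact ⟨S, hS, T, hT, hc, hk, free_of_count (lctxH hw hK) hS hk (by omega) hD⟩

end Pool.Agent.Helper878_bk
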