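import Pool.Agent.Helper878_bk.Calm

/-!
# The outer search with both kinds of leaves
-/

set_option autoImplicit false
set_option linter.unusedSectionVars false

namespace Pool.Agent.Helper878_bk

open Finset Pool.Agent.NPC Pool.Agent.H671R2.SF Pool.Agent.Helper878_dcs Pool.Agent.Helper878_mm
open Pool.Agent.Helper878_bs Pool.Agent.Helper878_bg Pool.Agent.Helper878_bh
open Pool.Agent.Helper878_bj
open scoped Classical

variable {E : List (ℕ × ℕ)} {V : Finset ℕ} {U W : List ℕ} {J K : List (List ℕ)}

/-- what a node of the outer search decides -/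
def SpecP (E : List (ℕ × ℕ)) (t : ℕ) (W : List ℕ) (J : List (List ℕ)) (U : Finset ℕ)
    (K : Finset (List ℕ)) : Prop :=
  Ok E U K.toList ∧ ((∃ e ∈ U, Feas (GG E) (rm e W).toFinset (Zf J)) ∨
    (CalmF E t U K ∧ Feas (GG E) W.toFinset (Zf J)))

theorem ok_toList {U : Finset ℕ} : Ok E U K.toFinset.toList ↔ Ok E U K := by
  constructor
  · exact Ok.mono (Subset.refl _) fun Z hZ => by simpa using hZ
  · exact Ok.mono (Subset.refl _) fun Z hZ => by simpa using hZ

theorem node_iff {t : ℕ} (h : LCtx E V W J) (hU : U.Nodup) (hUW : ∀ u ∈ U, u ∈ W)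
    (hK : K.Nodup) (hKJ : ∀ Z ∈ K, Z ∈ J)
    (hb : (W.toFinset \ U.toFinset).card + (J.toFinset \ K.toFinset).card ≤ t) :
    nodeZ t (E, ((U, K), (W, J))) = true ↔ SpecP E t W J U.toFinset K.toFinset := by
  have hUK : LCtx E V U K := LCtx.mono h hUW hU hKJ hK
  have hT : ∀ Z ∈ J.toFinset \ K.toFinset, Z ∈ J := fun Z hZ =>
    List.mem_toFinset.1 (mem_sdiff.1 hZ).1
  have hWU : W.toFinset ∩ U.toFinset = U.toFinset :=
    inter_eq_right.2 fun x hx => List.mem_toFinset.2 (hUW x (List.mem_toFinset.1 hx))
  unfold nodeZ SpecP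
  dsimp only
  rw [Bool.and_eq_true, Bool.or_eq_true, Bool.and_eq_true, okU_iff, ok_toList,
    robS_iff (3 * t) t U K hUK]
  refine and_congr_right fun hk => ?_
  have hk' : Ok E (W.toFinset ∩ U.toFinset) (mns J (J.toFinset \ K.toFinset)) := by
    rw [hWU]
    refine Ok.mono (Subset.refl _) (fun Z hZ => ?_) hk
    rw [mem_mns, mem_sdiff, not_and, not_not, List.mem_toFinset, List.mem_toFinset] at hZ
    exact hZ.2 hZ.1
  refine or_congr ?_ ?_
  · constructor
    · intro hr
      obtain ⟨e, he, _, hF⟩ := topY_sound hU t W J h hr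
      exact ⟨e, List.mem_toFinset.2 he, hF⟩
    · rintro ⟨e, he, hF⟩
      have he' := List.mem_toFinset.1 he
      exact topY_complete hU t _ W J h hT hb hk' e he' (hUW e he') hF
  · refine and_congr_right fun hcalm => ?_
    constructor
    · exact topZ_sound hU t W J h
    · intro hF
      refine topZ_complete hU t _ W J h hT hb hk' ?_ hF
      intro U₁ hU₁ hc1 K₁ hK₁ hc2
      rw [hWU] at hU₁ hc1
      refine hcalm U₁ hU₁ hc1 K₁ ?_ ?_
      · intro Z hZ
        have := hK₁ hZ
        rw [mem_sdiff, mem_sdiff, not_and, not_not] at this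
        exact this.2 this.1
      · refine (card_le_card (sdiff_subset_sdiff ?_ (Subset.refl _))).trans hc2
        intro Z hZ
        exact List.mem_toFinset.2 (hKJ Z (List.mem_toFinset.1 hZ))

theorem nearZ_iff {t : ℕ} (h : LCtx E V W J) : ∀ (m : ℕ) (U : List ℕ) (K : List (List ℕ)),
    U.Nodup → (∀ u ∈ U, u ∈ W) → K.Nodup → (∀ Z ∈ K, Z ∈ J) →
    (W.toFinset \ U.toFinset).card + (J.toFinset \ K.toFinset).card + m ≤ t →
    (nearZ t m (E, ((U, K), (W, J))) = true ↔ ∃ S ⊆ U.toFinset, ∃ T ⊆ K.toFinset,
      S.card + T.card ≤ m ∧ SpecP E t W J (U.toFinset \ S) (K.toFinset \ T)) := by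
  intro m
  induction m with
  | zero =>
    intro U K hU hUW hK hKJ hb
    unfold nearZ
    rw [node_iff h hU hUW hK hKJ (by omega)]
    constructor
    · intro hs
      exact ⟨∅, empty_subset _, ∅, empty_subset _, by simp, by
        rw [sdiff_empty, sdiff_empty]; exact hs⟩
    · rintro ⟨S, _, T, _, hc, hs⟩
      have h1 : S = ∅ := card_eq_zero.1 (by omega)
      have h2 : T = ∅ := card_eq_zero.1 (by omega)
      rw [h1, h2, sdiff_empty, sdiff_empty] at hs
      exact hs
  | succ m ih =>
    intro U K hU hUW hK hKJ hb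
    have ihU : ∀ a ∈ U, (nearZ t m (E, ((rm a U, K), (W, J))) = true ↔
        ∃ S ⊆ (rm a U).toFinset, ∃ T ⊆ K.toFinset,
        S.card + T.card ≤ m ∧ SpecP E t W J ((rm a U).toFinset \ S) (K.toFinset \ T)) := by
      intro a ha
      refine ih _ _ (nodup_rm hU) (fun u hu => hUW u (mem_rm.1 hu).1) hK hKJ ?_
      have h3 : W.toFinset \ (rm a U).toFinset ⊆ insert a (W.toFinset \ U.toFinset) := by
        intro x hx
        rw [rm_toFinset, mem_sdiff, mem_erase, not_and] at hx
        by_cases e : x = a
        · rw [e]; exact mem_insert_self _ _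
        · exact mem_insert_of_mem (mem_sdiff.2 ⟨hx.1, hx.2 e⟩)
      have h4 := (card_le_card h3).trans (card_insert_le _ _)
      omega
    have ihK : ∀ Z ∈ K, (nearZ t m (E, ((U, rmZ Z K), (W, J))) = true ↔
        ∃ S ⊆ U.toFinset, ∃ T ⊆ (rmZ Z K).toFinset,
        S.card + T.card ≤ m ∧ SpecP E t W J (U.toFinset \ S) ((rmZ Z K).toFinset \ T)) := by
      intro Z hZ
      refine ih _ _ hU hUW (nodup_rmZ hK) (fun Y hY => hKJ Y (mem_rmZ.1 hY).1) ?_
      have h3 : J.toFinset \ (rmZ Z K).toFinset ⊆ insert Z (J.toFinset \ K.toFinset) := by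
        intro x hx
        rw [rmZ_toFinset, mem_sdiff, mem_erase, not_and] at hx
        by_cases e : x = Z
        · rw [e]; exact mem_insert_self _ _
        · exact mem_insert_of_mem (mem_sdiff.2 ⟨hx.1, hx.2 e⟩)
      have h4 := (card_le_card h3).trans (card_insert_le _ _)
      omega
    unfold nearZ
    dsimp only
    rw [Bool.or_eq_true, Bool.or_eq_true, List.any_eq_true, List.any_eq_true,
      node_iff h hU hUW hK hKJ (by omega)]
    constructor
    · rintro (hs | ⟨a, ha, hs⟩ | ⟨Z, hZ, hs⟩)
      · exact ⟨∅, empty_subset _, ∅, empty_subset _, by simp, by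
          rw [sdiff_empty, sdiff_empty]; exact hs⟩
      · rw [ihU a ha] at hs
        obtain ⟨S, hS, T, hT, hc, hs⟩ := hs
        rw [rm_toFinset] at hS hs
        have e1 : U.toFinset.erase a \ S = U.toFinset \ insert a S := by
          ext x
          rw [mem_sdiff, mem_sdiff, mem_erase, mem_insert]
          tauto
        rw [e1] at hs
        refine ⟨insert a S, insert_subset (List.mem_toFinset.2 ha)
          (hS.trans (erase_subset _ _)), T, hT, ?_, hs⟩
        have := card_insert_le a S
        omega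
      · rw [ihK Z hZ] at hs
        obtain ⟨S, hS, T, hT, hc, hs⟩ := hs
        rw [rmZ_toFinset] at hT hs
        have e1 : K.toFinset.erase Z \ T = K.toFinset \ insert Z T := by
          ext x
          rw [mem_sdiff, mem_sdiff, mem_erase, mem_insert]
          tauto
        rw [e1] at hs
        refine ⟨S, hS, insert Z T, insert_subset (List.mem_toFinset.2 hZ)
          (hT.trans (erase_subset _ _)), ?_, hs⟩
        have := card_insert_le Z T
        omega
    · rintro ⟨S, hS, T, hT, hc, hs⟩
      by_cases hne : S.Nonempty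
      · obtain ⟨a, ha⟩ := hne
        have haU := List.mem_toFinset.1 (hS ha)
        refine Or.inr (Or.inl ⟨a, haU, (ihU a haU).2 ⟨S.erase a, ?_, T, hT, ?_, ?_⟩⟩)
        · rw [rm_toFinset]
          exact erase_subset_erase a hS
        · have := card_erase_of_mem ha
          have := card_pos.2 ⟨a, ha⟩
          omega
        · have e1 : (rm a U).toFinset \ S.erase a = U.toFinset \ S := by
            ext x
            rw [rm_toFinset, mem_sdiff, mem_sdiff, mem_erase, mem_erase]
            constructor
            · rintro ⟨⟨h1, h2⟩, h3⟩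
              exact ⟨h2, fun h4 => h3 ⟨h1, h4⟩⟩
            · rintro ⟨h1, h2⟩
              exact ⟨⟨fun h3 => h2 (h3 ▸ ha), h1⟩, fun h3 => h2 h3.2⟩
          rw [e1]
          exact hs
      · rw [not_nonempty_iff_eq_empty] at hne
        subst hne
        by_cases hne : T.Nonempty
        · obtain ⟨Z, hZ⟩ := hne
          have hZK := List.mem_toFinset.1 (hT hZ)
          refine Or.inr (Or.inr ⟨Z, hZK, (ihK Z hZK).2 ⟨∅, empty_subset _, T.erase Z, ?_, ?_,
            ?_⟩⟩)
          · rw [rmZ_toFinset]
            exact erase_subset_erase Z hT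
          · have := card_erase_of_mem hZ
            have := card_pos.2 ⟨Z, hZ⟩
            omega
          · have e1 : (rmZ Z K).toFinset \ T.erase Z = K.toFinset \ T := by
              ext x
              rw [rmZ_toFinset, mem_sdiff, mem_sdiff, mem_erase, mem_erase]
              constructor
              · rintro ⟨⟨h1, h2⟩, h3⟩
                exact ⟨h2, fun h4 => h3 ⟨h1, h4⟩⟩
              · rintro ⟨h1, h2⟩
                exact ⟨⟨fun h3 => h2 (h3 ▸ hZ), h1⟩, fun h3 => h2 h3.2⟩
            rw [e1]
            exact hs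
        · rw [not_nonempty_iff_eq_empty] at hne
          subst hne
          rw [sdiff_empty, sdiff_empty] at hs
          exact Or.inl hs

end Pool.Agent.Helper878_bk
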