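import Pool.Agent.Helper878_bj.Rec

/-!
# The recombination does not use more vertices
-/

set_option autoImplicit false
set_option linter.unusedSectionVars false

namespace Pool.Agent.Helper878_bk

open Finset Pool.Agent.Helper878_mm Pool.Agent.Helper878_bs Pool.Agent.Helper878_bj
open Pool.Agent.Helper878_dcs (Assign)
open scoped Classical

variable {ι : Type} [DecidableEq ι] [Fintype ι]
variable {W : Finset ℕ} {σ : ι → ℕ → Fin 3} {A : ℕ → ℕ → Prop}

/-- The recombination. -/
theorem recombine2 (hN : HN W σ A) {e : ℕ} {i0 : ι} (hi0 : σ i0 e ≠ 0) {o : ι → Finset ℕ}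
    (hdis : ∀ i j, i ≠ j → Disjoint (o i) (o j))
    (hty : ∀ j, Ty W σ e o j)
    (hfree : ∀ f ∈ W, (∀ j, f ∉ o j) → f ∈ De W σ e) (hT : Test W σ A e) :
    ∃ o' : ι → Finset ℕ, (∀ i, Good W σ A i (o' i)) ∧ (∀ i j, i ≠ j → Disjoint (o' i) (o' j)) ∧
      ∀ i, (o' i).card ≤ (o i).card := by
  obtain ⟨g, hg1, hg2⟩ := hT
  have hPQ : ∀ v, v ∈ Pe W σ e → v ∉ Qe W σ e := fun v => disj_PQ hi0
  set D := De W σ e with hD
  set Q : Finset ι := univ.filter fun i => σ i e ≠ 0 with hQ
  have hmQ : ∀ j, j ∈ Q ↔ σ j e ≠ 0 := fun j => by rw [hQ, mem_filter]; simp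
  set In : Finset ι := univ.filter fun j => T2 W σ e o j with hIn
  set Jp : Finset ι := univ.filter fun j => K W σ e (Pe W σ e) o j with hJp
  set Jq : Finset ι := univ.filter fun j => K W σ e (Qe W σ e) o j with hJq
  set E : Finset ι := Q.filter fun j => ∃ a b, a ≠ b ∧ g j = {a, b} ∧ a ∈ Pe W σ e ∧
    b ∈ Qe W σ e ∧ A a b with hE
  have hInQ : In ⊆ Q := fun j hj => (hmQ j).2 (mem_filter.1 hj).2.1
  have hEQ : E ⊆ Q := filter_subset _ _
  -- counting the vertices outside the classes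
  have c1 : (W \ D).card ≤ (Q \ In).card := by
    have h1 : W \ D ⊆ (Q \ In).biUnion fun j => o j \ D := by
      intro w hw
      obtain ⟨hw, hwD⟩ := mem_sdiff.1 hw
      obtain ⟨j, hj⟩ : ∃ j, w ∈ o j := by
        by_contra hno
        push Not at hno
        exact hwD (hfree w hw hno)
      have hwj : w ∈ o j \ D := mem_sdiff.2 ⟨hj, hwD⟩
      refine mem_biUnion.2 ⟨j, mem_sdiff.2 ⟨(hmQ j).2 ?_, fun h => ?_⟩, hwj⟩
      · intro h0
        rcases hty j with h | h | (h | h) | (h | h)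
        · exact h.1 h0
        · exact h.1 h0
        · exact h.1 h0
        · rw [hD, T5.D Pe_sub h] at hwj
          exact absurd hwj (notMem_empty _)
        · exact h.1 h0
        · rw [hD, T5.D Qe_sub h] at hwj
          exact absurd hwj (notMem_empty _)
      · have h2 := (mem_filter.1 h).2.D
        rw [hD, h2] at hwj
        exact absurd hwj (notMem_empty _)
    have h2 := (card_le_card h1).trans
      (card_biUnion_le_card_mul _ _ 1 fun j _ => card_one (hty j))
    omega
  have c2 : (Q \ E).card ≤ (W \ D).card := by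
    have hf : ∀ j ∈ Q \ E, ∃ w, g j = {w} ∧ w ∈ W \ D := by
      intro j hj
      obtain ⟨hjQ, hjE⟩ := mem_sdiff.1 hj
      rcases hg2 j hjQ with ⟨w, h1, h2, h3, h4⟩ | ⟨a, b, h1, h2, h3, h4, h5⟩
      · exact ⟨w, h1, mem_sdiff.2 ⟨h2, fun h => (mem_De.1 h).elim h3 h4⟩⟩
      · exact absurd (mem_filter.2 ⟨hjQ, a, b, h1, h2, h3, h4, h5⟩) hjE
    choose! f hf1 hf2 using hf
    refine card_le_card_of_injOn f (fun j hj => hf2 j hj) ?_
    intro j hj k hk hjk
    by_contra hne
    have := hg1 j (mem_sdiff.1 hj).1 k (mem_sdiff.1 hk).1 hne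
    rw [hf1 j hj, hf1 k hk, hjk] at this
    simp at this
  have c3 : In.card ≤ E.card := by
    have h1 := card_sdiff_add_card_eq_card hInQ
    have h2 := card_sdiff_add_card_eq_card hEQ
    omega
  -- an injection
  obtain ⟨φ, hφ1, hφ2⟩ : ∃ φ : ι → ι, (∀ j ∈ In, φ j ∈ E) ∧
      ∀ j ∈ In, ∀ k ∈ In, j ≠ k → φ j ≠ φ k := by
    obtain ⟨f, hf⟩ : ∃ f : In ↪ E, True := by
      have h1 : Fintype.card In ≤ Fintype.card E := by
        rw [Fintype.card_coe, Fintype.card_coe]; exact c3
      obtain ⟨f⟩ := Function.Embedding.nonempty_of_card_le h1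
      exact ⟨f, trivial⟩
    refine ⟨fun j => if hj : j ∈ In then (f ⟨j, hj⟩ : ι) else j, fun j hj => ?_,
      fun j hj k hk hjk => ?_⟩
    · simp only [hj, dif_pos]
      exact (f ⟨j, hj⟩).2
    · simp only [hj, hk, dif_pos]
      intro hh
      have := f.injective (Subtype.ext hh)
      exact hjk (congrArg Subtype.val this)
  have hφ3 : ∀ j ∈ In, ∃ a b, a ≠ b ∧ g (φ j) = {a, b} ∧ a ∈ Pe W σ e ∧
      b ∈ Qe W σ e ∧ A a b := fun j hj => (mem_filter.1 (hφ1 j hj)).2
  have hφQ : ∀ j ∈ In, φ j ∈ Q := fun j hj => hEQ (hφ1 j hj)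
  set Gs : Finset ℕ := In.biUnion fun j => g (φ j) with hGs
  -- counting the classes
  have nI3 : ∀ j ∈ Jp, j ∉ In := fun j h2 h1 =>
    K.not2 Pe_sub (mem_filter.1 h2).2 (mem_filter.1 h1).2
  have nI4 : ∀ j ∈ Jq, j ∉ In := fun j h2 h1 =>
    K.not2 Qe_sub (mem_filter.1 h2).2 (mem_filter.1 h1).2
  have c4 : In.card + Jp.card ≤ (Pe W σ e).card := by
    have hdj : Disjoint In Jp := disjoint_left.2 fun j h1 h2 => nI3 j h2 h1
    rw [← card_union_of_disjoint hdj]
    have hf : ∀ j ∈ In ∪ Jp, ∃ v, v ∈ o j ∧ v ∈ Pe W σ e := by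
      intro j hj
      rcases mem_union.1 hj with h | h
      · obtain ⟨_, a, ha, b, hb, h⟩ := (mem_filter.1 h).2
        exact ⟨a, by rw [h]; simp, ha⟩
      · obtain ⟨d, hd, h⟩ := (mem_filter.1 h).2.ex
        exact ⟨d, h, hd⟩
    choose! f hf1 hf2 using hf
    refine card_le_card_of_injOn f (fun j hj => hf2 j hj) ?_
    intro j hj k hk hjk
    by_contra hne
    exact disjoint_left.1 (hdis j k hne) (hf1 j hj) (hjk ▸ hf1 k hk)
  have c5 : In.card + Jq.card ≤ (Qe W σ e).card := by
    have hdj : Disjoint In Jq := disjoint_left.2 fun j h1 h2 => nI4 j h2 h1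
    rw [← card_union_of_disjoint hdj]
    have hf : ∀ j ∈ In ∪ Jq, ∃ v, v ∈ o j ∧ v ∈ Qe W σ e := by
      intro j hj
      rcases mem_union.1 hj with h | h
      · obtain ⟨_, a, ha, b, hb, h⟩ := (mem_filter.1 h).2
        exact ⟨b, by rw [h]; simp, hb⟩
      · obtain ⟨d, hd, h⟩ := (mem_filter.1 h).2.ex
        exact ⟨d, h, hd⟩
    choose! f hf1 hf2 using hf
    refine card_le_card_of_injOn f (fun j hj => hf2 j hj) ?_
    intro j hj k hk hjk
    by_contra hne
    exact disjoint_left.1 (hdis j k hne) (hf1 j hj) (hjk ▸ hf1 k hk)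
  have c6 : (Pe W σ e ∩ Gs).card ≤ In.card := by
    have h1 : Pe W σ e ∩ Gs ⊆ In.biUnion fun j => Pe W σ e ∩ g (φ j) := by
      intro v hv
      obtain ⟨h1, h2⟩ := mem_inter.1 hv
      obtain ⟨j, hj, h3⟩ := mem_biUnion.1 h2
      exact mem_biUnion.2 ⟨j, hj, mem_inter.2 ⟨h1, h3⟩⟩
    have h2 : ∀ j ∈ In, (Pe W σ e ∩ g (φ j)).card ≤ 1 := by
      intro j hj
      obtain ⟨a, b, _, h3, ha, hb, _⟩ := hφ3 j hj
      refine (card_le_card (t := {a}) ?_).trans (by simp)
      intro v hv
      obtain ⟨h4, h5⟩ := mem_inter.1 hv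
      rw [h3] at h5
      simp only [mem_insert, mem_singleton] at h5 ⊢
      rcases h5 with h5 | h5
      · exact h5
      · exact absurd hb (hPQ b (h5 ▸ h4))
    have h3 := (card_le_card h1).trans (card_biUnion_le_card_mul _ _ 1 h2)
    omega
  have c7 : (Qe W σ e ∩ Gs).card ≤ In.card := by
    have h1 : Qe W σ e ∩ Gs ⊆ In.biUnion fun j => Qe W σ e ∩ g (φ j) := by
      intro v hv
      obtain ⟨h1, h2⟩ := mem_inter.1 hv
      obtain ⟨j, hj, h3⟩ := mem_biUnion.1 h2
      exact mem_biUnion.2 ⟨j, hj, mem_inter.2 ⟨h1, h3⟩⟩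
    have h2 : ∀ j ∈ In, (Qe W σ e ∩ g (φ j)).card ≤ 1 := by
      intro j hj
      obtain ⟨a, b, _, h3, ha, hb, _⟩ := hφ3 j hj
      refine (card_le_card (t := {b}) ?_).trans (by simp)
      intro v hv
      obtain ⟨h4, h5⟩ := mem_inter.1 hv
      rw [h3] at h5
      simp only [mem_insert, mem_singleton] at h5 ⊢
      rcases h5 with h5 | h5
      · exact absurd (h5 ▸ h4) (hPQ a ha)
      · exact h5
    have h3 := (card_le_card h1).trans (card_biUnion_le_card_mul _ _ 1 h2)
    omega
  obtain ⟨p, hp1, hp2⟩ := choose_inj Jp (Pe W σ e \ Gs) (by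
    have := card_sdiff_add_card_inter (Pe W σ e) Gs
    omega)
  obtain ⟨q, hq1, hq2⟩ := choose_inj Jq (Qe W σ e \ Gs) (by
    have := card_sdiff_add_card_inter (Qe W σ e) Gs
    omega)
  -- the new parts
  set n : ι → Finset ℕ := fun j => if j ∈ In then g (φ j) else if j ∈ Jp then {p j} else
    if j ∈ Jq then {q j} else ∅ with hn
  have n2 : ∀ j ∈ In, n j = g (φ j) := fun j hj => by simp only [hn, hj, if_true]
  have n3 : ∀ j ∈ Jp, n j = {p j} := fun j hj => by
    simp only [hn, nI3 j hj, hj, if_true, if_false]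
  have nJ4 : ∀ j ∈ Jq, j ∉ Jp := by
    intro j h2 h1
    rcases (mem_filter.1 h1).2 with h3 | h3 <;> rcases (mem_filter.1 h2).2 with h4 | h4
    · obtain ⟨_, d, hd, w, _, hw, _, _, h⟩ := h4
      obtain ⟨_, d', hd', w', _, hw', _, _, h'⟩ := h3
      have h3 : d' ∈ ({d, w} : Finset ℕ) := by rw [← h, h']; simp
      simp only [mem_insert, mem_singleton] at h3
      rcases h3 with rfl | rfl
      · exact hPQ _ hd' hd
      · exact hw (mem_De.2 (Or.inl hd'))
    · exact h3.1 h4.1
    · exact h4.1 h3.1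
    · obtain ⟨_, c, hc, h⟩ := h4
      obtain ⟨_, c', hc', h'⟩ := h3
      have h5 : c' ∈ ({c} : Finset ℕ) := by rw [← h, h']; simp
      rw [mem_singleton] at h5
      exact hPQ _ hc' (h5 ▸ hc)
  have n4 : ∀ j ∈ Jq, n j = {q j} := fun j hj => by
    simp only [hn, nI4 j hj, nJ4 j hj, hj, if_true, if_false]
  have n1 : ∀ j, j ∉ In → j ∉ Jp → j ∉ Jq → n j = ∅ := fun j h1 h2 h3 => by
    simp only [hn, h1, h2, h3, if_false]
  have nD : ∀ j, n j ⊆ D := by
    intro j v hv
    by_cases h1 : j ∈ In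
    · rw [n2 j h1] at hv
      obtain ⟨a, b, _, h3, ha, hb, _⟩ := hφ3 j h1
      rw [h3] at hv
      simp only [mem_insert, mem_singleton] at hv
      rcases hv with rfl | rfl
      · exact mem_De.2 (Or.inl ha)
      · exact mem_De.2 (Or.inr hb)
    · by_cases h2 : j ∈ Jp
      · rw [n3 j h2, mem_singleton] at hv
        exact hv ▸ mem_De.2 (Or.inl (mem_sdiff.1 (hp1 j h2)).1)
      · by_cases h3 : j ∈ Jq
        · rw [n4 j h3, mem_singleton] at hv
          exact hv ▸ mem_De.2 (Or.inr (mem_sdiff.1 (hq1 j h3)).1)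
        · rw [n1 j h1 h2 h3] at hv
          exact absurd hv (notMem_empty _)
  have nG : ∀ j ∈ In, ∀ v ∈ n j, v ∈ Gs := by
    intro j hj v hv
    rw [n2 j hj] at hv
    exact mem_biUnion.2 ⟨j, hj, hv⟩
  have nG' : ∀ j, j ∉ In → ∀ v ∈ n j, v ∉ Gs := by
    intro j h1 v hv
    by_cases h2 : j ∈ Jp
    · rw [n3 j h2, mem_singleton] at hv
      exact hv ▸ (mem_sdiff.1 (hp1 j h2)).2
    · by_cases h3 : j ∈ Jq
      · rw [n4 j h3, mem_singleton] at hv
        exact hv ▸ (mem_sdiff.1 (hq1 j h3)).2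
      · rw [n1 j h1 h2 h3] at hv
        exact absurd hv (notMem_empty _)
  have ndis : ∀ i j, i ≠ j → ∀ v, v ∈ n i → v ∉ n j := by
    intro i j hij v hi hj
    by_cases h1 : i ∈ In
    · by_cases h2 : j ∈ In
      · rw [n2 i h1] at hi
        rw [n2 j h2] at hj
        exact disjoint_left.1 (hg1 _ (hφQ i h1) _ (hφQ j h2) (hφ2 i h1 j h2 hij)) hi hj
      · exact nG' j h2 v hj (nG i h1 v hi)
    · by_cases h2 : j ∈ In
      · exact nG' i h1 v hi (nG j h2 v hj)
      · by_cases h3 : i ∈ Jp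
        · rw [n3 i h3, mem_singleton] at hi
          by_cases h4 : j ∈ Jp
          · rw [n3 j h4, mem_singleton] at hj
            exact hp2 i h3 j h4 hij (hi ▸ hj)
          · by_cases h5 : j ∈ Jq
            · rw [n4 j h5, mem_singleton] at hj
              have h6 := (mem_sdiff.1 (hp1 i h3)).1
              have h7 := (mem_sdiff.1 (hq1 j h5)).1
              rw [← hi] at h6
              rw [← hj] at h7
              exact hPQ _ h6 h7
            · rw [n1 j h2 h4 h5] at hj
              exact absurd hj (notMem_empty _)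
        · by_cases h3' : i ∈ Jq
          · rw [n4 i h3', mem_singleton] at hi
            by_cases h4 : j ∈ Jp
            · rw [n3 j h4, mem_singleton] at hj
              have h6 := (mem_sdiff.1 (hq1 i h3')).1
              have h7 := (mem_sdiff.1 (hp1 j h4)).1
              rw [← hi] at h6
              rw [← hj] at h7
              exact hPQ _ h7 h6
            · by_cases h5 : j ∈ Jq
              · rw [n4 j h5, mem_singleton] at hj
                exact hq2 i h3' j h5 hij (hi ▸ hj)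
              · rw [n1 j h2 h4 h5] at hj
                exact absurd hj (notMem_empty _)
          · rw [n1 i h1 h3 h3'] at hi
            exact absurd hi (notMem_empty _)
  refine ⟨fun j => n j ∪ (o j \ D), fun j => ?_, fun i j hij => ?_, fun j => ?_⟩
  · show Good W σ A j (n j ∪ (o j \ D))
    by_cases h2 : j ∈ In
    · have h3 := (mem_filter.1 h2).2.D
      rw [← hD] at h3
      rw [h3, union_empty, n2 j h2]
      obtain ⟨a, b, _, h3, ha, hb, hab⟩ := hφ3 j h2
      rw [h3]
      have h0 := (mem_filter.1 h2).2.1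
      have ha' := mem_Pe.1 ha
      have hb' := mem_Qe.1 hb
      refine good_pair hN.sym ha'.1 hb'.1 (De_ne (Pe_sub ha) h0) (De_ne (Qe_sub hb) h0) ?_ hab
      rw [ha'.2 j, hb'.2 j]
      exact fun h => fl_ne h0 h.symm
    · by_cases h3 : j ∈ Jp
      · rw [n3 j h3]
        exact K.good hN Pe_sub (fun a ha b hb i =>
          ((mem_Pe.1 ha).2 i).trans ((mem_Pe.1 hb).2 i).symm) (mem_filter.1 h3).2
          (mem_sdiff.1 (hp1 j h3)).1
      · by_cases h4 : j ∈ Jq
        · rw [n4 j h4]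
          exact K.good hN Qe_sub (fun a ha b hb i =>
            ((mem_Qe.1 ha).2 i).trans ((mem_Qe.1 hb).2 i).symm) (mem_filter.1 h4).2
            (mem_sdiff.1 (hq1 j h4)).1
        · rw [n1 j h2 h3 h4, empty_union]
          rcases hty j with h | h | h | h
          · obtain ⟨_, c, hc, hcD, h0, h⟩ := h
            left
            refine ⟨c, hc, h0, ?_⟩
            rw [h]
            ext v
            simp only [mem_sdiff, mem_singleton]
            constructor
            · exact fun h => h.1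
            · rintro rfl
              exact ⟨rfl, hcD⟩
          · exact absurd (mem_filter.2 ⟨mem_univ _, h⟩) h2
          · have h' : K W σ e (Pe W σ e) o j := h
            exact absurd (mem_filter.2 ⟨mem_univ _, h'⟩) h3
          · have h' : K W σ e (Qe W σ e) o j := h
            exact absurd (mem_filter.2 ⟨mem_univ _, h'⟩) h4
  · show Disjoint (n i ∪ (o i \ D)) (n j ∪ (o j \ D))
    rw [disjoint_left]
    intro v hv hv'
    rcases mem_union.1 hv with h1 | h1
    · rcases mem_union.1 hv' with h2 | h2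
      · exact ndis i j hij v h1 h2
      · exact (mem_sdiff.1 h2).2 (nD i h1)
    · rcases mem_union.1 hv' with h2 | h2
      · exact (mem_sdiff.1 h1).2 (nD j h2)
      · exact disjoint_left.1 (hdis i j hij) (mem_sdiff.1 h1).1 (mem_sdiff.1 h2).1

  · show (n j ∪ (o j \ D)).card ≤ (o j).card
    by_cases h2 : j ∈ In
    · have h3 := (mem_filter.1 h2).2.D
      rw [← hD] at h3
      rw [h3, union_empty, n2 j h2]
      obtain ⟨a, b, _, h4, _, _, _⟩ := hφ3 j h2
      obtain ⟨_, a', ha', b', hb', h5⟩ := (mem_filter.1 h2).2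
      rw [h4, h5, card_pair (fun h : a' = b' => hPQ a' ha' (h ▸ hb'))]
      exact card_le_two
    · have key : ∀ v, (∃ d ∈ D, d ∈ o j) → ({v} ∪ (o j \ D)).card ≤ (o j).card := by
        rintro v ⟨d, hd, hdo⟩
        have h3 : (o j \ D).card < (o j).card :=
          card_lt_card ⟨sdiff_subset, fun hsub => (mem_sdiff.1 (hsub hdo)).2 hd⟩
        have h4 := card_union_le {v} (o j \ D)
        rw [card_singleton] at h4
        omega
      by_cases h3 : j ∈ Jp
      · rw [n3 j h3]
        obtain ⟨d, hd, h⟩ := (mem_filter.1 h3).2.ex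
        exact key _ ⟨d, Pe_sub hd, h⟩
      · by_cases h4 : j ∈ Jq
        · rw [n4 j h4]
          obtain ⟨d, hd, h⟩ := (mem_filter.1 h4).2.ex
          exact key _ ⟨d, Qe_sub hd, h⟩
        · rw [n1 j h2 h3 h4, empty_union]
          exact card_le_card sdiff_subset

end Pool.Agent.Helper878_bk
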