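import Pool.Agent.Helper878_bk.Abs
import Pool.Agent.Helper878_bk.Lab

/-!
# Exchanges around a bad index
-/

set_option autoImplicit false
set_option linter.unusedSectionVars false

namespace Pool.Agent.Helper878_bk

open Finset Pool.Agent.Helper878_mm Pool.Agent.Helper878_bs Pool.Agent.Helper878_bj
open Pool.Agent.Helper878_dcs (Assign)
open scoped Classical

variable {ι : Type} [DecidableEq ι] [Fintype ι]
variable {W : Finset ℕ} {σ : ι → ℕ → Fin 3} {A : ℕ → ℕ → Prop}

/-- a bad index with its two vertices -/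
structure St (W : Finset ℕ) (σ : ι → ℕ → Fin 3) (A : ℕ → ℕ → Prop) (o : ι → Finset ℕ) (i : ι)
    (x y : ℕ) : Prop where
  min : MinRel W σ A o
  os : o i = {x, y}
  hx : x ∈ W
  hy : y ∈ W
  ne : x ≠ y
  n0 : σ i x ≠ 0
  na : ¬ A x y

/-- two adjacent vertices serve an index unless they have the same nonzero label -/
theorem can (hN : HN W σ A) {i : ι} {u v : ℕ} (hu : u ∈ W) (hv : v ∈ W) (hA : A u v)
    (h : ¬ (σ i u = σ i v ∧ σ i u ≠ 0)) : ∃ p ⊆ ({u, v} : Finset ℕ), Good W σ A i p := by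
  by_cases h0 : σ i u = 0
  · exact ⟨{u}, by simp, Or.inl ⟨u, hu, h0, rfl⟩⟩
  by_cases h1 : σ i v = 0
  · exact ⟨{v}, by simp, Or.inl ⟨v, hv, h1, rfl⟩⟩
  exact ⟨{u, v}, Subset.refl _, good_pair hN.sym hu hv h0 h1 (fun e => h ⟨e, h0⟩) hA⟩

theorem good_adj (hN : HN W σ A) {i : ι} {a b : ℕ} (hab : a ≠ b) (h : Good W σ A i {a, b}) :
    A a b := by
  rcases h with ⟨c, _, _, hc⟩ | ⟨u, _, v, _, h1, h2, h3, h4⟩
  · have := congrArg Finset.card hc
    rw [card_pair hab, card_singleton] at this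
    omega
  · have hx : a ∈ ({u, v} : Finset ℕ) := by rw [← h4]; simp
    have hy : b ∈ ({u, v} : Finset ℕ) := by rw [← h4]; simp
    simp only [mem_insert, mem_singleton] at hx hy
    rcases hx with rfl | rfl <;> rcases hy with rfl | rfl
    · exact absurd rfl hab
    · exact h3
    · exact hN.sym _ _ h3
    · exact absurd rfl hab

theorem opt_pair {i : ι} {a b : ℕ} (ha : a ∈ W) (hb : b ∈ W) (h1 : σ i a ≠ 0) (h2 : σ i b ≠ 0)
    (h3 : σ i a ≠ σ i b) : IsOpt W σ i {a, b} := by
  rcases fin3 (σ i a) with e | e | e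
  · exact absurd e h1
  · rcases fin3 (σ i b) with f | f | f
    · exact absurd f h2
    · exact absurd (e.trans f.symm) h3
    · exact Or.inr ⟨a, ha, b, hb, e, f, rfl⟩
  · rcases fin3 (σ i b) with f | f | f
    · exact absurd f h2
    · exact Or.inr ⟨b, hb, a, ha, f, e, pair_comm a b⟩
    · exact absurd (e.trans f.symm) h3

section
variable {o : ι → Finset ℕ} {i : ι} {x y : ℕ}

theorem St.bad (h : St W σ A o i x y) (hN : HN W σ A) : i ∈ Vb W σ A o := by
  rw [mem_Vb, h.os]
  exact fun hg => h.na (good_adj hN h.ne hg)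

theorem St.opp (h : St W σ A o i x y) (hN : HN W σ A) (l : ι) : σ l y = fl (σ l x) :=
  hN.opp x h.hx y h.hy h.ne h.na l

theorem St.mx (h : St W σ A o i x y) : x ∈ o i := by rw [h.os]; simp

theorem St.my (h : St W σ A o i x y) : y ∈ o i := by rw [h.os]; simp

theorem St.xP (h : St W σ A o i x y) : x ∈ Pe W σ x := mem_Pe.2 ⟨h.hx, fun _ => rfl⟩

theorem St.yQ (h : St W σ A o i x y) (hN : HN W σ A) : y ∈ Qe W σ x :=
  mem_Qe.2 ⟨h.hy, h.opp hN⟩

/-- exchanging the options of the indices of `K` -/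
theorem exch (hm : MinRel W σ A o) (hi : i ∈ Vb W σ A o) (K : Finset ι) (hiK : i ∈ K)
    (n : ι → Finset ℕ) (h1 : ∀ j ∈ K, Good W σ A j (n j))
    (h2 : ∀ j ∈ K, ∀ v ∈ n j, ∃ k ∈ K, v ∈ o k)
    (h3 : ∀ j ∈ K, ∀ k ∈ K, j ≠ k → Disjoint (n j) (n k)) : False := by
  have key : ∀ j ∈ K, ∀ k, k ∉ K → Disjoint (n j) (o k) := by
    intro j hj k hk
    rw [disjoint_left]
    intro v hv hv'
    obtain ⟨l, hl, hvl⟩ := h2 j hj v hv
    exact disjoint_left.1 (hm.rel.dis l k fun e => hk (e ▸ hl)) hvl hv'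
  have hr : Rel W σ (fun j => if j ∈ K then n j else o j) := by
    refine ⟨fun j => ?_, fun j k hjk => ?_⟩
    · by_cases hj : j ∈ K
      · rw [if_pos hj]; exact (h1 j hj).isOpt
      · rw [if_neg hj]; exact hm.rel.opt j
    · by_cases hj : j ∈ K <;> by_cases hk : k ∈ K
      · rw [if_pos hj, if_pos hk]; exact h3 j hj k hk hjk
      · rw [if_pos hj, if_neg hk]; exact key j hj k hk
      · rw [if_neg hj, if_pos hk]; exact (key k hk j hj).symm
      · rw [if_neg hj, if_neg hk]; exact hm.rel.dis j k hjk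
  refine hm.no_imp hi hr ?_ ?_
  · rw [if_pos hiK]; exact h1 i hiK
  · intro k hk
    by_cases hkK : k ∈ K
    · rw [if_pos hkK]; exact h1 k hkK
    · rw [if_neg hkK]
      by_contra hn
      exact hk (mem_Vb.2 hn)

theorem exch2 (hm : MinRel W σ A o) (hi : i ∈ Vb W σ A o) {j : ι} (hij : i ≠ j)
    {s t : Finset ℕ} (hs : Good W σ A i s) (ht : Good W σ A j t)
    (h1 : ∀ v ∈ s, v ∈ o i ∨ v ∈ o j) (h2 : ∀ v ∈ t, v ∈ o i ∨ v ∈ o j) (hd : Disjoint s t) :
    False := by
  refine exch hm hi {i, j} (by simp) (fun l => if l = i then s else t) ?_ ?_ ?_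
  · intro l hl
    simp only [mem_insert, mem_singleton] at hl
    rcases hl with rfl | rfl
    · rw [if_pos rfl]; exact hs
    · rw [if_neg hij.symm]; exact ht
  · intro l hl v hv
    simp only [mem_insert, mem_singleton] at hl
    have hv' : v ∈ o i ∨ v ∈ o j := by
      rcases hl with rfl | rfl
      · rw [if_pos rfl] at hv; exact h1 v hv
      · rw [if_neg hij.symm] at hv; exact h2 v hv
    rcases hv' with h | h
    · exact ⟨i, by simp, h⟩
    · exact ⟨j, by simp, h⟩
  · intro l hl k hk hlk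
    simp only [mem_insert, mem_singleton] at hl hk
    rcases hl with rfl | rfl <;> rcases hk with rfl | rfl
    · exact absurd rfl hlk
    · rw [if_pos rfl, if_neg hij.symm]; exact hd
    · rw [if_pos rfl, if_neg hij.symm]; exact hd.symm
    · exact absurd rfl hlk

theorem exch3 (hm : MinRel W σ A o) (hi : i ∈ Vb W σ A o) {j l : ι} (hij : i ≠ j) (hil : i ≠ l)
    (hjl : j ≠ l) {s t r : Finset ℕ} (hs : Good W σ A i s) (ht : Good W σ A j t)
    (hr : Good W σ A l r) (h1 : ∀ v ∈ s, v ∈ o i ∨ v ∈ o j ∨ v ∈ o l)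
    (h2 : ∀ v ∈ t, v ∈ o i ∨ v ∈ o j ∨ v ∈ o l) (h3 : ∀ v ∈ r, v ∈ o i ∨ v ∈ o j ∨ v ∈ o l)
    (d1 : Disjoint s t) (d2 : Disjoint s r) (d3 : Disjoint t r) : False := by
  refine exch hm hi {i, j, l} (by simp) (fun m => if m = i then s else if m = j then t else r)
    ?_ ?_ ?_
  · intro m hm
    simp only [mem_insert, mem_singleton] at hm
    rcases hm with rfl | rfl | rfl
    · rw [if_pos rfl]; exact hs
    · rw [if_neg hij.symm, if_pos rfl]; exact ht
    · rw [if_neg hil.symm, if_neg hjl.symm]; exact hr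
  · intro m hm v hv
    simp only [mem_insert, mem_singleton] at hm
    have hv' : v ∈ o i ∨ v ∈ o j ∨ v ∈ o l := by
      rcases hm with rfl | rfl | rfl
      · rw [if_pos rfl] at hv; exact h1 v hv
      · rw [if_neg hij.symm, if_pos rfl] at hv; exact h2 v hv
      · rw [if_neg hil.symm, if_neg hjl.symm] at hv; exact h3 v hv
    rcases hv' with h | h | h
    · exact ⟨i, by simp, h⟩
    · exact ⟨j, by simp, h⟩
    · exact ⟨l, by simp, h⟩
  · intro m hm k hk hmk
    simp only [mem_insert, mem_singleton] at hm hk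
    rcases hm with rfl | rfl | rfl <;> rcases hk with rfl | rfl | rfl
    · exact absurd rfl hmk
    · rw [if_pos rfl, if_neg hij.symm, if_pos rfl]; exact d1
    · rw [if_pos rfl, if_neg hil.symm, if_neg hjl.symm]; exact d2
    · rw [if_pos rfl, if_neg hij.symm, if_pos rfl]; exact d1.symm
    · exact absurd rfl hmk
    · rw [if_neg hij.symm, if_pos rfl, if_neg hil.symm, if_neg hjl.symm]; exact d3
    · rw [if_pos rfl, if_neg hil.symm, if_neg hjl.symm]; exact d2.symm
    · rw [if_neg hij.symm, if_pos rfl, if_neg hil.symm, if_neg hjl.symm]; exact d3.symm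
    · exact absurd rfl hmk

/-- An index with a pair outside the classes of a bad index. -/
theorem St.stuck (h : St W σ A o i x y) (hN : HN W σ A) {j : ι} (hij : i ≠ j) {a b : ℕ}
    (hj : o j = {a, b}) (ha : a ∈ W) (hb : b ∈ W) (a0 : σ j a ≠ 0) (b0 : σ j b ≠ 0)
    (hab : σ j a ≠ σ j b) (haD : a ∉ De W σ x) (hbD : b ∉ De W σ x) :
    σ j x ≠ 0 ∧ σ i a ≠ 0 ∧ σ i b ≠ 0 ∧ σ i a ≠ σ i b ∧ (σ i x = σ i a ↔ σ j x ≠ σ j a) := by
  have hxD : x ∈ De W σ x := Pe_sub h.xP
  have hyD : y ∈ De W σ x := Qe_sub (h.yQ hN)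
  have hne : a ≠ b := fun e => hab (by rw [e])
  have ma : a ∈ o j := by rw [hj]; simp
  have mb : b ∈ o j := by rw [hj]; simp
  have mk : ∀ u v c d : ℕ, u ∈ o i → v ∈ o i → c ∈ o j → d ∈ o j → u ≠ v → c ≠ d → u ∈ W →
      v ∈ W → c ∈ W → d ∈ W → A u c → A v d → (σ i u = σ i c ∧ σ i u ≠ 0) ∨
      (σ j v = σ j d ∧ σ j v ≠ 0) := by
    intro u v c d hu hv hc hd huv hcd uW vW cW dW huc hvd
    by_contra hno
    rw [not_or] at hno
    obtain ⟨p, hp, gp⟩ := can hN uW cW huc hno.1
    obtain ⟨q, hq, gq⟩ := can hN vW dW hvd hno.2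
    have hdis := h.min.rel.dis i j hij
    refine exch2 h.min (h.bad hN) hij gp gq ?_ ?_ ?_
    · intro w hw
      have := hp hw
      simp only [mem_insert, mem_singleton] at this
      rcases this with rfl | rfl
      · exact Or.inl hu
      · exact Or.inr hc
    · intro w hw
      have := hq hw
      simp only [mem_insert, mem_singleton] at this
      rcases this with rfl | rfl
      · exact Or.inl hv
      · exact Or.inr hd
    · refine disjoint_of_subset_left hp (disjoint_of_subset_right hq ?_)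
      rw [disjoint_left]
      intro w hw hw'
      simp only [mem_insert, mem_singleton] at hw hw'
      rcases hw with rfl | rfl <;> rcases hw' with h' | h'
      · exact huv h'
      · exact disjoint_left.1 hdis hu (h' ▸ hd)
      · exact disjoint_left.1 hdis hv (h' ▸ hc)
      · exact hcd h'
  have xa := out_adj hN hxD ha haD
  have xb := out_adj hN hxD hb hbD
  have ya := out_adj hN hyD ha haD
  have yb := out_adj hN hyD hb hbD
  have n1 := mk x y a b h.mx h.my ma mb h.ne hne h.hx h.hy ha hb xa yb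
  have n2 := mk y x a b h.my h.mx ma mb h.ne.symm hne h.hy h.hx ha hb ya xb
  have n3 := mk x y b a h.mx h.my mb ma h.ne hne.symm h.hx h.hy hb ha xb ya
  have n4 := mk y x b a h.my h.mx mb ma h.ne.symm hne.symm h.hy h.hx hb ha yb xa
  rw [h.opp hN] at n1 n2 n3 n4
  exact stuck_labels _ _ _ _ _ _ h.n0 a0 b0 hab n1 n2 n3 n4

end

end Pool.Agent.Helper878_bk
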