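import Pool.Agent.Helper878_bk.Tight

/-!
# More exchanges around a bad index
-/

set_option autoImplicit false
set_option linter.unusedSectionVars false

namespace Pool.Agent.Helper878_bk

open Finset Pool.Agent.Helper878_mm Pool.Agent.Helper878_bs Pool.Agent.Helper878_bj
open Pool.Agent.Helper878_dcs (Assign)
open scoped Classical

variable {ι : Type} [DecidableEq ι] [Fintype ι]
variable {W : Finset ℕ} {σ : ι → ℕ → Fin 3} {A : ℕ → ℕ → Prop}
variable {o : ι → Finset ℕ} {i : ι} {x y : ℕ}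

/-- the index `j` has the pair `a`, `b` -/
structure Pr2 (W : Finset ℕ) (σ : ι → ℕ → Fin 3) (o : ι → Finset ℕ) (j : ι) (a b : ℕ) : Prop where
  os : o j = {a, b}
  ha : a ∈ W
  hb : b ∈ W
  a0 : σ j a ≠ 0
  b0 : σ j b ≠ 0
  ab : σ j a ≠ σ j b

theorem Pr2.ne {j : ι} {a b : ℕ} (h : Pr2 W σ o j a b) : a ≠ b := fun e => h.ab (by rw [e])

/-- moving the bad pair to another index -/
theorem St.swap (h : St W σ A o i x y) (hN : HN W σ A) {j : ι} (hij : i ≠ j) {a b : ℕ}
    (hj : Pr2 W σ o j a b) (h1 : σ i a ≠ 0) (h2 : σ i b ≠ 0) (h3 : σ i a ≠ σ i b)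
    (h4 : σ j x ≠ 0) : St W σ A (fun l => o (Equiv.swap i j l)) j x y := by
  have ei : Equiv.swap i j i = j := Equiv.swap_apply_left i j
  have ej : Equiv.swap i j j = i := Equiv.swap_apply_right i j
  have eo : ∀ l, l ≠ i → l ≠ j → Equiv.swap i j l = l := fun l => Equiv.swap_apply_of_ne_of_ne
  have hxy : σ j x ≠ σ j y := by
    rw [h.opp hN j]
    exact (fl_ne h4).symm
  have hy0 : σ j y ≠ 0 := by
    rw [h.opp hN j, Ne, fl_zero]
    exact h4
  have hr : Rel W σ (fun l => o (Equiv.swap i j l)) := by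
    refine ⟨fun l => ?_, fun k l hkl => h.min.rel.dis _ _ fun e =>
      hkl ((Equiv.swap i j).injective e)⟩
    by_cases hl : l = i
    · rw [hl, ei, hj.os]
      exact opt_pair hj.ha hj.hb h1 h2 h3
    · by_cases hl' : l = j
      · rw [hl', ej, h.os]
        exact opt_pair h.hx h.hy h4 hy0 hxy
      · rw [eo l hl hl']
        exact h.min.rel.opt l
  refine ⟨⟨hr, fun o' ho' => ?_⟩, ?_, h.hx, h.hy, h.ne, h4, h.na⟩
  · refine le_trans ?_ (h.min.min o' ho')
    refine card_le_card_of_injOn (fun l => Equiv.swap i j l) (fun l hl => ?_)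
      (fun a _ b _ hab => (Equiv.swap i j).injective hab)
    have hl' : ¬ Good W σ A l (o (Equiv.swap i j l)) := mem_Vb.1 hl
    show Equiv.swap i j l ∈ Vb W σ A o
    by_cases e1 : l = i
    · rw [e1, ei, hj.os] at hl'
      rw [e1, ei, mem_Vb, hj.os]
      intro hg
      exact hl' (good_pair hN.sym hj.ha hj.hb h1 h2 h3 (good_adj hN hj.ne hg))
    · by_cases e2 : l = j
      · rw [e2, ej]
        exact h.bad hN
      · rw [eo l e1 e2] at hl' ⊢
        exact mem_Vb.2 hl'
  · show o (Equiv.swap i j j) = {x, y}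
    rw [ej, h.os]

/-- a pair outside the classes -/
def Out (W : Finset ℕ) (σ : ι → ℕ → Fin 3) (x a b : ℕ) : Prop := a ∉ De W σ x ∧ b ∉ De W σ x

/-- a pair in the classes -/
def Ins (W : Finset ℕ) (σ : ι → ℕ → Fin 3) (x a b : ℕ) : Prop := a ∈ De W σ x ∧ b ∈ De W σ x

theorem St.sw (h : St W σ A o i x y) (hN : HN W σ A) {j : ι} (hij : i ≠ j) {a b : ℕ}
    (hj : Pr2 W σ o j a b) (hab : Out W σ x a b ∨ Ins W σ x a b) :
    σ i a ≠ 0 ∧ σ i b ≠ 0 ∧ σ i a ≠ σ i b ∧ σ j x ≠ 0 := by
  rcases hab with hab | hab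
  · obtain ⟨h1, h2, h3, h4, _⟩ := h.stuck hN hij hj.os hj.ha hj.hb hj.a0 hj.b0 hj.ab hab.1 hab.2
    exact ⟨h2, h3, h4, h1⟩
  · have hjx : σ j x ≠ 0 := fun e => hj.a0 (De_zero hab.1 e)
    refine ⟨De_ne hab.1 h.n0, De_ne hab.2 h.n0, ?_, hjx⟩
    rcases mem_De.1 hab.1 with ha | ha <;> rcases mem_De.1 hab.2 with hb | hb
    · exact absurd (((mem_Pe.1 ha).2 j).trans ((mem_Pe.1 hb).2 j).symm) hj.ab
    · rw [(mem_Pe.1 ha).2 i, (mem_Qe.1 hb).2 i]
      exact (fl_ne h.n0).symm
    · rw [(mem_Qe.1 ha).2 i, (mem_Pe.1 hb).2 i]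
      exact fl_ne h.n0
    · exact absurd (((mem_Qe.1 ha).2 j).trans ((mem_Qe.1 hb).2 j).symm) hj.ab

/-- There are no two other indices with pairs, one of them outside the classes. -/
theorem St.three (h : St W σ A o i x y) (hN : HN W σ A) {j k : ι} (hij : i ≠ j) (hik : i ≠ k)
    (hjk : j ≠ k) {a b c d : ℕ} (hj : Pr2 W σ o j a b) (hk : Pr2 W σ o k c d)
    (hab : Out W σ x a b) (hcd : Out W σ x c d ∨ Ins W σ x c d) : False := by
  obtain ⟨b1, b2, b3, b4, b5⟩ := h.stuck hN hij hj.os hj.ha hj.hb hj.a0 hj.b0 hj.ab hab.1 hab.2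
  obtain ⟨c1, c2, c3, c4⟩ := h.sw hN hik hk hcd
  -- the bad pair at `k`
  have s1 := h.swap hN hik hk c1 c2 c3 c4
  have e1 : (fun l => o (Equiv.swap i k l)) j = {a, b} := by
    show o (Equiv.swap i k j) = {a, b}
    rw [Equiv.swap_apply_of_ne_of_ne hij.symm hjk, hj.os]
  obtain ⟨_, _, _, _, d5⟩ := s1.stuck hN hjk.symm e1 hj.ha hj.hb hj.a0 hj.b0 hj.ab hab.1 hab.2
  -- the bad pair at `j`
  have s2 := h.swap hN hij hj b2 b3 b4 b1
  have hk2 : Pr2 W σ (fun l => o (Equiv.swap i j l)) k c d :=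
    ⟨by
      show o (Equiv.swap i j k) = {c, d}
      rw [Equiv.swap_apply_of_ne_of_ne hik.symm hjk.symm, hk.os],
      hk.ha, hk.hb, hk.a0, hk.b0, hk.ab⟩
  obtain ⟨f1, f2, f3, f4⟩ := s2.sw hN hjk hk2 hcd
  have s3 := s2.swap hN hjk hk2 f1 f2 f3 f4
  have e3 : (fun l => (fun l => o (Equiv.swap i j l)) (Equiv.swap j k l)) i = {a, b} := by
    show o (Equiv.swap i j (Equiv.swap j k i)) = {a, b}
    rw [Equiv.swap_apply_of_ne_of_ne hij hik, Equiv.swap_apply_left, hj.os]
  obtain ⟨_, _, _, _, g5⟩ := s3.stuck hN hik.symm e3 hj.ha hj.hb b2 b3 b4 hab.1 hab.2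
  tauto

/-- An index with one vertex outside the classes. -/
theorem St.single (h : St W σ A o i x y) (hN : HN W σ A) {j : ι} (hij : i ≠ j) {c : ℕ}
    (hj : o j = {c}) (hc : c ∈ W) (hcD : c ∉ De W σ x) : σ j x ≠ 0 := by
  intro h0
  have hxD : x ∈ De W σ x := Pe_sub h.xP
  have hyD : y ∈ De W σ x := Qe_sub (h.yQ hN)
  have h0' : σ j y = 0 := by rw [h.opp hN j, h0]; rfl
  have mc : c ∈ o j := by rw [hj]; simp
  have hdis := h.min.rel.dis i j hij
  have mk : ∀ u v : ℕ, u ∈ o i → v ∈ o i → u ≠ v → u ∈ W → v ∈ W → A u c → σ j v = 0 →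
      σ i u = σ i c := by
    intro u v hu hv huv uW vW huc hv0
    by_contra hne
    obtain ⟨p, hp, gp⟩ := can hN uW hc huc (fun e => hne e.1)
    refine exch2 h.min (h.bad hN) hij gp (t := {v}) (Or.inl ⟨v, vW, hv0, rfl⟩) ?_ ?_ ?_
    · intro w hw
      have := hp hw
      simp only [mem_insert, mem_singleton] at this
      rcases this with rfl | rfl
      · exact Or.inl hu
      · exact Or.inr mc
    · intro w hw
      rw [mem_singleton] at hw
      exact Or.inl (hw ▸ hv)
    · rw [disjoint_singleton_right]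
      intro hv'
      have := hp hv'
      simp only [mem_insert, mem_singleton] at this
      rcases this with e | e
      · exact huv e.symm
      · exact disjoint_left.1 hdis hv (e ▸ mc)
  have n1 := mk x y h.mx h.my h.ne h.hx h.hy (out_adj hN hxD hc hcD) h0'
  have n2 := mk y x h.my h.mx h.ne.symm h.hy h.hx (out_adj hN hyD hc hcD) h0
  have n3 := n2.trans n1.symm
  rw [h.opp hN i] at n3
  exact fl_ne h.n0 n3

/-- An index with one vertex in the classes, besides an index with a pair outside. -/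
theorem St.inner (h : St W σ A o i x y) (hN : HN W σ A) {j l : ι} (hij : i ≠ j) (hil : i ≠ l)
    (hjl : j ≠ l) {a b c : ℕ} (hj : Pr2 W σ o j a b) (hab : Out W σ x a b) (hl : o l = {c})
    (hcD : c ∈ De W σ x) (h0 : σ l x = 0) : False := by
  obtain ⟨b1, b2, b3, b4, b5⟩ := h.stuck hN hij hj.os hj.ha hj.hb hj.a0 hj.b0 hj.ab hab.1 hab.2
  have hxD : x ∈ De W σ x := Pe_sub h.xP
  have hyD : y ∈ De W σ x := Qe_sub (h.yQ hN)
  have h0' : σ l y = 0 := by rw [h.opp hN l, h0]; rfl
  have cW : c ∈ W := De_sub hcD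
  have mc : c ∈ o l := by rw [hl]; simp
  have ma : a ∈ o j := by rw [hj.os]; simp
  have mb : b ∈ o j := by rw [hj.os]; simp
  have d1 := h.min.rel.dis i j hij
  have d2 := h.min.rel.dis i l hil
  have d3 := h.min.rel.dis j l hjl
  -- `u`, `r` for `i`, `c`, `s` for `j` and `v` for `l`
  have mk : ∀ u v r s : ℕ, u ∈ o i → v ∈ o i → r ∈ o j → s ∈ o j → u ≠ v → r ≠ s → u ∈ W →
      v ∈ W → r ∈ W → s ∈ W → A u r → A c s → σ l v = 0 → σ i u ≠ σ i r → σ j c ≠ σ j s →
      False := by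
    intro u v r s hu hv hr hs huv hrs uW vW rW sW hur hcs hv0 n1 n2
    obtain ⟨p, hp, gp⟩ := can hN uW rW hur (fun e => n1 e.1)
    obtain ⟨q, hq, gq⟩ := can hN cW sW hcs (fun e => n2 e.1)
    refine exch3 h.min (h.bad hN) hij hil hjl gp gq (r := {v}) (Or.inl ⟨v, vW, hv0, rfl⟩)
      ?_ ?_ ?_ ?_ ?_ ?_
    · intro w hw
      have := hp hw
      simp only [mem_insert, mem_singleton] at this
      rcases this with rfl | rfl
      · exact Or.inl hu
      · exact Or.inr (Or.inl hr)
    · intro w hw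
      have := hq hw
      simp only [mem_insert, mem_singleton] at this
      rcases this with rfl | rfl
      · exact Or.inr (Or.inr mc)
      · exact Or.inr (Or.inl hs)
    · intro w hw
      rw [mem_singleton] at hw
      exact Or.inl (hw ▸ hv)
    · refine disjoint_of_subset_left hp (disjoint_of_subset_right hq ?_)
      rw [disjoint_left]
      intro w hw hw'
      simp only [mem_insert, mem_singleton] at hw hw'
      rcases hw with rfl | rfl <;> rcases hw' with h' | h'
      · exact disjoint_left.1 d2 hu (h' ▸ mc)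
      · exact disjoint_left.1 d1 hu (h' ▸ hs)
      · exact disjoint_left.1 d3 hr (h' ▸ mc)
      · exact hrs h'
    · rw [disjoint_singleton_right]
      intro hv'
      have := hp hv'
      simp only [mem_insert, mem_singleton] at this
      rcases this with e | e
      · exact huv e.symm
      · exact disjoint_left.1 d1 hv (e ▸ hr)
    · rw [disjoint_singleton_right]
      intro hv'
      have := hq hv'
      simp only [mem_insert, mem_singleton] at this
      rcases this with e | e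
      · exact disjoint_left.1 d2 hv (e ▸ mc)
      · exact disjoint_left.1 d1 hv (e ▸ hs)
  have xa := out_adj hN hxD hj.ha hab.1
  have xb := out_adj hN hxD hj.hb hab.2
  have ya := out_adj hN hyD hj.ha hab.1
  have yb := out_adj hN hyD hj.hb hab.2
  have ca := out_adj hN hcD hj.ha hab.1
  have cb := out_adj hN hcD hj.hb hab.2
  have hne := hj.ne
  have hiy := h.opp hN i
  have hjy := h.opp hN j
  rcases mem_De.1 hcD with hcP | hcQ
  · have hjc := (mem_Pe.1 hcP).2 j
    by_cases e : σ i x = σ i a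
    · have e2 := b5.1 e
      exact mk x y b a h.mx h.my mb ma h.ne hne.symm h.hx h.hy hj.hb hj.ha xb ca h0'
        (fun e3 => b4 (e.symm.trans e3)) (fun e3 => e2 (hjc.symm.trans e3))
    · have e2 : σ j x = σ j a := by
        by_contra e3
        exact e (b5.2 e3)
      exact mk x y a b h.mx h.my ma mb h.ne hne h.hx h.hy hj.ha hj.hb xa cb h0' e
        (fun e3 => hj.ab (e2.symm.trans (hjc.symm.trans e3)))
  · have hjc : σ j c = σ j y := by rw [(mem_Qe.1 hcQ).2 j, hjy]
    have hiy' : σ i y ≠ σ i x := by rw [hiy]; exact fl_ne h.n0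
    have hjy' : σ j y ≠ σ j x := by rw [hjy]; exact fl_ne b1
    have hiy0 : σ i y ≠ 0 := by rw [hiy, Ne, fl_zero]; exact h.n0
    have hjy0 : σ j y ≠ 0 := by rw [hjy, Ne, fl_zero]; exact b1
    by_cases e : σ i x = σ i a
    · -- `y`, `a` and `c`, `b`
      have e2 := b5.1 e
      have e4 : σ j y = σ j a := by
        rw [hjy]
        exact (eq_fl b1 hj.a0 e2).symm
      exact mk y x a b h.my h.mx ma mb h.ne.symm hne h.hy h.hx hj.ha hj.hb ya cb h0
        (fun e3 => hiy' (e3.trans e.symm)) (fun e3 => hj.ab (e4.symm.trans (hjc.symm.trans e3)))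
    · have e2 : σ j x = σ j a := by
        by_contra e3
        exact e (b5.2 e3)
      have e4 : σ i y = σ i a := by
        rw [hiy]
        exact (eq_fl h.n0 b2 e).symm
      exact mk y x b a h.my h.mx mb ma h.ne.symm hne.symm h.hy h.hx hj.hb hj.ha yb ca h0
        (fun e3 => b4 (e4.symm.trans e3)) (fun e3 => hjy' (hjc.symm.trans (e3.trans e2.symm)))

end Pool.Agent.Helper878_bk
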