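import Pool.Agent.Helper878_bk.Tight2

/-!
# Without exceptional directions
-/

set_option autoImplicit false
set_option linter.unusedSectionVars false

namespace Pool.Agent.Helper878_bk

open Finset Pool.Agent.Helper878_mm Pool.Agent.Helper878_bs Pool.Agent.Helper878_bj
open Pool.Agent.Helper878_dcs (Assign)
open scoped Classical

variable {ι : Type} [DecidableEq ι] [Fintype ι]
variable {W : Finset ℕ} {σ : ι → ℕ → Fin 3} {A : ℕ → ℕ → Prop}

/-- an exceptional direction -/
structure Exc (W : Finset ℕ) (σ : ι → ℕ → Fin 3) (A : ℕ → ℕ → Prop) (e : ℕ) : Prop where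
  nz : ∀ i, σ i e ≠ 0
  card : W.card = Fintype.card ι + (De W σ e).card
  le : (De W σ e).card ≤ Fintype.card ι
  opp : (Qe W σ e).Nonempty
  anti : ∀ u ∈ Pe W σ e, ∀ v ∈ Qe W σ e, ¬ A u v
  blk : ∃ i j : ι, ∃ a ∈ W, ∃ b ∈ W, σ i a = σ i e ∧ σ i b = fl (σ i e) ∧
    σ j a = fl (σ j e) ∧ σ j b = σ j e

/-- the shape of an option -/
theorem shape {o : ι → Finset ℕ} {i : ι} {x y : ℕ} (h : St W σ A o i x y) (hN : HN W σ A)
    (j : ι) : Ty W σ x o j ∨ ∃ a b, Pr2 W σ o j a b ∧ Out W σ x a b := by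
  by_cases hij : i = j
  · subst hij
    exact Or.inl (Or.inr (Or.inl ⟨h.n0, x, h.xP, y, h.yQ hN, h.os⟩))
  rcases h.min.rel.opt j with ⟨c, hc, h1, h2⟩ | ⟨a, ha, b, hb, h1, h2, h3⟩
  · left
    by_cases hcD : c ∈ De W σ x
    · have he0 : σ j x = 0 := by
        by_contra hne
        exact De_ne hcD hne h1
      rcases mem_De.1 hcD with h4 | h4
      · exact Or.inr (Or.inr (Or.inl (Or.inr ⟨he0, c, h4, h2⟩)))
      · exact Or.inr (Or.inr (Or.inr (Or.inr ⟨he0, c, h4, h2⟩)))
    · exact Or.inl ⟨h.single hN hij h2 hc hcD, c, hc, hcD, h1, h2⟩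
  have ha0 : σ j a ≠ 0 := by rw [h1]; decide
  have hb0 : σ j b ≠ 0 := by rw [h2]; decide
  have hab : σ j a ≠ σ j b := by rw [h1, h2]; decide
  by_cases haD : a ∈ De W σ x
  · left
    have he0 : σ j x ≠ 0 := fun e => ha0 (De_zero haD e)
    by_cases hbD : b ∈ De W σ x
    · refine Or.inr (Or.inl ⟨he0, ?_⟩)
      rcases mem_De.1 haD with haP | haQ
      · rcases mem_De.1 hbD with hbP | hbQ
        · exact absurd (((mem_Pe.1 haP).2 j).trans ((mem_Pe.1 hbP).2 j).symm) hab
        · exact ⟨a, haP, b, hbQ, h3⟩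
      · rcases mem_De.1 hbD with hbP | hbQ
        · exact ⟨b, hbP, a, haQ, by rw [h3, pair_comm]⟩
        · exact absurd (((mem_Qe.1 haQ).2 j).trans ((mem_Qe.1 hbQ).2 j).symm) hab
    · rcases mem_De.1 haD with haP | haQ
      · exact Or.inr (Or.inr (Or.inl (Or.inl ⟨he0, a, haP, b, hb, hbD, hb0, hab, h3⟩)))
      · exact Or.inr (Or.inr (Or.inr (Or.inl ⟨he0, a, haQ, b, hb, hbD, hb0, hab, h3⟩)))
  · by_cases hbD : b ∈ De W σ x
    · left
      have he0 : σ j x ≠ 0 := fun e => hb0 (De_zero hbD e)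
      rcases mem_De.1 hbD with hbP | hbQ
      · exact Or.inr (Or.inr (Or.inl (Or.inl ⟨he0, b, hbP, a, ha, haD, ha0,
          fun h => hab h.symm, by rw [h3, pair_comm]⟩)))
      · exact Or.inr (Or.inr (Or.inr (Or.inl ⟨he0, b, hbQ, a, ha, haD, ha0,
          fun h => hab h.symm, by rw [h3, pair_comm]⟩)))
    · exact Or.inr ⟨a, b, ⟨h3, ha, hb, ha0, hb0, hab⟩, haD, hbD⟩

/-- The main argument without exceptional directions. -/
theorem main_tight (hN : HN W σ A) (hR : ∃ o, Rel W σ o) (hT : ∀ e ∈ W, Test W σ A e)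
    (hX : ∀ e ∈ W, ¬ Exc W σ A e) :
    ∃ o : ι → Finset ℕ, (∀ i, Good W σ A i (o i)) ∧ ∀ i j, i ≠ j → Disjoint (o i) (o j) := by
  by_cases hF : ∃ o, Rel W σ o ∧ Fr W o
  · obtain ⟨o, h1, h2, _⟩ := main_free hN hF hT
    exact ⟨o, h1, h2⟩
  obtain ⟨o, hm⟩ := exists_min (A := A) hR
  have hcov : ∀ w ∈ W, ∃ j, w ∈ o j := by
    intro w hw
    by_contra hno
    push Not at hno
    exact hF ⟨o, hm.rel, w, hw, hno⟩
  by_cases hV : (Vb W σ A o).Nonempty
  swap
  · refine ⟨o, fun i => ?_, hm.rel.dis⟩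
    by_contra hi
    exact hV ⟨i, mem_Vb.2 hi⟩
  obtain ⟨i, hi⟩ := hV
  obtain ⟨x, y, hxy, hnab⟩ := hN.ctx.bad (hm.rel.opt i) (mem_Vb.1 hi)
  have h : St W σ A o i x y :=
    ⟨hm, hxy.hs, hxy.ha, hxy.hb, hxy.ne, by rw [hxy.h1]; decide, hnab⟩
  by_cases hout : ∃ j a b, Pr2 W σ o j a b ∧ Out W σ x a b
  swap
  · refine recombine hN h.n0 hm.rel.dis (fun j => ?_) (fun f hf hfo => ?_) (hT x h.hx)
    · rcases shape h hN j with h1 | ⟨a, b, h1⟩
      · exact h1
      · exact absurd ⟨j, a, b, h1⟩ hout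
    · obtain ⟨j, hj⟩ := hcov f hf
      exact absurd hj (hfo j)
  obtain ⟨j, a, b, hj, hab⟩ := hout
  exfalso
  have hxD : x ∈ De W σ x := Pe_sub h.xP
  have hyD : y ∈ De W σ x := Qe_sub (h.yQ hN)
  have hoD : ∀ v ∈ o i, v ∈ De W σ x := by
    intro v hv
    rw [h.os] at hv
    simp only [mem_insert, mem_singleton] at hv
    rcases hv with rfl | rfl
    · exact hxD
    · exact hyD
  have hjD : ∀ v ∈ o j, v ∉ De W σ x := by
    intro v hv
    rw [hj.os] at hv
    simp only [mem_insert, mem_singleton] at hv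
    rcases hv with rfl | rfl
    · exact hab.1
    · exact hab.2
  have hij : i ≠ j := by
    rintro rfl
    exact hjD x h.mx hxD
  have hjx : σ j x ≠ 0 :=
    (h.stuck hN hij hj.os hj.ha hj.hb hj.a0 hj.b0 hj.ab hab.1 hab.2).1
  have nz : ∀ l, σ l x ≠ 0 := by
    intro l h0
    have hil : i ≠ l := fun e => h.n0 (e ▸ h0)
    have hjl : j ≠ l := fun e => hjx (e ▸ h0)
    rcases hm.rel.opt l with ⟨c, hc, h1, h2⟩ | ⟨c, hc, d, hd, h1, h2, h3⟩
    · by_cases hcD : c ∈ De W σ x
      · exact h.inner hN hij hil hjl hj hab h2 hcD h0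
      · exact h.single hN hil h2 hc hcD h0
    · have hc0 : σ l c ≠ 0 := by rw [h1]; decide
      have hd0 : σ l d ≠ 0 := by rw [h2]; decide
      have hcd : σ l c ≠ σ l d := by rw [h1, h2]; decide
      by_cases hcD : c ∈ De W σ x
      · exact hc0 (De_zero hcD h0)
      by_cases hdD : d ∈ De W σ x
      · exact hd0 (De_zero hdD h0)
      exact (h.stuck hN hil h3 hc hd hc0 hd0 hcd hcD hdD).1 h0
  -- the other options have exactly one vertex outside the classes
  have hpair : ∀ l, i ≠ l → j ≠ l → ∀ c d, Pr2 W σ o l c d →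
      (c ∈ De W σ x ∧ d ∉ De W σ x) ∨ (c ∉ De W σ x ∧ d ∈ De W σ x) := by
    intro l hil hjl c d hl
    by_cases hcD : c ∈ De W σ x <;> by_cases hdD : d ∈ De W σ x
    · exact absurd (h.three hN hij hil hjl hj hl hab (Or.inr ⟨hcD, hdD⟩)) not_false
    · exact Or.inl ⟨hcD, hdD⟩
    · exact Or.inr ⟨hcD, hdD⟩
    · exact absurd (h.three hN hij hil hjl hj hl hab (Or.inl ⟨hcD, hdD⟩)) not_false
  have hcW : W.card = Fintype.card ι + (De W σ x).card := by
    set D := De W σ x with hDdef
    have hDW : D ⊆ W := fun v hv => De_sub hv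
    have hone : ∀ l, (o l \ D).card + (if l = i then 1 else 0) = 1 + (if l = j then 1 else 0) := by
      intro l
      by_cases hil : i = l
      · subst hil
        rw [if_pos rfl, if_neg hij, sdiff_eq_empty_iff_subset.2 (fun v hv => hoD v hv)]
        simp
      by_cases hjl : j = l
      · subst hjl
        rw [if_neg hij.symm, if_pos rfl]
        have : o j \ D = o j := sdiff_eq_self_of_disjoint (disjoint_left.2 hjD)
        rw [this, hj.os, card_pair hj.ne]
      rw [if_neg (fun e => hil e.symm), if_neg (fun e => hjl e.symm)]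
      rcases hm.rel.opt l with ⟨c, hc, h1, h2⟩ | ⟨c, hc, d, hd, h1, h2, h3⟩
      · have hcD : c ∉ D := fun hcD => De_ne hcD (nz l) h1
        have : o l \ D = o l := sdiff_eq_self_of_disjoint (by
          rw [h2, disjoint_singleton_left]
          exact hcD)
        rw [this, h2, card_singleton]
      · have hl : Pr2 W σ o l c d := ⟨h3, hc, hd, by rw [h1]; decide, by rw [h2]; decide,
          by rw [h1, h2]; decide⟩
        rcases hpair l hil hjl c d hl with ⟨hcD, hdD⟩ | ⟨hcD, hdD⟩
        · rw [pair_D hcD hdD h3, card_singleton]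
        · rw [pair_D hdD hcD (h3.trans (pair_comm c d)), card_singleton]
    have hsum : ∑ l, (o l \ D).card = Fintype.card ι := by
      have h1 : ∑ l, ((o l \ D).card + (if l = i then 1 else 0)) =
          ∑ l : ι, (1 + (if l = j then 1 else 0)) := sum_congr rfl fun l _ => hone l
      rw [sum_add_distrib, sum_add_distrib] at h1
      simp only [sum_ite_eq', mem_univ, if_true, sum_const, card_univ, smul_eq_mul,
        mul_one] at h1
      omega
    have hun : W \ D = univ.biUnion fun l => o l \ D := by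
      ext w
      rw [mem_sdiff, mem_biUnion]
      constructor
      · rintro ⟨hw, hwD⟩
        obtain ⟨l, hl⟩ := hcov w hw
        exact ⟨l, mem_univ _, mem_sdiff.2 ⟨hl, hwD⟩⟩
      · rintro ⟨l, _, hl⟩
        rw [mem_sdiff] at hl
        exact ⟨opt_sub (hm.rel.opt l) hl.1, hl.2⟩
    have hcard : (W \ D).card = Fintype.card ι := by
      rw [hun, card_biUnion fun k _ l _ hkl => disjoint_of_subset_left sdiff_subset
        (disjoint_of_subset_right sdiff_subset (hm.rel.dis k l hkl)), hsum]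
    have := card_sdiff_add_card_eq_card hDW
    omega
  refine hX x h.hx ⟨nz, hcW, ?_, ⟨y, h.yQ hN⟩, ?_, ?_⟩
  · have h1 : W ⊆ univ.biUnion o := by
      intro w hw
      obtain ⟨l, hl⟩ := hcov w hw
      exact mem_biUnion.2 ⟨l, mem_univ _, hl⟩
    have h2 := (card_le_card h1).trans (card_biUnion_le_card_mul _ _ 2 fun l _ => by
      rcases hm.rel.opt l with ⟨c, _, _, h2⟩ | ⟨a, _, b, _, _, _, h2⟩
      · rw [h2]; simp
      · rw [h2]; exact card_le_two)
    rw [card_univ] at h2
    omega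
  · intro u hu v hv huv
    have hPQ : ∀ w, w ∈ Pe W σ x → w ∉ Qe W σ x := fun w hw => disj_PQ h.n0 hw
    have hxv : x ≠ v := fun e => hPQ x h.xP (e ▸ hv)
    have huv' : u ≠ v := fun e => hPQ u hu (e ▸ hv)
    have hlx : ∀ l, σ l x = σ l u := fun l => ((mem_Pe.1 hu).2 l).symm
    have hly : ∀ l, σ l y = σ l v := fun l => by rw [h.opp hN l, (mem_Qe.1 hv).2 l]
    set g : ℕ → ℕ := fun w => Equiv.swap x u (Equiv.swap y v w) with hg
    have hginj : Function.Injective g := (Equiv.swap x u).injective.comp (Equiv.swap y v).injective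
    have hlab : ∀ l w, σ l (g w) = σ l w := by
      intro l w
      have e1 : σ l (Equiv.swap y v w) = σ l w := by
        rw [Equiv.swap_apply_def]
        split_ifs with h1 h2
        · rw [h1, hly l]
        · rw [h2, hly l]
        · rfl
      have e2 : ∀ z, σ l (Equiv.swap x u z) = σ l z := by
        intro z
        rw [Equiv.swap_apply_def]
        split_ifs with h1 h2
        · rw [h1, hlx l]
        · rw [h2, hlx l]
        · rfl
      exact (e2 _).trans e1
    have hgW : ∀ w ∈ W, g w ∈ W := by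
      intro w hw
      have uW := (mem_Pe.1 hu).1
      have vW := (mem_Qe.1 hv).1
      have e1 : Equiv.swap y v w ∈ W := by
        rw [Equiv.swap_apply_def]
        split_ifs with h1 h2
        · exact vW
        · exact h.hy
        · exact hw
      show Equiv.swap x u (Equiv.swap y v w) ∈ W
      rw [Equiv.swap_apply_def]
      split_ifs with h1 h2
      · exact uW
      · exact h.hx
      · exact e1
    have hgD : ∀ w, w ∉ De W σ x → g w = w := by
      intro w hw
      have n1 : w ≠ x := fun e => hw (e ▸ hxD)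
      have n2 : w ≠ y := fun e => hw (e ▸ hyD)
      have n3 : w ≠ u := fun e => hw (e ▸ Pe_sub hu)
      have n4 : w ≠ v := fun e => hw (e ▸ Qe_sub hv)
      show Equiv.swap x u (Equiv.swap y v w) = w
      rw [Equiv.swap_apply_of_ne_of_ne n2 n4, Equiv.swap_apply_of_ne_of_ne n1 n3]
    have hgD' : ∀ w, w ∈ De W σ x → g w ∈ De W σ x := by
      intro w hw
      rcases mem_De.1 hw with h1 | h1
      · exact mem_De.2 (Or.inl (mem_Pe.2 ⟨hgW w (mem_Pe.1 h1).1, fun l =>
          (hlab l w).trans ((mem_Pe.1 h1).2 l)⟩))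
      · exact mem_De.2 (Or.inr (mem_Qe.2 ⟨hgW w (mem_Qe.1 h1).1, fun l =>
          (hlab l w).trans ((mem_Qe.1 h1).2 l)⟩))
    have hgx : g x = u := by
      show Equiv.swap x u (Equiv.swap y v x) = u
      rw [Equiv.swap_apply_of_ne_of_ne h.ne hxv, Equiv.swap_apply_left]
    have hgy : g y = v := by
      show Equiv.swap x u (Equiv.swap y v y) = v
      rw [Equiv.swap_apply_left, Equiv.swap_apply_of_ne_of_ne hxv.symm huv'.symm]
    have hr : Rel W σ (fun l => (o l).image g) := by
      refine ⟨fun l => ?_, fun k l hkl => ?_⟩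
      · rcases hm.rel.opt l with ⟨c, hc, h1, h2⟩ | ⟨c, hc, d, hd, h1, h2, h3⟩
        · exact Or.inl ⟨g c, hgW c hc, (hlab l c).trans h1, by
            show (o l).image g = {g c}
            rw [h2, image_singleton]⟩
        · exact Or.inr ⟨g c, hgW c hc, g d, hgW d hd, (hlab l c).trans h1,
            (hlab l d).trans h2, by
              show (o l).image g = {g c, g d}
              rw [h3, image_insert, image_singleton]⟩
      · exact (disjoint_image hginj).2 (hm.rel.dis k l hkl)
    refine hm.no_imp hi hr ?_ ?_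
    · show Good W σ A i ((o i).image g)
      rw [h.os, image_insert, image_singleton, hgx, hgy]
      refine good_pair hN.sym (mem_Pe.1 hu).1 (mem_Qe.1 hv).1 ?_ ?_ ?_ huv
      · rw [← hlx]; exact h.n0
      · rw [← hly, h.opp hN, Ne, fl_zero]; exact h.n0
      · rw [← hlx, ← hly, h.opp hN]; exact (fl_ne h.n0).symm
    · intro k hk
      have hgk : Good W σ A k (o k) := by
        by_contra hn
        exact hk (mem_Vb.2 hn)
      have hik : i ≠ k := fun e => hk (e ▸ hi)
      show Good W σ A k ((o k).image g)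
      rcases hgk with ⟨c, hc, h1, h2⟩ | ⟨c, hc, d, hd, h1, h2, h4, h3⟩
      · exact Or.inl ⟨g c, hgW c hc, (hlab k c).trans h1, by rw [h2, image_singleton]⟩
      · refine Or.inr ⟨g c, hgW c hc, g d, hgW d hd, (hlab k c).trans h1, (hlab k d).trans h2, ?_,
          by rw [h3, image_insert, image_singleton]⟩
        have hl : Pr2 W σ o k c d := ⟨h3, hc, hd, by rw [h1]; decide, by rw [h2]; decide,
          by rw [h1, h2]; decide⟩
        have hnot : ¬ (c ∈ De W σ x ∧ d ∈ De W σ x) := by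
          rintro ⟨hcD, hdD⟩
          by_cases hjk : j = k
          · subst hjk
            exact hjD c (by rw [h3]; simp) hcD
          · rcases hpair k hik hjk c d hl with h5 | h5
            · exact h5.2 hdD
            · exact h5.1 hcD
        by_cases hcD : c ∈ De W σ x
        · have hdD : d ∉ De W σ x := fun e => hnot ⟨hcD, e⟩
          rw [hgD d hdD]
          exact out_adj hN (hgD' c hcD) hd hdD
        · rw [hgD c hcD]
          by_cases hdD : d ∈ De W σ x
          · exact hN.sym _ _ (out_adj hN (hgD' d hdD) hc hcD)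
          · rw [hgD d hdD]
            exact h4
  · obtain ⟨b1, b2, b3, b4, b5⟩ :=
      h.stuck hN hij hj.os hj.ha hj.hb hj.a0 hj.b0 hj.ab hab.1 hab.2
    by_cases e : σ i x = σ i a
    · have e2 := b5.1 e
      refine ⟨i, j, a, hj.ha, b, hj.hb, e.symm, eq_fl h.n0 b3 (fun e3 => b4 (e.symm.trans e3)),
        eq_fl b1 hj.a0 e2, ?_⟩
      exact (eq_fl hj.a0 hj.b0 hj.ab).trans (eq_fl hj.a0 b1 e2.symm).symm
    · have e2 : σ j x = σ j a := by
        by_contra e3
        exact e (b5.2 e3)
      refine ⟨j, i, a, hj.ha, b, hj.hb, e2.symm, eq_fl b1 hj.b0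
        (fun e3 => hj.ab (e2.symm.trans e3)), eq_fl h.n0 b2 e, ?_⟩
      exact (eq_fl b2 b3 b4).trans (eq_fl b2 h.n0 (fun e3 => e e3.symm)).symm

end Pool.Agent.Helper878_bk
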