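import Pool.Agent.Helper878_bk.Leaf

/-!
# The search, for a fixed set of vertices satisfying the promise
-/

set_option autoImplicit false
set_option linter.unusedSectionVars false

namespace Pool.Agent.Helper878_bk

open Finset Pool.Agent.NPC Pool.Agent.H671R2.SF Pool.Agent.Helper878_dcs Pool.Agent.Helper878_mm
open Pool.Agent.Helper878_bs Pool.Agent.Helper878_bg Pool.Agent.Helper878_bh
open Pool.Agent.Helper878_bj
open scoped Classical

/-- the elements of `U` in `W` -/
def iw (U W : List ℕ) : List ℕ := U.filter fun u => W.any fun w => decide (w = u)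

def leafY (E : List (ℕ × ℕ)) (U W : List ℕ) (J : List (List ℕ)) : Bool :=
  okU E (iw U W) J && coreV E (iw U W) J

section
variable {γ : Type} [TEnc γ] {E : γ → List (ℕ × ℕ)} {U W : γ → List ℕ} {J : γ → List (List ℕ)}

@[fun_prop]
theorem poly_iw (hU : Poly U) (hW : Poly W) : Poly (fun x => iw (U x) (W x)) := by
  unfold iw; fun_prop

@[fun_prop]
theorem poly_leafY (hE : Poly E) (hU : Poly U) (hW : Poly W) (hJ : Poly J) :
    Poly (fun x => leafY (E x) (U x) (W x) (J x)) := by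
  unfold leafY; fun_prop

end

/-- the states of the search -/
abbrev S4 := List (ℕ × ℕ) × (List ℕ × (List ℕ × List (List ℕ)))

/-- guess what happens to at most `m` terminal sets -/
def topY : ℕ → S4 → Bool
  | 0, x => leafY x.1 x.2.1 x.2.2.1 x.2.2.2
  | m + 1, x => leafY x.1 x.2.1 x.2.2.1 x.2.2.2 ||
      x.2.2.2.any fun Z => x.2.2.1.any fun a => x.2.2.1.any fun b => x.2.2.1.any fun c =>
        !discB x.1 (a :: b :: c :: Z) &&
          topY m (x.1, (x.2.1, (rm c (rm b (rm a x.2.2.1)), rmZ Z x.2.2.2)))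

theorem poly_topY : ∀ m, Poly (topY m)
  | 0 => by
    have e : topY 0 = fun x : S4 => leafY x.1 x.2.1 x.2.2.1 x.2.2.2 := by
      funext x; rfl
    rw [e]
    fun_prop
  | m + 1 => by
    have ih := poly_topY m
    have e : topY (m + 1) = fun x : S4 =>
      leafY x.1 x.2.1 x.2.2.1 x.2.2.2 ||
      x.2.2.2.any fun Z => x.2.2.1.any fun a => x.2.2.1.any fun b => x.2.2.1.any fun c =>
        !discB x.1 (a :: b :: c :: Z) &&
          topY m (x.1, (x.2.1, (rm c (rm b (rm a x.2.2.1)), rmZ Z x.2.2.2))) := by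
      funext x; rfl
    rw [e]
    generalize topY m = f at ih
    fun_prop

/-- the states of the outer search -/
abbrev S6 := List (ℕ × ℕ) × ((List ℕ × List (List ℕ)) × (List ℕ × List (List ℕ)))

/-- delete at most `m` vertices and terminal sets so that the promise holds -/
def nearY (t : ℕ) : ℕ → S6 → Bool
  | 0, x => okU x.1 x.2.1.1 x.2.1.2 && topY t (x.1, (x.2.1.1, x.2.2))
  | m + 1, x => (okU x.1 x.2.1.1 x.2.1.2 && topY t (x.1, (x.2.1.1, x.2.2))) ||
      ((x.2.1.1.any fun a => nearY t m (x.1, ((rm a x.2.1.1, x.2.1.2), x.2.2))) ||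
      (x.2.1.2.any fun Z => nearY t m (x.1, ((x.2.1.1, rmZ Z x.2.1.2), x.2.2))))

theorem poly_nearY (t : ℕ) : ∀ m, Poly (nearY t m)
  | 0 => by
    have h := poly_topY t
    have e : nearY t 0 = fun x : S6 => okU x.1 x.2.1.1 x.2.1.2 &&
        topY t (x.1, (x.2.1.1, x.2.2)) := by
      funext x; rfl
    rw [e]
    generalize topY t = g at h
    fun_prop
  | m + 1 => by
    have h := poly_topY t
    have ih := poly_nearY t m
    have e : nearY t (m + 1) = fun x : S6 => (okU x.1 x.2.1.1 x.2.1.2 &&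
        topY t (x.1, (x.2.1.1, x.2.2))) ||
      ((x.2.1.1.any fun a => nearY t m (x.1, ((rm a x.2.1.1, x.2.1.2), x.2.2))) ||
      (x.2.1.2.any fun Z => nearY t m (x.1, ((x.2.1.1, rmZ Z x.2.1.2), x.2.2)))) := by
      funext x; rfl
    rw [e]
    generalize nearY t m = f at ih
    generalize topY t = g at h
    fun_prop

variable {E : List (ℕ × ℕ)} {V : Finset ℕ} {U W : List ℕ} {J K : List (List ℕ)}

theorem mem_iw {u : ℕ} : u ∈ iw U W ↔ u ∈ U ∧ u ∈ W := by
  unfold iw
  rw [List.mem_filter, List.any_eq_true]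
  simp only [decide_eq_true_eq, exists_eq_right]

theorem nodup_iw (h : U.Nodup) : (iw U W).Nodup := h.filter _

theorem iw_toFinset : (iw U W).toFinset = W.toFinset ∩ U.toFinset := by
  ext x
  rw [List.mem_toFinset, mem_iw, mem_inter, List.mem_toFinset, List.mem_toFinset, and_comm]

theorem lctx_iw (hU : U.Nodup) (h : LCtx E V W J) : LCtx E V (iw U W) J :=
  LCtx.mono h (fun _ hw => (mem_iw.1 hw).2) (nodup_iw hU) (fun _ hZ => hZ) h.hJn

theorem leafY_sound (hU : U.Nodup) (h : LCtx E V W J) (hl : leafY E U W J = true) :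
    ∃ e, e ∈ U ∧ e ∈ W ∧ Feas (GG E) (rm e W).toFinset (Zf J) := by
  unfold leafY at hl
  rw [Bool.and_eq_true, okU_iff] at hl
  have htd := Ok.td (lctx_iw hU h) hl.1
  obtain ⟨e, he, hF⟩ := (coreV_iff htd (hn_of htd hl.1.2)).1 hl.2
  rw [mem_iw] at he
  refine ⟨e, he.1, he.2, feas_mono ?_ hF⟩
  intro x hx
  rw [List.mem_toFinset, mem_rm, mem_iw] at hx
  rw [List.mem_toFinset, mem_rm]
  exact ⟨hx.1.2, hx.2⟩

theorem topY_sound (hU : U.Nodup) : ∀ (m : ℕ) (W : List ℕ) (J : List (List ℕ)), LCtx E V W J →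
    topY m (E, (U, (W, J))) = true →
      ∃ e, e ∈ U ∧ e ∈ W ∧ Feas (GG E) (rm e W).toFinset (Zf J) := by
  intro m
  induction m with
  | zero =>
    intro W J h hr
    exact leafY_sound hU h hr
  | succ m ih =>
    intro W J h hr
    unfold topY at hr
    dsimp only at hr
    rw [Bool.or_eq_true] at hr
    simp only [List.any_eq_true] at hr
    rcases hr with hr | ⟨Z, hZ, a, ha, b, hb, c, hc, hr⟩
    · exact leafY_sound hU h hr
    · rw [Bool.and_eq_true, con3 h hZ ha hb hc] at hr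
      obtain ⟨e, he, heW, hF⟩ := ih _ _ (LCtx.mono h
        (fun w hw => (mem_rm.1 (mem_rm.1 (mem_rm.1 hw).1).1).1)
          (nodup_rm (nodup_rm (nodup_rm h.hWn))) (fun Z hZ => (mem_rmZ.1 hZ).1)
          (nodup_rmZ h.hJn)) hr.2
      rw [mem_rm, mem_rm, mem_rm] at heW
      refine ⟨e, he, heW.1.1.1, feas_step (s := {a, b, c}) ?_ hr.1
        (W' := rm e (rm c (rm b (rm a W)))) ?_ hF⟩
      · intro x hx
        simp only [mem_insert, mem_singleton] at hx
        rw [List.mem_toFinset, mem_rm]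
        rcases hx with rfl | rfl | rfl
        · exact ⟨ha, fun h => heW.1.1.2 h.symm⟩
        · exact ⟨hb, fun h => heW.1.2 h.symm⟩
        · exact ⟨hc, fun h => heW.2 h.symm⟩
      · intro w hw
        rw [mem_rm, mem_rm, mem_rm, mem_rm] at hw
        refine ⟨mem_rm.2 ⟨hw.1.1.1.1, hw.2⟩, fun hx => ?_⟩
        simp only [mem_insert, mem_singleton] at hx
        rcases hx with hx | hx | hx
        · exact hw.1.1.1.2 hx
        · exact hw.1.1.2 hx
        · exact hw.1.2 hx

theorem leafY_complete (hU : U.Nodup) (h : LCtx E V W J)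
    (hk : Ok E (W.toFinset ∩ U.toFinset) J) {e : ℕ} (he : e ∈ U) (heW : e ∈ W)
    {g : {Z // Z ∈ J} → Finset ℕ} (hg : ∀ i, g i ⊆ (rm e W).toFinset ∧
      Con (GG E) (i.1.toFinset ∪ g i)) (hd : ∀ i j, i ≠ j → Disjoint (g i) (g j))
    (hgU : ∀ i, ∀ x ∈ g i, x ∈ U) : leafY E U W J = true := by
  unfold leafY
  rw [Bool.and_eq_true, okU_iff, iw_toFinset]
  refine ⟨hk, ?_⟩
  rw [← iw_toFinset] at hk
  have htd := Ok.td (lctx_iw hU h) hk
  refine (coreV_iff htd (hn_of htd hk.2)).2 ⟨e, mem_iw.2 ⟨he, heW⟩, g, fun i =>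
    ⟨fun x hx => ?_, (hg i).2⟩, hd⟩
  have h1 := (hg i).1 hx
  rw [List.mem_toFinset, mem_rm] at h1
  rw [List.mem_toFinset, mem_rm, mem_iw]
  exact ⟨⟨hgU i x hx, h1.1⟩, h1.2⟩

theorem topY_complete (hU : U.Nodup) : ∀ (m : ℕ) (T : Finset (List ℕ)) (W : List ℕ)
    (J : List (List ℕ)), LCtx E V W J → (∀ Z ∈ T, Z ∈ J) →
    (W.toFinset \ U.toFinset).card + T.card ≤ m → Ok E (W.toFinset ∩ U.toFinset) (mns J T) →
    ∀ e, e ∈ U → e ∈ W → Feas (GG E) (rm e W).toFinset (Zf J) →
      topY m (E, (U, (W, J))) = true := by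
  have leaf : ∀ (W : List ℕ) (J : List (List ℕ)) (T : Finset (List ℕ)), LCtx E V W J →
      (∀ Z ∈ T, Z ∈ J) → Ok E (W.toFinset ∩ U.toFinset) (mns J T) → ∀ e, e ∈ U → e ∈ W →
      ∀ g : {Z // Z ∈ J} → Finset ℕ, (∀ i, g i ⊆ (rm e W).toFinset ∧
        Con (GG E) (i.1.toFinset ∪ g i)) → (∀ i j, i ≠ j → Disjoint (g i) (g j)) →
      (¬ ∃ i : {Z // Z ∈ J}, i.1 ∈ T ∨ ∃ s ∈ W.toFinset \ U.toFinset, s ∈ g i) →
      leafY E U W J = true := by
    intro W J T h hT hk e he heW g hg hd hno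
    push Not at hno
    refine leafY_complete hU h ?_ he heW hg hd ?_
    · refine Ok.mono (Subset.refl _) (fun Z hZ => mem_mns.2 ⟨hZ, (hno ⟨Z, hZ⟩).1⟩) hk
    · intro i x hx
      by_contra hxU
      have hxW := (hg i).1 hx
      rw [List.mem_toFinset, mem_rm] at hxW
      exact (hno i).2 x (mem_sdiff.2 ⟨List.mem_toFinset.2 hxW.1,
        fun h => hxU (List.mem_toFinset.1 h)⟩) hx
  intro m
  induction m with
  | zero =>
    intro T W J h hT hc hk e he heW hF
    obtain ⟨g, hg, hd⟩ := hF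
    have h1 : W.toFinset \ U.toFinset = ∅ := card_eq_zero.1 (by omega)
    have h2 : T = ∅ := card_eq_zero.1 (by omega)
    refine leaf W J T h hT hk e he heW g hg hd ?_
    rintro ⟨i, hi | ⟨s, hs, _⟩⟩
    · rw [h2] at hi
      exact absurd hi (notMem_empty _)
    · rw [h1] at hs
      exact absurd hs (notMem_empty _)
  | succ m ih =>
    intro T W J h hT hc hk e he heW hF
    unfold topY
    dsimp only
    rw [Bool.or_eq_true]
    simp only [List.any_eq_true]
    have hre : LCtx E V (rm e W) J := LCtx.mono h (fun w hw => (mem_rm.1 hw).1)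
      (nodup_rm h.hWn) (fun Z hZ => hZ) h.hJn
    obtain ⟨g, hg, hd⟩ := shrink hre hF
    by_cases hex : ∃ i : {Z // Z ∈ J}, i.1 ∈ T ∨ ∃ s ∈ W.toFinset \ U.toFinset, s ∈ g i
    swap
    · exact Or.inl (leaf W J T h hT hk e he heW g (fun i => ⟨(hg i).1, (hg i).2.1⟩) hd hex)
    obtain ⟨i, hi⟩ := hex
    have hce : ((W.toFinset \ U.toFinset) \ g i).card + (T.erase i.1).card ≤ m := by
      have c1 : ((W.toFinset \ U.toFinset) \ g i).card ≤ (W.toFinset \ U.toFinset).card :=
        card_le_card sdiff_subset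
      have c2 : (T.erase i.1).card ≤ T.card := card_le_card (erase_subset _ _)
      rcases hi with hi | ⟨s, hsS, hsi⟩
      · have := card_erase_of_mem hi
        have := card_pos.2 ⟨i.1, hi⟩
        omega
      · have : ((W.toFinset \ U.toFinset) \ g i).card < (W.toFinset \ U.toFinset).card := by
          refine card_lt_card ⟨sdiff_subset, fun hsub => ?_⟩
          exact (mem_sdiff.1 (hsub hsS)).2 hsi
        omega
    have hei : e ∉ g i := fun hh => (mem_rm.1 (List.mem_toFinset.1 ((hg i).1 hh))).2 rfl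
    have go : ∀ W' : List ℕ, W'.Nodup → (∀ w, w ∈ W' ↔ w ∈ W ∧ w ∉ g i) →
        topY m (E, (U, (W', rmZ i.1 J))) = true := by
      intro W' hn hW'
      have hset : W'.toFinset \ U.toFinset = (W.toFinset \ U.toFinset) \ g i := by
        ext x
        rw [mem_sdiff, mem_sdiff, mem_sdiff, List.mem_toFinset, List.mem_toFinset,
          List.mem_toFinset, hW']
        tauto
      refine ih (T.erase i.1) W' (rmZ i.1 J) ?_ ?_ (by rw [hset]; exact hce) ?_ e he
        ((hW' e).2 ⟨heW, hei⟩) ?_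
      · exact LCtx.mono h (fun w hw => ((hW' w).1 hw).1) hn (fun Z hZ => (mem_rmZ.1 hZ).1)
          (nodup_rmZ h.hJn)
      · intro Z hZ
        rw [mem_erase] at hZ
        exact mem_rmZ.2 ⟨hT Z hZ.2, hZ.1⟩
      · refine Ok.mono ?_ ?_ hk
        · intro x hx
          rw [mem_inter, List.mem_toFinset, hW'] at hx
          exact mem_inter.2 ⟨List.mem_toFinset.2 hx.1.1, hx.2⟩
        · intro Z hZ
          rw [mem_mns, mem_rmZ, mem_erase] at hZ
          exact mem_mns.2 ⟨hZ.1.1, fun hZT => hZ.2 ⟨hZ.1.2, hZT⟩⟩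
      · have hm : ∀ j : {Z // Z ∈ rmZ i.1 J}, j.1 ∈ J := fun j => (mem_rmZ.1 j.2).1
        refine ⟨fun j => g ⟨j.1, hm j⟩, fun j => ⟨fun x hx => ?_, (hg ⟨j.1, hm j⟩).2.1⟩,
          fun j k hjk => hd _ _ fun he => hjk (Subtype.ext (Subtype.mk.inj he))⟩
        have hx' := (hg ⟨j.1, hm j⟩).1 hx
        rw [List.mem_toFinset, mem_rm] at hx'
        refine List.mem_toFinset.2 (mem_rm.2 ⟨(hW' x).2 ⟨hx'.1, fun hxi => ?_⟩, hx'.2⟩)
        refine disjoint_left.1 (hd ⟨j.1, hm j⟩ i fun he => ?_) hx hxi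
        exact (mem_rmZ.1 j.2).2 (congrArg Subtype.val he)
    obtain ⟨-, hcon, a, b, c, ha, hb, hcW, hgi⟩ := hg i
    rw [mem_rm] at ha hb hcW
    refine Or.inr ⟨i.1, i.2, a, ha.1, b, hb.1, c, hcW.1, ?_⟩
    rw [Bool.and_eq_true, con3 h i.2 ha.1 hb.1 hcW.1]
    rw [hgi] at hcon
    refine ⟨hcon, go _ (nodup_rm (nodup_rm (nodup_rm h.hWn))) fun w => ?_⟩
    rw [mem_rm, mem_rm, mem_rm, hgi]
    simp only [mem_insert, mem_singleton]
    tauto

end Pool.Agent.Helper878_bk
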