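import Pool.Agent.Helper878_bk.NearZ
import Pool.Agent.Helper878_bk.Main
import Pool.Agent.Helper878_bk.Defs2

/-!
# Exceptional vertices: lists and graphs
-/

set_option autoImplicit false
set_option linter.unusedSectionVars false

namespace Pool.Agent.Helper878_bk

open Finset Pool.Agent.NPC Pool.Agent.H671R2.SF Pool.Agent.Helper878_dcs Pool.Agent.Helper878_mm
open Pool.Agent.Helper878_bs Pool.Agent.Helper878_bg Pool.Agent.Helper878_bh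
open Pool.Agent.Helper878_bj
open scoped Classical

section
variable {E : List (ℕ × ℕ)} {V : Finset ℕ} {W : List ℕ} {J : List (List ℕ)}

theorem apt_of_labels (h : TD E V W J) {Z : List ℕ} (hZ : Z ∈ J) {a b : ℕ} (hb : b ∈ W)
    (h1 : sg3 E Z a = 1) (h2 : sg3 E Z b = 2) : Apt E Z a b := by
  have hK := h.lc.hK
  have hU := h.lc.hJU Z hZ
  have hne := h.ne' hZ
  have hd := h.lc.hdc Z hZ
  have h0 := h.nmm hZ
  obtain ⟨z1, hz1, hn1, ha2, hbm, e4, e1⟩ := h.sides hZ hb h1 h2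
  intro x hx y hy hax hby hxy
  rw [← List.mem_toFinset] at hx hy
  exact hbm y hy (near_trans hK hU hne hd h0 hx hy (e1 x hx hax) hxy) hby

theorem apt_iff_fl (h : TD E V W J) {Z : List ℕ} (hZ : Z ∈ J) {a b : ℕ} (ha : a ∈ W)
    (hb : b ∈ W) (h0 : sg3 E Z a ≠ 0) : sg3 E Z b = fl (sg3 E Z a) ↔ Apt E Z a b := by
  constructor
  · intro he
    rcases fin3 (sg3 E Z a) with e | e | e
    · exact absurd e h0
    · exact apt_of_labels h hZ hb e (by rw [he, e]; rfl)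
    · exact (apt_of_labels h hZ ha (by rw [he, e]; rfl) e).symm
  · exact apt_fl h hZ ha hb

end

variable {I : Inst}

theorem zero_iff_joins (hw : WellFormed I) (hK : KP (GG I.2.1) I.1.toFinset) {W : List ℕ}
    {J : List (List ℕ)} (h : TD I.2.1 I.1.toFinset W J) {Z : List ℕ} (hZ : Z ∈ J)
    (hZh : Hard I Z) {v : {v // v ∈ I.1}} (hv : v.1 ∈ W) (hvf : v.1 ∈ freeV I.1 I.2.2) :
    sg3 I.2.1 Z v.1 = 0 ↔ Joins I Z v := by
  have hZd : Z ∈ discs I.2.1 I.2.2 := (mem_hardL.1 ((mem_hards hw hK).2 hZh)).1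
  rw [joins_iff hw hK hZh hvf]
  have h2 := mem_joinL (lctx hw hK) hZd (v := v.1)
  unfold joinL at h2
  rw [List.mem_filter, Bool.not_eq_true'] at h2
  constructor
  · intro h3
    exact (h2.2 ⟨hvf, h.zero hZ (sg3_zero.1 h3)⟩).2
  · intro h3
    exact zero_of_con h hZ hv (h2.1 ⟨hvf, h3⟩).2

theorem card_lift {P : Finset {v // v ∈ I.1}} {P' : Finset ℕ} (hP' : ∀ s ∈ P', s ∈ I.1)
    (h : ∀ v : {v // v ∈ I.1}, v ∈ P ↔ v.1 ∈ P') : P.card = P'.card := by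
  have : P' = P.map ⟨Subtype.val, Subtype.val_injective⟩ := by
    ext x
    rw [mem_map]
    constructor
    · intro hx
      exact ⟨⟨x, hP' x hx⟩, (h _).2 hx, rfl⟩
    · rintro ⟨v, hv, rfl⟩
      exact (h v).1 hv
  rw [this, card_map]

theorem numHardOut_eq (hw : WellFormed I) (hK : KP (GG I.2.1) I.1.toFinset)
    (G : Finset (List ℕ)) : numHardOut I G = ((hards I).toFinset \ G).card := by
  unfold numHardOut
  rw [Nat.card_congr (Equiv.subtypeEquivRight (q := fun Z => Z ∈ (hards I).toFinset \ G)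
    fun Z => by rw [mem_sdiff, List.mem_toFinset, mem_hards hw hK]), Nat.card_eq_fintype_card,
    Fintype.card_coe]

/-- the context of a set satisfying the promise -/
theorem td_of_ok (hw : WellFormed I) (hK : KP (GG I.2.1) I.1.toFinset) {U' : Finset ℕ}
    (hV : ∀ v ∈ U', v ∈ freeV I.1 I.2.2) {G : Finset (List ℕ)}
    (hok : Ok I.2.1 U' (mns (hards I) G)) :
    TD I.2.1 I.1.toFinset ((freeV I.1 I.2.2).filter fun v => decide (v ∈ U'))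
      (mns (hards I) G) := by
  have h := lctxH hw hK
  refine Helper878_bj.Ok.td (LCtx.mono h (fun w hw => (List.mem_filter.1 hw).1) (h.hWn.filter _)
    (fun Z hZ => (mem_mns.1 hZ).1) (h.hJn.filter _)) ?_
  refine Helper878_bj.Ok.mono ?_ (fun Z hZ => hZ) hok
  intro x hx
  rw [List.mem_toFinset, List.mem_filter, decide_eq_true_eq] at hx
  exact hx.2

theorem exc_graph (hw : WellFormed I) (hK : KP (GG I.2.1) I.1.toFinset)
    {U : Finset {v // v ∈ I.1}} {U' : Finset ℕ} (hU : ∀ v : {v // v ∈ I.1}, v ∈ U ↔ v.1 ∈ U')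
    (hV : ∀ v ∈ U', v ∈ freeV I.1 I.2.2) {G : Finset (List ℕ)}
    (hok : Ok I.2.1 U' (mns (hards I) G)) (e : {v // v ∈ I.1}) :
    Exceptional I U G e ↔ ExF I.2.1 U' ((hards I).toFinset \ G) e.1 := by
  have hV' : ∀ v ∈ U', v ∈ I.1 := fun v hv => (mem_freeV.1 (hV v hv)).1
  have htd := td_of_ok hw hK hV hok
  have hWm : ∀ v ∈ U', v ∈ (freeV I.1 I.2.2).filter fun v => decide (v ∈ U') := fun v hv =>
    List.mem_filter.2 ⟨hV v hv, decide_eq_true hv⟩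
  have hZm : ∀ Z, Z ∈ (hards I).toFinset \ G ↔ Hard I Z ∧ Z ∉ G := fun Z => by
    rw [mem_sdiff, List.mem_toFinset, mem_hards hw hK]
  have hmn : ∀ Z, Hard I Z → Z ∉ G → Z ∈ mns (hards I) G := fun Z h1 h2 =>
    mem_mns.2 ⟨(mem_hards hw hK).2 h1, h2⟩
  have l0 : ∀ v : {v // v ∈ I.1}, v.1 ∈ U' → ∀ Z, Hard I Z → Z ∉ G →
      (sg3 I.2.1 Z v.1 = 0 ↔ Joins I Z v) := fun v hv Z h1 h2 =>
    zero_iff_joins hw hK htd (hmn Z h1 h2) h1 (hWm _ hv) (hV _ hv)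
  have lO : ∀ a b : {v // v ∈ I.1}, a.1 ∈ U' → b.1 ∈ U' → ∀ Z, Hard I Z → Z ∉ G →
      ¬ Joins I Z a → (sg3 I.2.1 Z b.1 = fl (sg3 I.2.1 Z a.1) ↔ Apart I Z a b) := by
    intro a b ha hb Z h1 h2 h3
    rw [apart_iff hw hK h1]
    exact apt_iff_fl htd (hmn Z h1 h2) (hWm _ ha) (hWm _ hb)
      fun h4 => h3 ((l0 a ha Z h1 h2).1 h4)
  have lS : ∀ a b : {v // v ∈ I.1}, a.1 ∈ U' → b.1 ∈ U' → ∀ Z, Hard I Z → Z ∉ G →
      ¬ Joins I Z a → (sg3 I.2.1 Z b.1 = sg3 I.2.1 Z a.1 ↔ SameSide I Z a b) := by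
    intro a b ha hb Z h1 h2 h3
    have ha0 : sg3 I.2.1 Z a.1 ≠ 0 := fun h4 => h3 ((l0 a ha Z h1 h2).1 h4)
    constructor
    · intro he
      refine ⟨h3, fun h4 => ha0 (he.symm.trans ((l0 b hb Z h1 h2).2 h4)), fun h4 => ?_⟩
      have h5 := (lO a b ha hb Z h1 h2 h3).2 h4
      rw [he] at h5
      exact fl_ne ha0 h5.symm
    · rintro ⟨_, h4, h5⟩
      have hb0 : sg3 I.2.1 Z b.1 ≠ 0 := fun h6 => h4 ((l0 b hb Z h1 h2).1 h6)
      by_contra hne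
      exact h5 ((lO a b ha hb Z h1 h2 h3).1 (eq_fl ha0 hb0 fun h6 => hne h6.symm))
  have hPQ : e.1 ∈ U' → (∀ Z, Hard I Z → Z ∉ G → ¬ Joins I Z e) →
      (∀ v : {v // v ∈ I.1}, (v ∈ U ∧ ∀ Z, Hard I Z → Z ∉ G → SameSide I Z e v) ↔
        v.1 ∈ PF I.2.1 U' ((hards I).toFinset \ G) e.1) ∧
      (∀ v : {v // v ∈ I.1}, (v ∈ U ∧ ∀ Z, Hard I Z → Z ∉ G → Apart I Z e v) ↔
        v.1 ∈ QF I.2.1 U' ((hards I).toFinset \ G) e.1) := by
    intro he hnj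
    constructor
    · intro v
      unfold PF
      rw [mem_filter, hU]
      refine and_congr_right fun hv => ?_
      constructor
      · intro h Z hZ
        obtain ⟨h1, h2⟩ := (hZm Z).1 hZ
        exact (lS e v he hv Z h1 h2 (hnj Z h1 h2)).2 (h Z h1 h2)
      · intro h Z h1 h2
        exact (lS e v he hv Z h1 h2 (hnj Z h1 h2)).1 (h Z ((hZm Z).2 ⟨h1, h2⟩))
    · intro v
      unfold QF
      rw [mem_filter, hU]
      refine and_congr_right fun hv => ?_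
      constructor
      · intro h Z hZ
        obtain ⟨h1, h2⟩ := (hZm Z).1 hZ
        exact (lO e v he hv Z h1 h2 (hnj Z h1 h2)).2 (h Z h1 h2)
      · intro h Z h1 h2
        exact (lO e v he hv Z h1 h2 (hnj Z h1 h2)).1 (h Z ((hZm Z).2 ⟨h1, h2⟩))
  have hPs : ∀ v ∈ PF I.2.1 U' ((hards I).toFinset \ G) e.1, v ∈ I.1 := fun v hv =>
    hV' v (mem_filter.1 hv).1
  have hQs : ∀ v ∈ QF I.2.1 U' ((hards I).toFinset \ G) e.1, v ∈ I.1 := fun v hv =>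
    hV' v (mem_filter.1 hv).1
  have hUs : ∀ v ∈ PF I.2.1 U' ((hards I).toFinset \ G) e.1 ∪
      QF I.2.1 U' ((hards I).toFinset \ G) e.1, v ∈ I.1 := fun v hv =>
    (mem_union.1 hv).elim (hPs v) (hQs v)
  constructor
  · rintro ⟨he, hnj, P, Q, hP, hQ, ⟨q, hq⟩, hanti, hc, hle, Z₁, Y₁, hZ₁, hY₁, a, ha, b, hb,
      g1, g2, g3, g4⟩
    rw [hU] at he
    obtain ⟨hP', hQ'⟩ := hPQ he hnj
    have eP : ∀ v : {v // v ∈ I.1}, v ∈ P ↔
        v.1 ∈ PF I.2.1 U' ((hards I).toFinset \ G) e.1 := fun v => (hP v).trans (hP' v)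
    have eQ : ∀ v : {v // v ∈ I.1}, v ∈ Q ↔
        v.1 ∈ QF I.2.1 U' ((hards I).toFinset \ G) e.1 := fun v => (hQ v).trans (hQ' v)
    have eU : (P ∪ Q).card = (PF I.2.1 U' ((hards I).toFinset \ G) e.1 ∪
        QF I.2.1 U' ((hards I).toFinset \ G) e.1).card := card_lift hUs fun v => by
      rw [mem_union, mem_union, eP, eQ]
    have ha' := (hU a).1 ha
    have hb' := (hU b).1 hb
    refine ⟨he, fun Z hZ => ?_, ?_, ?_, ⟨q.1, (eQ q).1 hq⟩, fun u hu v hv huv => ?_,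
      Z₁, (hZm Z₁).2 hZ₁, Y₁, (hZm Y₁).2 hY₁, a.1, ha', b.1, hb',
      (lS e a he ha' Z₁ hZ₁.1 hZ₁.2 (hnj Z₁ hZ₁.1 hZ₁.2)).2 g1,
      (lO e b he hb' Z₁ hZ₁.1 hZ₁.2 (hnj Z₁ hZ₁.1 hZ₁.2)).2 g2,
      (lO e a he ha' Y₁ hY₁.1 hY₁.2 (hnj Y₁ hY₁.1 hY₁.2)).2 g3,
      (lS e b he hb' Y₁ hY₁.1 hY₁.2 (hnj Y₁ hY₁.1 hY₁.2)).2 g4⟩
    · obtain ⟨h1, h2⟩ := (hZm Z).1 hZ
      exact fun h3 => hnj Z h1 h2 ((l0 e he Z h1 h2).1 h3)
    · rw [← numHardOut_eq hw hK, ← eU, ← card_lift hV' hU]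
      exact hc
    · rw [← numHardOut_eq hw hK, ← eU]
      exact hle
    · exact hanti ⟨u, hPs u hu⟩ ((eP _).2 hu) ⟨v, hQs v hv⟩ ((eQ _).2 hv) (graph_adj.2 huv)
  · rintro ⟨he, hnz, hc, hle, ⟨q, hq⟩, hanti, Z₁, hZ₁, Y₁, hY₁, a, ha, b, hb, g1, g2, g3, g4⟩
    have hnj : ∀ Z, Hard I Z → Z ∉ G → ¬ Joins I Z e := fun Z h1 h2 h3 =>
      hnz Z ((hZm Z).2 ⟨h1, h2⟩) ((l0 e he Z h1 h2).2 h3)
    obtain ⟨hP', hQ'⟩ := hPQ he hnj
    obtain ⟨P, _, eP⟩ := exists_lift hPs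
    obtain ⟨Q, _, eQ⟩ := exists_lift hQs
    have eU : (P ∪ Q).card = (PF I.2.1 U' ((hards I).toFinset \ G) e.1 ∪
        QF I.2.1 U' ((hards I).toFinset \ G) e.1).card := card_lift hUs fun v => by
      rw [mem_union, mem_union, eP, eQ]
    obtain ⟨z1, z2⟩ := (hZm Z₁).1 hZ₁
    obtain ⟨y1, y2⟩ := (hZm Y₁).1 hY₁
    refine ⟨(hU e).2 he, hnj, P, Q, fun v => (eP v).trans (hP' v).symm,
      fun v => (eQ v).trans (hQ' v).symm, ⟨⟨q, hQs q hq⟩, (eQ _).2 hq⟩, fun u hu v hv huv => ?_,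
      ?_, ?_, Z₁, Y₁, ⟨z1, z2⟩, ⟨y1, y2⟩, ⟨a, hV' a ha⟩, (hU _).2 ha, ⟨b, hV' b hb⟩, (hU _).2 hb,
      (lS e ⟨a, hV' a ha⟩ he ha Z₁ z1 z2 (hnj Z₁ z1 z2)).1 g1,
      (lO e ⟨b, hV' b hb⟩ he hb Z₁ z1 z2 (hnj Z₁ z1 z2)).1 g2,
      (lO e ⟨a, hV' a ha⟩ he ha Y₁ y1 y2 (hnj Y₁ y1 y2)).1 g3,
      (lS e ⟨b, hV' b hb⟩ he hb Y₁ y1 y2 (hnj Y₁ y1 y2)).1 g4⟩
    · exact hanti u.1 ((eP u).1 hu) v.1 ((eQ v).1 hv) (graph_adj.1 huv)
    · rw [numHardOut_eq hw hK, eU, card_lift hV' hU]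
      exact hc
    · rw [numHardOut_eq hw hK, eU]
      exact hle

theorem calm_iff (hw : WellFormed I) (hK : KP (GG I.2.1) I.1.toFinset) (t : ℕ)
    {U : Finset {v // v ∈ I.1}} {U' : Finset ℕ} (hU : ∀ v : {v // v ∈ I.1}, v ∈ U ↔ v.1 ∈ U')
    (hV : ∀ v ∈ U', v ∈ freeV I.1 I.2.2) {T : Finset (List ℕ)}
    (hok : Ok I.2.1 U' (mns (hards I) T)) :
    Calm t I U T ↔ CalmF I.2.1 t U' ((hards I).toFinset \ T) := by
  have hV' : ∀ v ∈ U', v ∈ I.1 := fun v hv => (mem_freeV.1 (hV v hv)).1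
  constructor
  · intro h U₁' hU₁ hc K₁ hK₁ hc2 e he
    have hU₁V : ∀ v ∈ U₁', v ∈ I.1 := fun v hv => hV' v (hU₁ hv)
    obtain ⟨U₁, _, eU₁⟩ := exists_lift hU₁V
    set G : Finset (List ℕ) := T ∪ (((hards I).toFinset \ T) \ K₁) with hG
    have hTG : T ⊆ G := subset_union_left
    have hGK : (hards I).toFinset \ G = K₁ := by
      ext Z
      rw [hG, mem_sdiff, mem_union, mem_sdiff, mem_sdiff]
      constructor
      · rintro ⟨h1, h2⟩
        by_contra h3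
        exact h2 (Or.inr ⟨⟨h1, fun h4 => h2 (Or.inl h4)⟩, h3⟩)
      · intro h1
        have h2 := hK₁ h1
        rw [mem_sdiff] at h2
        refine ⟨h2.1, ?_⟩
        rintro (h3 | h3)
        · exact h2.2 h3
        · exact h3.2 h1
    have hGT : (G \ T).card ≤ t := by
      refine (card_le_card ?_).trans hc2
      intro Z hZ
      rw [hG, mem_sdiff, mem_union] at hZ
      exact hZ.1.resolve_left hZ.2
    have hok' : Ok I.2.1 U₁' (mns (hards I) G) := Ok.mono hU₁ (fun Z hZ => by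
      rw [mem_mns] at hZ
      exact mem_mns.2 ⟨hZ.1, fun hZT => hZ.2 (hTG hZT)⟩) hok
    have heV : e ∈ I.1 := hU₁V e he.me
    refine h U₁ ?_ ?_ G hTG hGT ⟨e, heV⟩ ((exc_graph hw hK eU₁ (fun v hv => hV v (hU₁ hv))
      hok' ⟨e, heV⟩).2 (by rw [hGK]; exact he))
    · intro v hv
      exact (hU v).2 (hU₁ ((eU₁ v).1 hv))
    · have : (U \ U₁).card = (U' \ U₁').card := card_lift (fun v hv =>
        hV' v (mem_sdiff.1 hv).1) fun v => by rw [mem_sdiff, mem_sdiff, hU, eU₁]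
      rw [this]
      exact hc
  · intro h U₁ hU₁ hc G hTG hGT e he
    set U₁' : Finset ℕ := U₁.map ⟨Subtype.val, Subtype.val_injective⟩ with hU₁'
    have eU₁ : ∀ v : {v // v ∈ I.1}, v ∈ U₁ ↔ v.1 ∈ U₁' := by
      intro v
      rw [hU₁', mem_map]
      constructor
      · intro hv
        exact ⟨v, hv, rfl⟩
      · rintro ⟨u, hu, he'⟩
        rw [← Subtype.ext (show u.1 = v.1 from he')]
        exact hu
    have hsub : U₁' ⊆ U' := by
      intro x hx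
      rw [hU₁', mem_map] at hx
      obtain ⟨v, hv, rfl⟩ := hx
      exact (hU v).1 (hU₁ hv)
    have hok' : Ok I.2.1 U₁' (mns (hards I) G) := Ok.mono hsub (fun Z hZ => by
      rw [mem_mns] at hZ
      exact mem_mns.2 ⟨hZ.1, fun hZT => hZ.2 (hTG hZT)⟩) hok
    refine h U₁' hsub ?_ ((hards I).toFinset \ G) ?_ ?_ e.1
      ((exc_graph hw hK eU₁ (fun v hv => hV v (hsub hv)) hok' e).1 he)
    · have : (U \ U₁).card = (U' \ U₁').card := card_lift (fun v hv =>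
        hV' v (mem_sdiff.1 hv).1) fun v => by rw [mem_sdiff, mem_sdiff, hU, eU₁]
      rw [← this]
      exact hc
    · intro Z hZ
      rw [mem_sdiff] at hZ ⊢
      exact ⟨hZ.1, fun h1 => hZ.2 (hTG h1)⟩
    · refine (card_le_card ?_).trans hGT
      intro Z hZ
      rw [mem_sdiff, mem_sdiff, mem_sdiff, not_and, not_not] at hZ
      exact mem_sdiff.2 ⟨hZ.2 hZ.1.1, hZ.1.2⟩

end Pool.Agent.Helper878_bk
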